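import Mathlib

/-!
# Semi-dispersive polygons: the billiard map and hyperbolicity

Definitions used in the statement about semi-dispersive convex polygons.
The plane is `ℂ`.  The sides are indexed by `ZMod n`; side `i` joins the vertices `p i` and
`p (i+1)`, and the table lies on the left of the directed side.
-/

open Complex Set Filter Topology MeasureTheory

namespace Pool.Agent.Lib.MP_19d7db_an

/-- Cross product (signed area) of two plane vectors. -/
def cr (z w : ℂ) : ℝ := z.re * w.im - z.im * w.re

/-- Data of a semi-dispersive polygon: the vertices, the set of dispersive sides and the radii of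
the circular arcs (only the radii of the dispersive sides matter). -/
structure Table (n : ℕ) where
  /-- vertices, in counterclockwise order -/
  p : ZMod n → ℂ
  /-- the sides which are replaced by circular arcs -/
  D : Set (ZMod n)
  /-- radii of the arcs -/
  ρ : ZMod n → ℝ

namespace Table

variable {n : ℕ} (Y : Table n)

/-- The vector along the side `i`. -/
noncomputable def e (i : ZMod n) : ℂ := Y.p (i + 1) - Y.p i

/-- The length of the side `i` of the polygon. -/
noncomputable def ℓ (i : ZMod n) : ℝ := ‖Y.e i‖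

open Classical in
/-- Half of the central angle of the arc which replaces the side `i` (zero for neutral sides). -/
noncomputable def β (i : ZMod n) : ℝ :=
  if i ∈ Y.D then Real.arcsin (Y.ℓ i / (2 * Y.ρ i)) else 0

open Classical in
/-- Curvature of the boundary component `i`. -/
noncomputable def κ (i : ZMod n) : ℝ := if i ∈ Y.D then 1 / Y.ρ i else 0

open Classical in
/-- Length of the boundary component `i`. -/
noncomputable def len (i : ZMod n) : ℝ := if i ∈ Y.D then 2 * Y.ρ i * Y.β i else Y.ℓ i

/-- Centre of the circle through `p i` and `p (i+1)` of radius `ρ i` whose centre lies on the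
outer side of the side `i`. -/
noncomputable def c (i : ZMod n) : ℂ :=
  (Y.p i + Y.p (i + 1)) / 2 - I * (Y.e i / Y.ℓ i) * (√(Y.ρ i ^ 2 - (Y.ℓ i / 2) ^ 2) : ℝ)

open Classical in
/-- Arc length parametrisation of the boundary component `i`, from `p i` (`s = 0`) to
`p (i+1)` (`s = len i`). -/
noncomputable def pos (i : ZMod n) (s : ℝ) : ℂ :=
  if i ∈ Y.D then Y.c i + Y.ρ i * (I * (Y.e i / Y.ℓ i)) * exp (I * (Y.β i - s / Y.ρ i : ℝ))
  else Y.p i + s * (Y.e i / Y.ℓ i)

/-- Unit tangent vector of the boundary component `i` (the table is on its left). -/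
noncomputable def tan (i : ZMod n) (s : ℝ) : ℂ :=
  (Y.e i / Y.ℓ i) * exp (I * (Y.β i - Y.κ i * s : ℝ))

/-- The pairs `(s, θ)` of an arc length parameter and an angle with the tangent vector. -/
def Phase (i : ZMod n) : Set (ℝ × ℝ) := Ioo 0 (Y.len i) ×ˢ Ioo 0 Real.pi

/-- The unit vector of the phase point `(i, s, θ)`. -/
noncomputable def dir (z : ZMod n × ℝ × ℝ) : ℂ := Y.tan z.1 z.2.1 * exp (I * (z.2.2 : ℝ))

/-- The direction of the incoming ray which is reflected into the phase point `(i, s, θ)` by the
law of equal angles. -/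
noncomputable def dirIn (z : ZMod n × ℝ × ℝ) : ℂ := Y.tan z.1 z.2.1 * exp (-(I * (z.2.2 : ℝ)))

/-- The interior of the table: the points in the interior of the polygon and outside of the
closed discs of the dispersive sides. -/
def inside (x : ℂ) : Prop :=
  (∀ i, 0 < cr (Y.e i) (x - Y.p i)) ∧ ∀ k ∈ Y.D, Y.ρ k < ‖x - Y.c k‖

/-- The billiard map as a relation: `Hit z z'` means that the ray of the phase point `z` runs
through the interior of the table until it hits the boundary (not at a corner and not
tangentially), and that it is reflected there into the phase point `z'`. -/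
def Hit (z z' : ZMod n × ℝ × ℝ) : Prop :=
  z.2 ∈ Y.Phase z.1 ∧ z'.2 ∈ Y.Phase z'.1 ∧ ∃ t : ℝ, 0 < t ∧
    Y.pos z'.1 z'.2.1 = Y.pos z.1 z.2.1 + t * Y.dir z ∧ Y.dirIn z' = Y.dir z ∧
    ∀ u ∈ Ioo 0 t, Y.inside (Y.pos z.1 z.2.1 + u * Y.dir z)

/-- `IsDeriv z z' A`: the billiard map sends `z` to `z'`, it is given near `z` by a function `F`
of `(s, θ)` with values on the component of `z'`, and `A` is the derivative of `F` at `z`. -/
def IsDeriv (z z' : ZMod n × ℝ × ℝ) (A : ℝ × ℝ →L[ℝ] ℝ × ℝ) : Prop :=
  ∃ F : ℝ × ℝ → ℝ × ℝ, F z.2 = z'.2 ∧ HasFDerivAt F A z.2 ∧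
    ∀ᶠ w in 𝓝 z.2, Y.Hit (z.1, w) (z'.1, F w)

/-- `Iter k z z' A`: the `k`-th iterate of the billiard map sends `z` to `z'` and has the
derivative `A` there. -/
def Iter : ℕ → ZMod n × ℝ × ℝ → ZMod n × ℝ × ℝ → (ℝ × ℝ →L[ℝ] ℝ × ℝ) → Prop
  | 0, z, z', A => z' = z ∧ A = ContinuousLinearMap.id ℝ (ℝ × ℝ)
  | k + 1, z, z', A => ∃ y B C, Y.IsDeriv z y B ∧ Iter k y z' C ∧ A = C.comp B

end Table

/-- The closed cone `{a x + b y : a b ≥ 0}` bounded by the lines of the vectors `x` and `y`. -/
def cone (x y : ℝ × ℝ) : Set (ℝ × ℝ) := {v | ∃ a b : ℝ, 0 ≤ a * b ∧ v = a • x + b • y}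

/-- The table is hyperbolic: its billiard map has an invariant cone field.  The cone at `z` is
bounded by the lines of the linearly independent vectors `x z`, `y z`, which depend measurably
on `z`.  Almost every phase point (for `ds dθ`, equivalently for `sin θ ds dθ`) has an image
under the billiard map; the derivative maps the cone into the cone at the image; and the
derivative of some iterate maps the cone, apart from the zero vector, into the interior of the
cone at the image. -/
def Table.Hyperbolic {n : ℕ} (Y : Table n) : Prop :=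
  ∃ x y : ZMod n × ℝ × ℝ → ℝ × ℝ,
    (∀ i, Measurable fun w => x (i, w)) ∧ (∀ i, Measurable fun w => y (i, w)) ∧
    (∀ z, (x z).1 * (y z).2 - (x z).2 * (y z).1 ≠ 0) ∧
    ∀ i, ∀ᵐ w : ℝ × ℝ, w ∈ Y.Phase i →
      (∃ z' A, Y.IsDeriv (i, w) z' A) ∧
      (∀ z' A, Y.IsDeriv (i, w) z' A →
        ∀ v ∈ cone (x (i, w)) (y (i, w)), A v ∈ cone (x z') (y z')) ∧
      ∃ k z' A, Y.Iter k (i, w) z' A ∧
        ∀ v ∈ cone (x (i, w)) (y (i, w)), v ≠ 0 → A v ∈ interior (cone (x z') (y z'))

end Pool.Agent.Lib.MP_19d7db_an
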