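import Pool.Agent.Lib.MP_19d7db_an.HitLocal

/-!
# Almost every phase point has an image under the billiard map
-/

open Complex Set Filter Topology MeasureTheory

namespace Pool.Agent.Lib.MP_19d7db_an

lemma continuous_cr {X : Type*} [TopologicalSpace X] {g h : X → ℂ} (hg : Continuous g)
    (hh : Continuous h) : Continuous fun x => cr (g x) (h x) := by
  unfold cr
  exact ((Complex.continuous_re.comp hg).mul (Complex.continuous_im.comp hh)).sub
    ((Complex.continuous_im.comp hg).mul (Complex.continuous_re.comp hh))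

lemma countable_sin (ψ r : ℝ) : {θ : ℝ | Real.sin (ψ - θ) = r}.Countable := by
  rcases Set.eq_empty_or_nonempty {θ : ℝ | Real.sin (ψ - θ) = r} with h | ⟨θ₀, h₀⟩
  · rw [h]; exact Set.countable_empty
  · apply Set.Countable.mono (s₂ := (Set.range fun k : ℤ => ψ - (2 * k * Real.pi + (ψ - θ₀))) ∪
      Set.range fun k : ℤ => ψ - ((2 * k + 1) * Real.pi - (ψ - θ₀)))
    · intro θ hθ
      have h1 : Real.sin (ψ - θ₀) = Real.sin (ψ - θ) := by
        rw [Set.mem_setOf_eq] at hθ h₀; rw [hθ, h₀]
      rw [Real.sin_eq_sin_iff] at h1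
      obtain ⟨k, hk | hk⟩ := h1
      · left; exact ⟨k, by simp only; rw [← hk]; ring⟩
      · right; exact ⟨k, by simp only; rw [← hk]; ring⟩
    · exact (Set.countable_range _).union (Set.countable_range _)

lemma null_cr {T z : ℂ} (hT : ‖T‖ = 1) (hz : z ≠ 0) (r : ℝ) :
    volume {θ : ℝ | cr (T * exp (I * θ)) z = r} = 0 := by
  apply Set.Countable.measure_zero
  have hT0 : T ≠ 0 := by rw [← norm_pos_iff, hT]; norm_num
  set ψ := Complex.arg (z / T) with hψ
  have h1 : z / T = ‖z‖ * exp (ψ * I) := by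
    have := Complex.norm_mul_exp_arg_mul_I (z / T)
    rw [norm_div, hT, div_one] at this
    exact this.symm
  have h2 : z = T * (‖z‖ * exp (ψ * I)) := by rw [← h1]; field_simp
  have h3 : ∀ θ : ℝ, cr (T * exp (I * θ)) z = ‖z‖ * Real.sin (ψ - θ) := by
    intro θ
    have h4 : T * exp (I * θ) = T * exp (θ * I) := by rw [mul_comm I]
    have h5 : cr (T * exp (θ * I)) z = ‖T‖ ^ 2 * cr (exp (θ * I)) (‖z‖ * exp (ψ * I)) := by
      rw [← dt_self]
      conv_lhs => rw [h2]
      simp only [cr, dt, mul_re, mul_im]; ring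
    rw [h4, h5, hT, cr_smul_right, Real.sin_sub]
    simp only [cr, Complex.exp_ofReal_mul_I_re, Complex.exp_ofReal_mul_I_im]
    ring
  have hz' : ‖z‖ ≠ 0 := norm_ne_zero_iff.2 hz
  apply (countable_sin ψ (r / ‖z‖)).mono
  intro θ hθ
  rw [Set.mem_setOf_eq] at hθ ⊢
  rw [h3] at hθ
  field_simp
  linarith

variable {n : ℕ}

namespace Good

variable {Y : Table n} {δ C η : ℝ} (hg : Good Y δ C η)

include hg

omit hg in
lemma f_def (m : ZMod n) (x : ℂ) : Y.f m x = cr (Y.e m) (x - Y.p m) := rfl

omit hg in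
lemma continuous_f (m : ZMod n) : Continuous (Y.f m) :=
  continuous_cr continuous_const (continuous_id.sub continuous_const)

omit hg in
lemma isOpen_inside [NeZero n] : IsOpen {x : ℂ | Y.inside x} := by
  have : {x : ℂ | Y.inside x} = (⋂ m, {x | 0 < Y.f m x}) ∩
      ⋂ k, {x | k ∈ Y.D → Y.ρ k < ‖x - Y.c k‖} := by
    ext x; simp only [Table.inside, Set.mem_setOf_eq, Set.mem_inter_iff, Set.mem_iInter, f_def]
  rw [this]
  apply IsOpen.inter
  · exact isOpen_iInter_of_finite fun m => isOpen_lt continuous_const (continuous_f m)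
  · apply isOpen_iInter_of_finite
    intro k
    by_cases hk : k ∈ Y.D
    · simp only [hk, true_imp_iff]
      exact isOpen_lt continuous_const (by fun_prop)
    · simp only [hk, false_imp_iff, Set.setOf_true]; exact isOpen_univ

lemma inside_near [NeZero n] {i : ZMod n} {w : ℝ × ℝ} (hw : w ∈ Y.Phase i) :
    ∀ᶠ u : ℝ in 𝓝[>] 0, Y.inside (Y.pos i w.1 + u * Y.dir (i, w)) := by
  have hu : ∀ᶠ u : ℝ in 𝓝[>] 0, 0 < u := eventually_mem_nhdsWithin
  have hcont : Continuous fun u : ℝ => Y.pos i w.1 + u * Y.dir (i, w) := by fun_prop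
  have h0 : Y.pos i w.1 + ((0 : ℝ) : ℂ) * Y.dir (i, w) = Y.pos i w.1 := by simp
  have h1 : ∀ᶠ u : ℝ in 𝓝[>] 0, ∀ m, 0 < Y.f m (Y.pos i w.1 + u * Y.dir (i, w)) := by
    rw [eventually_all]
    intro m
    by_cases hm : 0 < Y.f m (Y.pos i w.1)
    · have hc : ContinuousAt (fun u : ℝ => Y.f m (Y.pos i w.1 + u * Y.dir (i, w))) 0 :=
        ((continuous_f m).comp hcont).continuousAt
      have : ∀ᶠ u : ℝ in 𝓝 0, 0 < Y.f m (Y.pos i w.1 + u * Y.dir (i, w)) := by
        apply hc.tendsto.eventually (lt_mem_nhds _)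
        rw [h0]; exact hm
      exact this.filter_mono nhdsWithin_le_nhds
    · have hmi : m = i := by
        by_contra hne; exact hm (hg.f_pos_other hw.1 hne)
      have hi : i ∉ Y.D := by
        intro hi; rw [hmi] at hm; exact hm (hg.f_pos_D hw.1 hi)
      filter_upwards [hu] with u hu
      rw [Y.f_add, hmi, hg.f_pos_N hw.1 hi, hg.cr_e_eq hi w.1, hg.cr_tan_dir]
      have := hg.ell_pos i
      have := hg.sin_pos_of_phase hw
      positivity
  have h2 : ∀ᶠ u : ℝ in 𝓝[>] 0, ∀ k, k ∈ Y.D →
      Y.ρ k < ‖Y.pos i w.1 + u * Y.dir (i, w) - Y.c k‖ := by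
    rw [eventually_all]
    intro k
    by_cases hk : k ∈ Y.D
    swap
    · exact Eventually.of_forall fun u hk' => absurd hk' hk
    by_cases hki : k = i
    · subst hki
      filter_upwards [hu] with u hu _
      exact hg.leave_ball hk hw hu
    · have hc : ContinuousAt (fun u : ℝ => ‖Y.pos i w.1 + u * Y.dir (i, w) - Y.c k‖) 0 :=
        ((hcont.sub continuous_const).norm).continuousAt
      have : ∀ᶠ u : ℝ in 𝓝 0, Y.ρ k < ‖Y.pos i w.1 + u * Y.dir (i, w) - Y.c k‖ := by
        apply hc.tendsto.eventually (lt_mem_nhds _)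
        rw [h0]; exact hg.ball_other hw.1 hk hki
      filter_upwards [this.filter_mono nhdsWithin_le_nhds] with u hu _
      exact hu
  filter_upwards [h1, h2] with u h1 h2
  exact ⟨h1, h2⟩

/-- Existence of the next collision of a ray which avoids the corners and is not tangent to
the circles. -/
lemma exists_hit [NeZero n] {i : ZMod n} {w : ℝ × ℝ} (hw : w ∈ Y.Phase i)
    (hv : ∀ a, cr (Y.dir (i, w)) (Y.p a - Y.pos i w.1) ≠ 0)
    (hc : ∀ k ∈ Y.D, cr (Y.dir (i, w)) (Y.c k - Y.pos i w.1) ^ 2 ≠ Y.ρ k ^ 2) :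
    ∃ j w', Y.Hit (i, w) (j, w') := by
  obtain ⟨d, hd0, hd⟩ := hg.exists_diam
  set q := Y.pos i w.1 with hq
  set v := Y.dir (i, w) with hvd
  have hv1 : ‖v‖ = 1 := hg.norm_dir _
  have hnear := hg.inside_near hw
  rw [← hq, ← hvd] at hnear
  obtain ⟨ε, hε, hεin⟩ := mem_nhdsGT_iff_exists_Ioo_subset.1 hnear
  have hε0 : 0 < ε := hε
  have hcont : Continuous fun u : ℝ => q + u * v := by fun_prop
  have hfar : ∀ u : ℝ, d < u → ¬ Y.inside (q + u * v) := by
    intro u hu hin
    have h1 := hd (q + u * v) q (fun m => (hin.1 m).le) (fun m => hg.f_nonneg hw.1)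
    have h2 : q + u * v - q = u * v := by ring
    rw [h2, norm_mul, hv1, Complex.norm_real, Real.norm_eq_abs, mul_one] at h1
    have := le_abs_self u
    linarith
  set S : Set ℝ := {u | ε / 2 ≤ u ∧ ¬ Y.inside (q + u * v)} with hS
  have hSc : IsClosed S := by
    have h1 : IsClosed {u : ℝ | ¬ Y.inside (q + u * v)} := by
      have : {u : ℝ | ¬ Y.inside (q + u * v)} =
        (fun u : ℝ => q + u * v) ⁻¹' {x : ℂ | Y.inside x}ᶜ := rfl
      rw [this]
      exact (isOpen_inside.isClosed_compl).preimage hcont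
    exact (isClosed_le continuous_const continuous_id).inter h1
  have hSn : S.Nonempty := ⟨d + ε, by simp only [hS, Set.mem_setOf_eq]; constructor
                                      · linarith
                                      · exact hfar _ (by linarith)⟩
  have hSb : BddBelow S := ⟨ε / 2, fun u hu => hu.1⟩
  set t := sInf S with ht
  have htS : t ∈ S := hSc.csInf_mem hSn hSb
  have ht0 : 0 < t := by have := htS.1; linarith
  have hin : ∀ u ∈ Ioo 0 t, Y.inside (q + u * v) := by
    intro u hu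
    by_cases h1 : u < ε
    · exact hεin ⟨hu.1, h1⟩
    · by_contra h2
      have : u ∈ S := ⟨by linarith, h2⟩
      have := csInf_le hSb this
      linarith [hu.2]
  -- limit at `t`
  have htcl : t ∈ closure (Ioo 0 t) := by
    rw [closure_Ioo ht0.ne]; exact ⟨ht0.le, le_rfl⟩
  have hft : ∀ m, 0 ≤ Y.f m (q + t * v) := by
    intro m
    have h1 : IsClosed {u : ℝ | 0 ≤ Y.f m (q + u * v)} :=
      isClosed_le continuous_const ((continuous_f m).comp hcont)
    exact closure_minimal (fun u hu => ((hin u hu).1 m).le) h1 htcl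
  have hGt : ∀ k ∈ Y.D, Y.ρ k ≤ ‖q + t * v - Y.c k‖ := by
    intro k hk
    have h1 : IsClosed {u : ℝ | Y.ρ k ≤ ‖q + u * v - Y.c k‖} :=
      isClosed_le continuous_const ((hcont.sub continuous_const).norm)
    exact closure_minimal (fun u hu => ((hin u hu).2 k hk).le) h1 htcl
  have hb : (∃ m, Y.f m (q + t * v) = 0) ∨ ∃ k ∈ Y.D, ‖q + t * v - Y.c k‖ = Y.ρ k := by
    by_contra hcon
    push Not at hcon
    apply htS.2
    refine ⟨fun m => lt_of_le_of_ne (hft m) (Ne.symm (hcon.1 m)), fun k hk => ?_⟩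
    exact lt_of_le_of_ne (hGt k hk) (Ne.symm (hcon.2 k hk))
  rcases hg.classify hft hGt hb with ⟨a, ha⟩ | ⟨j, s, hs, hx⟩
  · exfalso
    apply hv a
    have : Y.p a - q = t * v := by rw [← ha]; ring
    rw [this, cr_smul_right, cr_self, mul_zero]
  -- transversality
  have hneg : cr (Y.tan j s) v < 0 := by
    by_cases hj : j ∈ Y.D
    · have h1 : ∀ r ∈ Ioo 0 t, dt v (q + t * v - Y.c j) < r / 2 := by
        intro r hr
        have h2 := (hin (t - r) ⟨by linarith [hr.2], by linarith [hr.1]⟩).2 j hj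
        have h3 : q + ((t - r : ℝ) : ℂ) * v - Y.c j =
            (q + t * v) + ((-r : ℝ) : ℂ) * v - Y.c j := by push_cast; ring
        have h4 := hg.sq_expand (q + t * v) v (Y.c j) (-r) hv1
        rw [← h3] at h4
        have h5 : ‖q + t * v - Y.c j‖ = Y.ρ j := by rw [hx, hg.norm_pos_sub_c hj]
        rw [h5] at h4
        have h6 : Y.ρ j ^ 2 < ‖q + ((t - r : ℝ) : ℂ) * v - Y.c j‖ ^ 2 := by
          have := hg.rho_pos hj
          nlinarith
        rw [h4] at h6
        have hr0 := hr.1
        by_contra hcon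
        push Not at hcon
        nlinarith
      have h2 : dt v (q + t * v - Y.c j) ≤ 0 := by
        by_contra hcon
        push Not at hcon
        set x := dt v (q + t * v - Y.c j)
        have h3 := h1 (min x (t / 2)) ⟨lt_min hcon (by linarith), by
          have := min_le_right x (t / 2); linarith⟩
        have := min_le_left x (t / 2)
        linarith
      have h3 : dt v (q + t * v - Y.c j) ≠ 0 := by
        intro h0
        apply hc j hj
        have h4 := cr_sq_add_dt_sq v (q + t * v - Y.c j)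
        rw [h0, hv1] at h4
        have h5 : ‖q + t * v - Y.c j‖ = Y.ρ j := by rw [hx, hg.norm_pos_sub_c hj]
        rw [h5] at h4
        have h6 : cr v (Y.c j - q) = -cr v (q + t * v - Y.c j) := by
          have : Y.c j - q = ((t : ℝ) : ℂ) * v - (q + t * v - Y.c j) := by ring
          rw [this, cr_sub_right, cr_smul_right, cr_self]; ring
        rw [h6]
        linarith
      have h4 : dt v (q + t * v - Y.c j) = Y.ρ j * cr (Y.tan j s) v := by
        rw [hx, pos_sub_c hj, dt_smul_right, dt_I_right]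
      have h5 := hg.rho_pos hj
      have h6 : dt v (q + t * v - Y.c j) < 0 := lt_of_le_of_ne h2 h3
      rw [h4] at h6
      by_contra hcon
      push Not at hcon
      have := mul_nonneg h5.le hcon
      linarith
    · have h1 : Y.f j (q + t * v) = 0 := by rw [hx]; exact hg.f_pos_N hs hj
      have h2 := (hin (t / 2) ⟨by linarith, by linarith⟩).1 j
      change 0 < Y.f j _ at h2
      rw [Y.f_add] at h1 h2
      rw [hg.cr_e_eq hj s] at h1 h2
      have h3 := hg.ell_pos j
      by_contra hcon
      push Not at hcon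
      have := mul_nonneg h3.le hcon
      nlinarith
  -- the angle of incidence
  have hT1 : ‖Y.tan j s‖ = 1 := hg.norm_tan j s
  have hT0 : Y.tan j s ≠ 0 := by rw [← norm_pos_iff, hT1]; norm_num
  set z := v / Y.tan j s with hz
  have hvz : v = Y.tan j s * z := by rw [hz]; field_simp
  have hz1 : ‖z‖ = 1 := by rw [hz, norm_div, hv1, hT1, div_one]
  have hzim : z.im < 0 := by
    rw [hvz, cr_mul_left, hT1] at hneg
    linarith
  have harg : Complex.arg z < 0 := Complex.arg_neg_iff.2 hzim
  have harg' : -Real.pi < Complex.arg z := Complex.neg_pi_lt_arg z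
  have hzexp : z = exp (Complex.arg z * I) := by
    have := Complex.norm_mul_exp_arg_mul_I z
    rw [hz1, ofReal_one, one_mul] at this
    exact this.symm
  refine ⟨j, (s, -Complex.arg z), hw, ⟨hs, ?_, ?_⟩, t, ht0, ?_, ?_, ?_⟩
  · simp only; linarith
  · simp only; linarith
  · simp only; rw [← hx]
  · rw [Table.dirIn]
    simp only
    rw [← hvd, hvz]
    congr 1
    conv_rhs => rw [hzexp]
    congr 1
    push_cast; ring
  · exact hin

/-- Almost every phase point has an image. -/
theorem ae_exists_hit [NeZero n] (i : ZMod n) :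
    ∀ᵐ w : ℝ × ℝ, w ∈ Y.Phase i → ∃ j w', Y.Hit (i, w) (j, w') := by
  have hPm : MeasurableSet (Y.Phase i) := (isOpen_phase i).measurableSet
  have hcP : Continuous fun w : ℝ × ℝ => Y.pos i w.1 := (hg.continuous_pos i).comp continuous_fst
  have hcd : Continuous fun w : ℝ × ℝ => Y.dir (i, w) := continuous_dir i
  have key : ∀ (z : ℂ) (r : ℝ), (∀ s ∈ Ioo 0 (Y.len i), z ≠ Y.pos i s) →
      volume {w : ℝ × ℝ | w ∈ Y.Phase i ∧ cr (Y.dir (i, w)) (z - Y.pos i w.1) = r} = 0 := by
    intro z r hz
    have hm : MeasurableSet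
        {w : ℝ × ℝ | w ∈ Y.Phase i ∧ cr (Y.dir (i, w)) (z - Y.pos i w.1) = r} := by
      apply hPm.inter
      exact (isClosed_eq (continuous_cr hcd (continuous_const.sub hcP))
        continuous_const).measurableSet
    rw [Measure.volume_eq_prod, Measure.measure_prod_null hm]
    apply Eventually.of_forall
    intro s
    simp only [Pi.zero_apply]
    by_cases hs : s ∈ Ioo 0 (Y.len i)
    · have h1 := null_cr (hg.norm_tan i s) (sub_ne_zero.2 (hz s hs)) r
      apply measure_mono_null _ h1
      intro θ hθ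
      exact hθ.2
    · convert measure_empty (μ := (volume : Measure ℝ))
      ext θ
      simp only [Set.mem_preimage, Set.mem_setOf_eq, Set.mem_empty_iff_false, iff_false]
      intro h
      exact hs h.1.1
  have h1 : ∀ a, ∀ᵐ w : ℝ × ℝ, w ∈ Y.Phase i → cr (Y.dir (i, w)) (Y.p a - Y.pos i w.1) ≠ 0 := by
    intro a
    rw [ae_iff]
    convert key (Y.p a) 0 (fun s hs h => hg.pos_ne_vertex hs h.symm) using 2
    ext w
    simp only [Set.mem_setOf_eq, Classical.not_imp, not_not]
  have h2 : ∀ k, ∀ᵐ w : ℝ × ℝ, w ∈ Y.Phase i → k ∈ Y.D →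
      cr (Y.dir (i, w)) (Y.c k - Y.pos i w.1) ^ 2 ≠ Y.ρ k ^ 2 := by
    intro k
    by_cases hk : k ∈ Y.D
    swap
    · exact Eventually.of_forall fun w _ hk' => absurd hk' hk
    have hz : ∀ s ∈ Ioo 0 (Y.len i), Y.c k ≠ Y.pos i s := by
      intro s hs h
      have hρ := hg.rho_pos hk
      by_cases hki : k = i
      · subst hki
        have := hg.norm_pos_sub_c hk s
        rw [← h, sub_self, norm_zero] at this
        linarith
      · have := hg.ball_other hs hk hki
        rw [← h, sub_self, norm_zero] at this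
        linarith
    have k1 := key (Y.c k) (Y.ρ k) hz
    have k2 := key (Y.c k) (-Y.ρ k) hz
    rw [ae_iff]
    apply measure_mono_null _ (measure_union_null k1 k2)
    intro w hw
    simp only [Set.mem_setOf_eq, Classical.not_imp, not_not] at hw
    obtain ⟨hw1, -, hw2⟩ := hw
    rcases sq_eq_sq_iff_eq_or_eq_neg.1 hw2 with h | h
    · left; exact ⟨hw1, h⟩
    · right; exact ⟨hw1, h⟩
  rw [← ae_all_iff] at h1 h2
  filter_upwards [h1, h2] with w h1 h2 hw
  exact hg.exists_hit hw (fun a => h1 a hw) (fun k hk => h2 k hw hk)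

end Good

end Pool.Agent.Lib.MP_19d7db_an
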