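import Pool.Agent.Lib.MP_19d7db_an.Exist

/-!
# Neutral chains: consecutive survivors have the same code
-/

open Complex Set Filter Topology MeasureTheory

namespace Pool.Agent.Lib.MP_19d7db_an

variable {n : ℕ}

/-- `Path L z`: the orbit of `z` starts on a neutral side and then hits the neutral sides of the
list `L`. -/
def Path (Y : Table n) : List (ZMod n) → ZMod n × ℝ × ℝ → Prop
  | [], z => z.1 ∉ Y.D
  | j :: L, z => z.1 ∉ Y.D ∧ ∃ w', Y.Hit z (j, w') ∧ Path Y L (j, w')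

lemma Path.neutral {Y : Table n} {L : List (ZMod n)} {z : ZMod n × ℝ × ℝ} (h : Path Y L z) :
    z.1 ∉ Y.D := by
  cases L with
  | nil => exact h
  | cons j L => exact h.1

namespace Good

variable {Y : Table n} {δ C η : ℝ} (hg : Good Y δ C η)

include hg

lemma dir_reflect {j : ZMod n} (hj : j ∉ Y.D) (w : ℝ × ℝ) :
    Y.dir (j, w) = (Y.e j / Y.ℓ j) ^ 2 * (starRingEnd ℂ) (Y.dirIn (j, w)) := by
  have h1 : (starRingEnd ℂ) (Y.e j / Y.ℓ j) * (Y.e j / Y.ℓ j) = 1 := by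
    rw [mul_comm, Complex.mul_conj, Complex.normSq_eq_norm_sq, hg.norm_unit]; norm_num
  rw [Table.dir, Table.dirIn, hg.tan_N hj]
  simp only [map_mul, ← Complex.exp_conj, map_neg, Complex.conj_I, Complex.conj_ofReal, neg_mul,
    neg_neg]
  linear_combination (-(Y.e j / Y.ℓ j) * cexp (I * (w.2 : ℂ))) * h1

lemma cr_reflect {j : ZMod n} (hj : j ∉ Y.D) (w w' : ℝ × ℝ) :
    cr (Y.dir (j, w)) (Y.dir (j, w')) = -cr (Y.dirIn (j, w)) (Y.dirIn (j, w')) := by
  rw [hg.dir_reflect hj, hg.dir_reflect hj]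
  have h1 : dt (Y.e j / Y.ℓ j) (Y.e j / Y.ℓ j) = 1 := by rw [dt_self, hg.norm_unit]; norm_num
  set T := Y.e j / Y.ℓ j
  set a := Y.dirIn (j, w)
  set b := Y.dirIn (j, w')
  have h2 : ∀ x y : ℂ, cr (T ^ 2 * x) (T ^ 2 * y) = (dt T T) ^ 2 * cr x y := by
    intro x y; simp only [cr, dt, mul_re, mul_im, pow_two]; ring
  rw [h2, h1]
  simp only [cr, Complex.conj_re, Complex.conj_im]; ring

lemma dt_reflect {j : ZMod n} (hj : j ∉ Y.D) (w w' : ℝ × ℝ) :
    dt (Y.dir (j, w)) (Y.dir (j, w')) = dt (Y.dirIn (j, w)) (Y.dirIn (j, w')) := by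
  rw [hg.dir_reflect hj, hg.dir_reflect hj]
  have h1 : dt (Y.e j / Y.ℓ j) (Y.e j / Y.ℓ j) = 1 := by rw [dt_self, hg.norm_unit]; norm_num
  set T := Y.e j / Y.ℓ j
  set a := Y.dirIn (j, w)
  set b := Y.dirIn (j, w')
  have h2 : ∀ x y : ℂ, dt (T ^ 2 * x) (T ^ 2 * y) = (dt T T) ^ 2 * dt x y := by
    intro x y; simp only [dt, mul_re, mul_im, pow_two]; ring
  rw [h2, h1]
  simp only [dt, Complex.conj_re, Complex.conj_im]; ring

/-- The apex of a fan is reflected into one apex. -/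
lemma apex_reflect {j : ZMod n} (hj : j ∉ Y.D) {w w' : ℝ × ℝ} {a b : ℝ}
    (h : Y.pos j w.1 - a * Y.dirIn (j, w) = Y.pos j w'.1 - b * Y.dirIn (j, w')) :
    Y.pos j w.1 - a * Y.dir (j, w) = Y.pos j w'.1 - b * Y.dir (j, w') := by
  rw [hg.dir_reflect hj, hg.dir_reflect hj]
  have h1 : (starRingEnd ℂ) (Y.e j / Y.ℓ j) * (Y.e j / Y.ℓ j) = 1 := by
    rw [mul_comm, Complex.mul_conj, Complex.normSq_eq_norm_sq, hg.norm_unit]; norm_num
  rw [Y.pos_N hj, Y.pos_N hj] at h ⊢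
  set T := Y.e j / Y.ℓ j
  set x := Y.dirIn (j, w)
  set y := Y.dirIn (j, w')
  have h2 : (w.1 : ℂ) * T - w'.1 * T = a * x - b * y := by linear_combination h
  have h3 := congrArg (starRingEnd ℂ) h2
  simp only [map_sub, map_mul, Complex.conj_ofReal] at h3
  linear_combination (T ^ 2) * h3 - ((w.1 : ℂ) - w'.1) * T * h1

/-- A line through the table meets the polygon only in its chord. -/
lemma chord {i j : ZMod n} {w w1 : ℝ × ℝ} {τ r : ℝ} (hi : i ∉ Y.D) (hj : j ∉ Y.D)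
    (hw : w ∈ Y.Phase i) (hw1 : w1 ∈ Y.Phase j)
    (hpos : Y.pos j w1.1 = Y.pos i w.1 + τ * Y.dir (i, w))
    (hdir : Y.dirIn (j, w1) = Y.dir (i, w))
    (hP : ∀ m, 0 ≤ Y.f m (Y.pos i w.1 + r * Y.dir (i, w))) : 0 ≤ r ∧ r ≤ τ := by
  have h1 := hP i
  have h2 := hP j
  rw [Y.f_add, hg.f_pos_N hw.1 hi, hg.cr_e_eq hi w.1, hg.cr_tan_dir] at h1
  have h3 := hg.f_pos_N hw1.1 hj
  rw [hpos, Y.f_add, ← hdir, hg.cr_e_eq hj w1.1, hg.cr_tan_dirIn] at h3
  rw [Y.f_add, ← hdir, hg.cr_e_eq hj w1.1, hg.cr_tan_dirIn] at h2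
  have hli := hg.ell_pos i
  have hlj := hg.ell_pos j
  have hsi := hg.sin_pos_of_phase hw
  have hsj := hg.sin_pos_of_phase hw1
  have a1 := mul_pos hli hsi
  have a2 := mul_pos hlj hsj
  constructor
  · by_contra hcon
    push Not at hcon
    nlinarith
  · by_contra hcon
    push Not at hcon
    nlinarith

lemma vertex_mem_ball {k : ZMod n} (hk : k ∈ Y.D) : ‖Y.p k - Y.c k‖ ≤ Y.ρ k := by
  have h := hg.norm_sub_c hk 0 0
  have h1 : Y.p k + (((0 : ℝ) : ℂ) + ((0 : ℝ) : ℂ) * I) * Y.e k - Y.c k = Y.p k - Y.c k := by simp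
  rw [h1] at h
  have h2 : ‖Y.p k - Y.c k‖ ^ 2 = Y.ρ k ^ 2 := by rw [h]; ring
  exact (pow_left_inj₀ (norm_nonneg _) (hg.rho_pos hk).le two_ne_zero).1 h2 |>.le

lemma vertex_mem_ball' {k : ZMod n} (hk : k ∈ Y.D) : ‖Y.p (k + 1) - Y.c k‖ ≤ Y.ρ k := by
  have h := hg.norm_sub_c hk 1 0
  have hp : Y.p (k + 1) = Y.p k + Y.e k := by simp [Table.e]
  have h1 : Y.p k + (((1 : ℝ) : ℂ) + ((0 : ℝ) : ℂ) * I) * Y.e k - Y.c k =
      Y.p (k + 1) - Y.c k := by rw [hp]; simp
  rw [h1] at h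
  have h2 : ‖Y.p (k + 1) - Y.c k‖ ^ 2 = Y.ρ k ^ 2 := by rw [h]; ring
  exact (pow_left_inj₀ (norm_nonneg _) (hg.rho_pos hk).le two_ne_zero).1 h2 |>.le

/-- The lens of a dispersive side has positive width in all directions. -/
lemma exists_width [NeZero n] : ∃ c, 0 < c ∧ ∀ k ∈ Y.D, ∃ M : ℂ, (∀ m, 0 ≤ Y.f m M) ∧
    ‖M - Y.c k‖ ≤ Y.ρ k ∧ ∀ v : ℂ, ‖v‖ = 1 →
      c ≤ |cr v (Y.p (k + 1) - Y.p k)| ∨ c ≤ |cr v (M - Y.p k)| := by
  have key : ∀ k : ZMod n, ∃ c, 0 < c ∧ (k ∈ Y.D → ∃ M : ℂ, (∀ m, 0 ≤ Y.f m M) ∧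
      ‖M - Y.c k‖ ≤ Y.ρ k ∧ ∀ v : ℂ, ‖v‖ = 1 →
        c ≤ |cr v (Y.p (k + 1) - Y.p k)| ∨ c ≤ |cr v (M - Y.p k)|) := by
    intro k
    by_cases hk : k ∈ Y.D
    swap
    · exact ⟨1, one_pos, fun h => absurd h hk⟩
    have hl := hg.len_pos k
    have hs : Y.len k / 2 ∈ Ioo 0 (Y.len k) := ⟨by linarith, by linarith⟩
    set M := Y.pos k (Y.len k / 2) with hM
    have hF : 0 < Y.f k M := hg.f_pos_D hs hk
    have hℓ := hg.ell_pos k
    refine ⟨Y.f k M / (Y.ℓ k + ‖M - Y.p k‖ + 1), by positivity, fun _ =>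
      ⟨M, fun m => hg.f_nonneg hs, (hg.norm_pos_sub_c hk _).le, ?_⟩⟩
    intro v hv
    by_contra hcon
    push Not at hcon
    obtain ⟨h1, h2⟩ := hcon
    have he : Y.p (k + 1) - Y.p k = Y.e k := rfl
    rw [he] at h1
    set c := Y.f k M / (Y.ℓ k + ‖M - Y.p k‖ + 1) with hc
    have hc0 : 0 < c := by positivity
    have h3 : Y.f k M = cr v (M - Y.p k) * dt v (Y.e k) - cr v (Y.e k) * dt v (M - Y.p k) := by
      have h4 : dt v v = 1 := by rw [dt_self, hv]; norm_num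
      have h5 : Y.f k M = cr (Y.e k) (M - Y.p k) := rfl
      rw [h5]
      simp only [dt] at h4
      simp only [cr, dt]
      linear_combination -((Y.e k).re * (M - Y.p k).im - (Y.e k).im * (M - Y.p k).re) * h4
    have h4 := abs_dt_le v (Y.e k)
    have h5 := abs_dt_le v (M - Y.p k)
    rw [hv, one_mul] at h4 h5
    have h6 : Y.f k M ≤ c * Y.ℓ k + c * ‖M - Y.p k‖ := by
      calc Y.f k M ≤ |Y.f k M| := le_abs_self _
        _ ≤ |cr v (M - Y.p k) * dt v (Y.e k)| + |cr v (Y.e k) * dt v (M - Y.p k)| := by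
            rw [h3]; exact abs_sub _ _
        _ = |cr v (M - Y.p k)| * |dt v (Y.e k)| + |cr v (Y.e k)| * |dt v (M - Y.p k)| := by
            rw [abs_mul, abs_mul]
        _ ≤ c * Y.ℓ k + c * ‖M - Y.p k‖ := by
            apply add_le_add
            · exact mul_le_mul h2.le h4 (abs_nonneg _) hc0.le
            · exact mul_le_mul h1.le h5 (abs_nonneg _) hc0.le
    have h7 : c * (Y.ℓ k + ‖M - Y.p k‖ + 1) = Y.f k M := by
      rw [hc]; field_simp
    nlinarith
  choose c hc0 hc using key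
  refine ⟨Finset.univ.inf' Finset.univ_nonempty c, ?_, ?_⟩
  · rw [Finset.lt_inf'_iff]; exact fun k _ => hc0 k
  · intro k hk
    obtain ⟨M, h1, h2, h3⟩ := hc k hk
    refine ⟨M, h1, h2, fun v hv => ?_⟩
    have h4 : Finset.univ.inf' Finset.univ_nonempty c ≤ c k := Finset.inf'_le _ (Finset.mem_univ k)
    rcases h3 v hv with h | h
    · left; exact h4.trans h
    · right; exact h4.trans h

/-- A convex piece of the obstacle which starts at a point on the left of a chord stays on the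
left. -/
lemma stays_left {i j k : ZMod n} {w w1 : ℝ × ℝ} {τ : ℝ} (hi : i ∉ Y.D) (hj : j ∉ Y.D)
    (hk : k ∈ Y.D) (hw : w ∈ Y.Phase i) (hw1 : w1 ∈ Y.Phase j)
    (hpos : Y.pos j w1.1 = Y.pos i w.1 + τ * Y.dir (i, w))
    (hdir : Y.dirIn (j, w1) = Y.dir (i, w))
    (hin : ∀ u ∈ Ioo 0 τ, Y.inside (Y.pos i w.1 + u * Y.dir (i, w))) {V X : ℂ} {σ : ℝ}
    (hV : ∀ m, 0 ≤ Y.f m V) (hVb : ‖V - Y.c k‖ ≤ Y.ρ k) (hX : ∀ m, 0 ≤ Y.f m X)
    (hXb : ‖X - Y.c k‖ ≤ Y.ρ k) (hpV : 0 < σ * cr (Y.dir (i, w)) (V - Y.pos i w.1)) :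
    0 < σ * cr (Y.dir (i, w)) (X - Y.pos i w.1) := by
  by_contra hcon
  push Not at hcon
  set v := Y.dir (i, w) with hv
  set q := Y.pos i w.1 with hq
  have hv1 : ‖v‖ = 1 := hg.norm_dir _
  set A := σ * cr v (V - q) with hA
  set B := σ * cr v (X - q) with hB
  have hσ : σ ≠ 0 := by intro h; rw [hA, h, zero_mul] at hpV; exact lt_irrefl _ hpV
  set μ := A / (A - B) with hμ
  have hAB : 0 < A - B := by linarith
  have hμ0 : 0 ≤ μ := by positivity
  have hμ1 : μ ≤ 1 := by rw [hμ, div_le_one hAB]; linarith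
  set y : ℂ := V + μ * (X - V) with hy
  have hyf : ∀ m, Y.f m y = (1 - μ) * Y.f m V + μ * Y.f m X := by
    intro m
    simp only [hy, Table.f, cr, sub_re, sub_im, add_re, add_im, mul_re, mul_im, ofReal_re,
      ofReal_im]
    ring
  have hyP : ∀ m, 0 ≤ Y.f m y := by
    intro m; rw [hyf]
    have := mul_nonneg (sub_nonneg.2 hμ1) (hV m)
    have := mul_nonneg hμ0 (hX m)
    linarith
  have hyb : ‖y - Y.c k‖ ≤ Y.ρ k := by
    have h1 : y - Y.c k = ((1 - μ : ℝ) : ℂ) * (V - Y.c k) + (μ : ℂ) * (X - Y.c k) := by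
      rw [hy]; push_cast; ring
    rw [h1]
    refine (norm_add_le _ _).trans ?_
    rw [norm_mul, norm_mul, Complex.norm_real, Complex.norm_real, Real.norm_eq_abs,
      Real.norm_eq_abs, abs_of_nonneg (sub_nonneg.2 hμ1), abs_of_nonneg hμ0]
    nlinarith
  have hy0 : cr v (y - q) = 0 := by
    have h1 : σ * cr v (y - q) = A + μ * (B - A) := by
      simp only [hA, hB, hy, cr, sub_re, sub_im, add_re, add_im, mul_re, mul_im, ofReal_re,
        ofReal_im]
      ring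
    have h2 : A + μ * (B - A) = 0 := by rw [hμ]; field_simp; ring
    rw [h2] at h1
    exact (mul_eq_zero.1 h1).resolve_left hσ
  have h3 := eq_dt_smul hv1 hy0
  set r := dt v (y - q) with hr
  have h4 : y = q + r * v := by rw [← h3]; ring
  have h5 := hg.chord (r := r) hi hj hw hw1 hpos hdir (by
    intro m; rw [← hq, ← hv, ← h4]; exact hyP m)
  have hki : k ≠ i := fun h => hi (h ▸ hk)
  have hkj : k ≠ j := fun h => hj (h ▸ hk)
  have h6 := hg.hit_ball hw hw1 hpos hin k hk hki hkj r h5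
  rw [← hq, ← hv, ← h4] at h6
  linarith

/-- Main geometric step: two close chords with a common apex leave through the same side. -/
lemma exit_same_aux {c d : ℝ}
    (hcw : ∀ k ∈ Y.D, ∃ M : ℂ, (∀ m, 0 ≤ Y.f m M) ∧
      ‖M - Y.c k‖ ≤ Y.ρ k ∧ ∀ v : ℂ, ‖v‖ = 1 →
        c ≤ |cr v (Y.p (k + 1) - Y.p k)| ∨ c ≤ |cr v (M - Y.p k)|)
    (hd : ∀ x y, (∀ m, 0 ≤ Y.f m x) → (∀ m, 0 ≤ Y.f m y) → ‖x - y‖ ≤ d)
    (hadj : ∀ i, i ∈ Y.D ∨ i + 1 ∈ Y.D)
    {i j j' : ZMod n} {w w' w1 w1' : ℝ × ℝ} {t t' Tm : ℝ} (hi : i ∉ Y.D) (hj : j ∉ Y.D)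
    (hj' : j' ∉ Y.D) (h : Y.Hit (i, w) (j, w1)) (h' : Y.Hit (i, w') (j', w1'))
    (hap : Y.pos i w.1 - t * Y.dir (i, w) = Y.pos i w'.1 - t' * Y.dir (i, w'))
    (ht : 0 ≤ t) (htm : t ≤ Tm)
    (hσ : 0 < cr (Y.dir (i, w)) (Y.dir (i, w'))) (hdt : 0 < dt (Y.dir (i, w)) (Y.dir (i, w')))
    (hsm : (Tm + d) * cr (Y.dir (i, w)) (Y.dir (i, w')) ≤ c) : j = j' := by
  by_contra hjj
  have hij := hg.hit_ne h
  have hij' := hg.hit_ne h'
  have hij1 : i ≠ j := fun h => hij ⟨h, hi⟩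
  obtain ⟨hw, hw1, τ, hτ, hpos, hdir, hin⟩ := h
  obtain ⟨hw', hw1', τ', hτ', hpos', hdir', hin'⟩ := h'
  simp only at hw hw1 hpos hdir hin hw' hw1' hpos' hdir' hin'
  set v := Y.dir (i, w) with hv
  set v' := Y.dir (i, w') with hv'
  set q := Y.pos i w.1 with hq
  set q' := Y.pos i w'.1 with hq'
  set Q := q - t * v with hQ
  have hv1 : ‖v‖ = 1 := hg.norm_dir _
  have hv1' : ‖v'‖ = 1 := hg.norm_dir _
  set σ := cr v v' with hσd
  have hk : j + 1 ∈ Y.D := (hadj j).resolve_left hj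
  set k := j + 1 with hkd
  have hℓj := hg.ell_pos j
  have hsj := hg.sin_pos_of_phase hw1
  have hpk : Y.p k = Y.p j + Y.e j := by rw [hkd]; simp [Table.e]
  have hcrQ : ∀ X, cr v (X - q) = cr v (X - Q) := by
    intro X
    have : X - Q = (X - q) + t * v := by rw [hQ]; ring
    rw [this, cr_add_right, cr_smul_right, cr_self]; ring
  have hcrQ' : ∀ X, cr v' (X - q') = cr v' (X - Q) := by
    intro X
    have : X - Q = (X - q') + t' * v' := by rw [hap]; ring
    rw [this, cr_add_right, cr_smul_right, cr_self]; ring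
  have hPx : ∀ m, 0 ≤ Y.f m (Y.pos j w1.1) := fun m => hg.f_nonneg hw1.1
  have hPV : ∀ m, 0 ≤ Y.f m (Y.p k) := fun m => hg.f_vertex_nonneg m k
  -- the end point of the side `j` is on the left of the first line
  have hVx : Y.p k - Y.pos j w1.1 = (((Y.ℓ j - w1.1) / Y.ℓ j : ℝ) : ℂ) * Y.e j := by
    rw [hpk, Y.pos_N hj]
    have : (Y.ℓ j : ℂ) ≠ 0 := by exact_mod_cast hℓj.ne'
    push_cast; field_simp; ring
  have hw1len : w1.1 < Y.ℓ j := by have := hw1.1.2; rwa [Y.len_N hj] at this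
  have hfrac : 0 < (Y.ℓ j - w1.1) / Y.ℓ j := div_pos (by linarith) hℓj
  have hcre : 0 < cr v (Y.e j) := by
    rw [← hdir, cr_comm, hg.cr_e_eq hj w1.1, hg.cr_tan_dirIn]
    have := mul_pos hℓj hsj
    linarith
  have claim1 : 0 < cr v (Y.p k - q) := by
    have h1 : Y.p k - q = (Y.p k - Y.pos j w1.1) + τ * v := by rw [hpos]; ring
    rw [h1, cr_add_right, cr_smul_right, cr_self, hVx, cr_smul_right]
    have := mul_pos hfrac hcre
    linarith
  -- and on the right of the second line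
  have claim2 : cr v' (Y.p k - q') < 0 := by
    by_contra hcon
    push Not at hcon
    set A := cr v' (Y.pos j w1.1 - q') with hA
    set B := cr v' (Y.p k - q') with hB
    have hA0 : A < 0 := by
      rw [hA, hcrQ']
      have h1 : Y.pos j w1.1 - Q = ((t + τ : ℝ) : ℂ) * v := by
        rw [hpos, hQ]; push_cast; ring
      rw [h1, cr_smul_right, cr_comm]
      have : 0 < (t + τ) * σ := mul_pos (by linarith) hσ
      linarith
    have hAB : 0 < B - A := by linarith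
    set μ := -A / (B - A) with hμ
    have hμ0 : 0 < μ := div_pos (by linarith) hAB
    have hμ1 : μ ≤ 1 := by rw [hμ, div_le_one hAB]; linarith
    set y : ℂ := Y.pos j w1.1 + μ * (Y.p k - Y.pos j w1.1) with hy
    have hyf : ∀ m, Y.f m y = (1 - μ) * Y.f m (Y.pos j w1.1) + μ * Y.f m (Y.p k) := by
      intro m
      simp only [hy, Table.f, cr, sub_re, sub_im, add_re, add_im, mul_re, mul_im, ofReal_re,
        ofReal_im]
      ring
    have hyP : ∀ m, 0 ≤ Y.f m y := by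
      intro m; rw [hyf]
      have := mul_nonneg (sub_nonneg.2 hμ1) (hPx m)
      have := mul_nonneg hμ0.le (hPV m)
      linarith
    have hyj : Y.f j y = 0 := by
      rw [hyf, hg.f_pos_N hw1.1 hj, hkd, Y.f_vertex']; ring
    have hy0 : cr v' (y - q') = 0 := by
      have h1 : cr v' (y - q') = A + μ * (B - A) := by
        simp only [hA, hB, hy, cr, sub_re, sub_im, add_re, add_im, mul_re, mul_im, ofReal_re,
          ofReal_im]
        ring
      rw [h1, hμ]; field_simp; ring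
    have h3 := eq_dt_smul hv1' hy0
    set r := dt v' (y - q') with hr
    have h4 : y = q' + r * v' := by rw [← h3]; ring
    have h5 := hg.chord (r := r) hi hj' hw' hw1' hpos' hdir' (by
      intro m; rw [← hq', ← hv', ← h4]; exact hyP m)
    have h6 : Y.f j y = (1 - r / τ') * Y.f j q' + r / τ' * Y.f j (Y.pos j' w1'.1) := by
      rw [h4, hpos', Y.f_add, Y.f_add]; field_simp; ring
    have h7 : 0 < Y.f j q' := hg.f_pos_other hw'.1 (fun h => hij1 h.symm)
    have h8 : 0 < Y.f j (Y.pos j' w1'.1) := hg.f_pos_other hw1'.1 hjj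
    have h9 : 0 ≤ r / τ' := div_nonneg h5.1 hτ'.le
    have h10 : r / τ' ≤ 1 := (div_le_one hτ').2 h5.2
    rw [hyj] at h6
    rcases h9.eq_or_lt with h11 | h11
    · rw [← h11] at h6; linarith
    · have := mul_pos h11 h8
      have := mul_nonneg (sub_nonneg.2 h10) h7.le
      linarith
  -- the whole lens lies between the two lines
  have hVb := hg.vertex_mem_ball hk
  have between : ∀ X, (∀ m, 0 ≤ Y.f m X) → ‖X - Y.c k‖ ≤ Y.ρ k →
      0 < cr v (X - Q) ∧ cr v (X - Q) ≤ c := by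
    intro X hX hXb
    have h1 := hg.stays_left (σ := 1) hi hj hk hw hw1 hpos hdir hin hPV hVb hX hXb
      (by rw [one_mul]; exact claim1)
    have h2 := hg.stays_left (σ := -1) hi hj' hk hw' hw1' hpos' hdir' hin' hPV hVb hX hXb
      (by rw [← hq', ← hv']; linarith)
    rw [← hq, ← hv, one_mul, hcrQ] at h1
    rw [← hq', ← hv', hcrQ'] at h2
    refine ⟨h1, ?_⟩
    set b := cr v (X - Q) / σ with hb
    set a := -cr v' (X - Q) / σ with ha
    have hb0 : 0 < b := div_pos h1 hσ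
    have ha0 : 0 < a := div_pos (by linarith) hσ
    have hXQ : X - Q = a * v + b * v' := by
      have hσ' : σ ≠ 0 := hσ.ne'
      have h3 : (σ : ℂ) * (X - Q) = ((-cr v' (X - Q) : ℝ) : ℂ) * v + (cr v (X - Q) : ℝ) * v' := by
        apply Complex.ext
        · simp only [hσd, cr, mul_re, add_re, ofReal_re, ofReal_im]; ring
        · simp only [hσd, cr, mul_im, add_im, ofReal_re, ofReal_im]; ring
      have hσc : (σ : ℂ) ≠ 0 := by exact_mod_cast hσ'
      rw [ha, hb]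
      push_cast at h3 ⊢
      field_simp
      linear_combination h3
    have h4 : b ^ 2 ≤ ‖X - Q‖ ^ 2 := by
      rw [hXQ, norm_add_sq', norm_mul, norm_mul, hv1, hv1', Complex.norm_real, Complex.norm_real,
        Real.norm_eq_abs, Real.norm_eq_abs, abs_of_pos ha0, abs_of_pos hb0]
      have h5 : dt (a * v) (b * v') = a * b * dt v v' := by
        simp only [dt, mul_re, mul_im, ofReal_re, ofReal_im]; ring
      rw [h5]
      have := mul_pos (mul_pos ha0 hb0) hdt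
      nlinarith
    have h5 : b ≤ ‖X - Q‖ := by
      exact le_of_sq_le_sq h4 (norm_nonneg _) |>.trans le_rfl
    have h6 : ‖X - Q‖ ≤ d + t := by
      have h7 : X - Q = (X - q) + t * v := by rw [hQ]; ring
      rw [h7]
      refine (norm_add_le _ _).trans ?_
      rw [norm_mul, hv1, Complex.norm_real, Real.norm_eq_abs, abs_of_nonneg ht, mul_one]
      have := hd X q hX (fun m => hg.f_nonneg hw.1)
      linarith
    have h7 : cr v (X - Q) = b * σ := by rw [hb]; field_simp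
    rw [h7]
    calc b * σ ≤ (Tm + d) * σ := mul_le_mul_of_nonneg_right (by linarith) hσ.le
      _ ≤ c := hsm
  obtain ⟨M, hMP, hMb, hMw⟩ := hcw k hk
  have b1 := between (Y.p k) hPV hVb
  have b2 := between (Y.p (k + 1)) (fun m => hg.f_vertex_nonneg m _) (hg.vertex_mem_ball' hk)
  have b3 := between M hMP hMb
  rcases hMw v hv1 with h | h
  · have h1 : cr v (Y.p (k + 1) - Y.p k) = cr v (Y.p (k + 1) - Q) - cr v (Y.p k - Q) := by
      rw [← cr_sub_right]; congr 1; ring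
    rw [h1] at h
    rcases le_abs.1 h with h | h <;> linarith
  · have h1 : cr v (M - Y.p k) = cr v (M - Q) - cr v (Y.p k - Q) := by
      rw [← cr_sub_right]; congr 1; ring
    rw [h1] at h
    rcases le_abs.1 h with h | h <;> linarith

end Good

end Pool.Agent.Lib.MP_19d7db_an
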