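import Pool.Agent.Lib.MP_19d7db_an.Defs

/-!
# Geometry of semi-dispersive convex polygons with large radii
-/

open Complex Set Filter Topology MeasureTheory

namespace Pool.Agent.Lib.MP_19d7db_an

/-- Dot product. -/
def dt (z w : ℂ) : ℝ := z.re * w.re + z.im * w.im

lemma dt_self (z : ℂ) : dt z z = ‖z‖ ^ 2 := by
  rw [Complex.sq_norm, Complex.normSq_apply]; rfl

lemma cr_sq_add_dt_sq (z w : ℂ) : cr z w ^ 2 + dt z w ^ 2 = ‖z‖ ^ 2 * ‖w‖ ^ 2 := by
  rw [← dt_self, ← dt_self]; simp only [cr, dt]; ring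

lemma abs_dt_le (z w : ℂ) : |dt z w| ≤ ‖z‖ * ‖w‖ := by
  apply abs_le_of_sq_le_sq _ (by positivity)
  nlinarith [cr_sq_add_dt_sq z w, sq_nonneg (cr z w)]

lemma abs_cr_le (z w : ℂ) : |cr z w| ≤ ‖z‖ * ‖w‖ := by
  apply abs_le_of_sq_le_sq _ (by positivity)
  nlinarith [cr_sq_add_dt_sq z w, sq_nonneg (dt z w)]

lemma cr_add_right (a z w : ℂ) : cr a (z + w) = cr a z + cr a w := by
  simp only [cr, add_re, add_im]; ring

lemma cr_sub_right (a z w : ℂ) : cr a (z - w) = cr a z - cr a w := by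
  simp only [cr, sub_re, sub_im]; ring

lemma cr_smul_right (a z : ℂ) (t : ℝ) : cr a (t * z) = t * cr a z := by
  simp only [cr, mul_re, mul_im, ofReal_re, ofReal_im]; ring

lemma cr_smul_left (a z : ℂ) (t : ℝ) : cr (t * a) z = t * cr a z := by
  simp only [cr, mul_re, mul_im, ofReal_re, ofReal_im]; ring

lemma cr_self (a : ℂ) : cr a a = 0 := by simp only [cr]; ring

lemma cr_comm (a b : ℂ) : cr a b = - cr b a := by simp only [cr]; ring

lemma dt_I_right (a b : ℂ) : dt a (I * b) = cr b a := by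
  simp only [cr, dt, mul_re, mul_im, I_re, I_im]; ring

lemma cr_I_right (a b : ℂ) : cr a (I * b) = dt a b := by
  simp only [cr, dt, mul_re, mul_im, I_re, I_im]; ring

lemma dt_comm (a b : ℂ) : dt a b = dt b a := by simp only [dt]; ring

lemma dt_smul_right (a z : ℂ) (t : ℝ) : dt a (t * z) = t * dt a z := by
  simp only [dt, mul_re, mul_im, ofReal_re, ofReal_im]; ring

lemma dt_add_right (a z w : ℂ) : dt a (z + w) = dt a z + dt a w := by
  simp only [dt, add_re, add_im]; ring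

lemma dt_sub_right (a z w : ℂ) : dt a (z - w) = dt a z - dt a w := by
  simp only [dt, sub_re, sub_im]; ring

lemma norm_add_sq' (a b : ℂ) : ‖a + b‖ ^ 2 = ‖a‖ ^ 2 + 2 * dt a b + ‖b‖ ^ 2 := by
  rw [← dt_self, ← dt_self, ← dt_self]; simp only [dt, add_re, add_im]; ring

/-- If `v` is a unit vector and `cr v x = 0`, then `x = (v·x) v`. -/
lemma eq_dt_smul {v x : ℂ} (hv : ‖v‖ = 1) (h : cr v x = 0) : x = dt v x * v := by
  have h1 : v.re * v.re + v.im * v.im = 1 := by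
    have := dt_self v; rw [hv] at this; simpa [dt] using this
  simp only [cr] at h
  apply Complex.ext
  · simp only [mul_re, ofReal_re, ofReal_im, dt]
    linear_combination -x.re * h1 - v.im * h
  · simp only [mul_im, ofReal_re, ofReal_im, dt]
    linear_combination -x.im * h1 + v.re * h

section ZModFacts

variable {n : ℕ}

lemma one_ne (hn : 3 ≤ n) : (1 : ZMod n) ≠ 0 := by
  intro h
  have : ((1 : ℕ) : ZMod n) = 0 := by simpa using h
  rw [ZMod.natCast_eq_zero_iff] at this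
  have := Nat.le_of_dvd (by norm_num) this
  omega

lemma two_ne (hn : 3 ≤ n) : (1 + 1 : ZMod n) ≠ 0 := by
  intro h
  have : ((2 : ℕ) : ZMod n) = 0 := by
    rw [← h]; push_cast; norm_num
  rw [ZMod.natCast_eq_zero_iff] at this
  have := Nat.le_of_dvd (by norm_num) this
  omega

lemma succ_ne (hn : 3 ≤ n) (i : ZMod n) : i + 1 ≠ i := by
  intro h; exact one_ne hn (by simpa using h)

lemma succ_succ_ne (hn : 3 ≤ n) (i : ZMod n) : i + 1 + 1 ≠ i := by
  intro h
  apply two_ne hn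
  have : i + (1 + 1) = i + 0 := by rw [← add_assoc, h, add_zero]
  exact add_left_cancel this

end ZModFacts

namespace Table

variable {n : ℕ} (Y : Table n)

/-- The affine function which is positive on the inner side of the side `m`. -/
noncomputable def f (m : ZMod n) (x : ℂ) : ℝ := cr (Y.e m) (x - Y.p m)

/-- Distance of the centre to the chord. -/
noncomputable def h0 (i : ZMod n) : ℝ := √(Y.ρ i ^ 2 - (Y.ℓ i / 2) ^ 2)

lemma f_add (m : ZMod n) (x v : ℂ) (t : ℝ) :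
    Y.f m (x + t * v) = Y.f m x + t * cr (Y.e m) v := by
  simp only [f, cr, sub_re, sub_im, add_re, add_im, mul_re, mul_im, ofReal_re, ofReal_im]; ring

lemma f_vertex (m : ZMod n) : Y.f m (Y.p m) = 0 := by simp [f, cr]

lemma f_vertex' (m : ZMod n) : Y.f m (Y.p (m + 1)) = 0 := by
  have : Y.p (m + 1) - Y.p m = Y.e m := rfl
  simp [f, this, cr_self]

/-- Value of an affine function in the frame of a side. -/
lemma f_frame (m i : ZMod n) (a h : ℝ) :
    Y.f m (Y.p i + (a + h * I) * Y.e i) =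
      (1 - a) * Y.f m (Y.p i) + a * Y.f m (Y.p (i + 1)) + h * dt (Y.e m) (Y.e i) := by
  have : Y.p (i + 1) = Y.p i + Y.e i := by simp [e]
  rw [this]
  simp only [f, cr, dt, sub_re, sub_im, add_re, add_im, mul_re, mul_im, ofReal_re, ofReal_im,
    I_re, I_im]
  ring

lemma f_self_frame (i : ZMod n) (a h : ℝ) :
    Y.f i (Y.p i + (a + h * I) * Y.e i) = h * Y.ℓ i ^ 2 := by
  rw [f_frame, f_vertex, f_vertex', dt_self, ℓ]; ring

end Table

variable {n : ℕ}

/-- Quantitative form of convexity of the polygon and large radii. -/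
structure Good (Y : Table n) (δ C η : ℝ) : Prop where
  hn : 3 ≤ n
  hδ : 0 < δ
  conv : ∀ i j, j ≠ i → j ≠ i + 1 → δ ≤ cr (Y.e i) (Y.p j - Y.p i)
  hC : ∀ i j, Y.ℓ i * Y.ℓ j ≤ C
  hη : 0 < η
  hη1 : η ≤ 1
  hsmall : 3 * C * η < δ
  hρ : ∀ k ∈ Y.D, Y.ℓ k < 2 * Y.ρ k
  hbig : ∀ k ∈ Y.D, Y.ℓ k ≤ 2 * η * Y.h0 k

/-- `x` lies in the thin triangle over the side `i`, with coordinates `a`, `h`. -/
structure InT (Y : Table n) (η : ℝ) (i : ZMod n) (x : ℂ) (a h : ℝ) : Prop where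
  a0 : 0 ≤ a
  a1 : a ≤ 1
  h0 : 0 ≤ h
  ha : h ≤ η * a
  hb : h ≤ η * (1 - a)
  hx : x = Y.p i + (a + h * I) * Y.e i

namespace Good

variable {Y : Table n} {δ C η : ℝ} (hg : Good Y δ C η)

include hg

lemma ell_pos (i : ZMod n) : 0 < Y.ℓ i := by
  rw [Table.ℓ, norm_pos_iff]
  intro h
  have h1 := hg.conv i (i + 1 + 1) (succ_succ_ne hg.hn i) (succ_ne hg.hn (i + 1))
  rw [h] at h1
  simp only [cr, zero_re, zero_im, zero_mul, sub_zero] at h1
  linarith [hg.hδ]

lemma e_ne (i : ZMod n) : Y.e i ≠ 0 := by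
  have := hg.ell_pos i
  rw [Table.ℓ, norm_pos_iff] at this
  exact this

lemma C_pos : 0 < C := by
  have h1 := hg.hC 0 0
  have h2 := hg.ell_pos 0
  nlinarith

lemma f_far {m j : ZMod n} (h1 : j ≠ m) (h2 : j ≠ m + 1) : δ ≤ Y.f m (Y.p j) :=
  hg.conv m j h1 h2

lemma f_vertex_nonneg (m j : ZMod n) : 0 ≤ Y.f m (Y.p j) := by
  by_cases h1 : j = m
  · rw [h1, Y.f_vertex]
  · by_cases h2 : j = m + 1
    · rw [h2, Y.f_vertex']
    · exact hg.hδ.le.trans (hg.f_far h1 h2)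

lemma abs_dt_e (i j : ZMod n) : |dt (Y.e i) (Y.e j)| ≤ C := (abs_dt_le _ _).trans (hg.hC i j)

lemma abs_cr_e (i j : ZMod n) : |cr (Y.e i) (Y.e j)| ≤ C := (abs_cr_le _ _).trans (hg.hC i j)

/-- In the thin triangle over side `i` all other side functions are positive, except at the
vertices. -/
lemma f_pos_of_inT {i m : ZMod n} {x : ℂ} {a h : ℝ} (hT : InT Y η i x a h) (hm : m ≠ i)
    (ha0 : 0 < a) (ha1 : a < 1) : 0 < Y.f m x := by
  rw [hT.hx, Y.f_frame]
  have hd := abs_le.1 (hg.abs_dt_e m i)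
  have hC := hg.C_pos
  have hs := hg.hsmall
  have hη := hg.hη
  have h1 : -(h * C) ≤ h * dt (Y.e m) (Y.e i) := by nlinarith [hd.1, hT.h0]
  have hη1 := hg.hη1
  have hCη : 0 < C * η := mul_pos hC hη
  have hP1 : 0 < a * (δ - η * C) := mul_pos ha0 (by linarith)
  have hP2 : 0 < (1 - a) * (δ - η * C) := mul_pos (by linarith) (by linarith)
  by_cases hi : i = m + 1
  · have hv : Y.f m (Y.p i) = 0 := by rw [hi, Y.f_vertex']
    have hw : δ ≤ Y.f m (Y.p (i + 1)) := by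
      apply hg.f_far
      · rw [hi]; exact succ_succ_ne hg.hn m
      · rw [hi]; exact succ_ne hg.hn (m + 1)
    rw [hv]
    have h2 : h * C ≤ η * a * C := mul_le_mul_of_nonneg_right hT.ha hC.le
    nlinarith
  · by_cases hi2 : m = i + 1
    · have hv : Y.f m (Y.p (i + 1)) = 0 := by rw [hi2, Y.f_vertex]
      have hw : δ ≤ Y.f m (Y.p i) := hg.f_far hm.symm hi
      rw [hv]
      have h2 : h * C ≤ η * (1 - a) * C := mul_le_mul_of_nonneg_right hT.hb hC.le
      nlinarith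
    · have hw : δ ≤ Y.f m (Y.p i) := hg.f_far hm.symm hi
      have hw' : δ ≤ Y.f m (Y.p (i + 1)) := by
        apply hg.f_far (Ne.symm hi2)
        intro h; exact hm (add_right_cancel h).symm
      have h2 : h * C ≤ η * a * C := mul_le_mul_of_nonneg_right hT.ha hC.le
      nlinarith

/-- Two different thin triangles only meet at vertices. -/
lemma inT_inter {i k : ZMod n} {x : ℂ} {a h b h' : ℝ} (hT : InT Y η i x a h)
    (hT' : InT Y η k x b h') (hik : i ≠ k) : a = 0 ∨ a = 1 := by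
  have hd := abs_le.1 (hg.abs_dt_e k i)
  have hc := abs_le.1 (hg.abs_cr_e i k)
  have hC := hg.C_pos
  have hs := hg.hsmall
  have hη := hg.hη
  have hη1 := hg.hη1
  have hδ := hg.hδ
  have hh := hT.h0
  have h1 : -(h * C) ≤ h * dt (Y.e k) (Y.e i) := by nlinarith [hd.1]
  have hf1 : Y.f k x = h' * Y.ℓ k ^ 2 := by rw [hT'.hx, Y.f_self_frame]
  have hf2 : Y.f k x = (1 - a) * Y.f k (Y.p i) + a * Y.f k (Y.p (i + 1)) +
      h * dt (Y.e k) (Y.e i) := by rw [hT.hx, Y.f_frame]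
  have hℓ2 : Y.ℓ k ^ 2 ≤ C := by have := hg.hC k k; nlinarith
  have hℓ0 : 0 ≤ Y.ℓ k ^ 2 := by positivity
  have hde : dt (Y.e k) (Y.e k) = Y.ℓ k ^ 2 := dt_self _
  by_cases hi : i = k + 1
  · left
    have hv : Y.f k (Y.p i) = 0 := by rw [hi, Y.f_vertex']
    have hw : δ ≤ Y.f k (Y.p (i + 1)) := by
      apply hg.f_far
      · rw [hi]; exact succ_succ_ne hg.hn k
      · rw [hi]; exact succ_ne hg.hn (k + 1)
    have h2 : h * C ≤ η * a * C := mul_le_mul_of_nonneg_right hT.ha hC.le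
    have h3 : a * (δ - η * C) ≤ Y.f k x := by rw [hf2, hv]; nlinarith [hT.a0]
    -- upper bound
    have hpi : Y.p i = Y.p k + Y.e k := by rw [hi]; simp [Table.e]
    have h4 : (1 - b) * Y.ℓ k ^ 2 = -dt (Y.e k) (x - Y.p i) := by
      rw [hT'.hx, hpi, ← hde]
      simp only [dt, sub_re, sub_im, add_re, add_im, mul_re, mul_im, ofReal_re, ofReal_im,
        I_re, I_im]
      ring
    have h5 : dt (Y.e k) (x - Y.p i) = a * dt (Y.e k) (Y.e i) + h * cr (Y.e i) (Y.e k) := by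
      rw [hT.hx]
      simp only [dt, cr, sub_re, sub_im, add_re, add_im, mul_re, mul_im, ofReal_re, ofReal_im,
        I_re, I_im]
      ring
    have h6 : (1 - b) * Y.ℓ k ^ 2 ≤ 2 * a * C := by
      rw [h4, h5]
      have : h ≤ a := hT.ha.trans (by nlinarith [hT.a0])
      nlinarith [hT.a0, hd.1, hc.1]
    have h7 : Y.f k x ≤ η * (2 * a * C) := by
      rw [hf1]
      calc h' * Y.ℓ k ^ 2 ≤ η * (1 - b) * Y.ℓ k ^ 2 := mul_le_mul_of_nonneg_right hT'.hb hℓ0
        _ = η * ((1 - b) * Y.ℓ k ^ 2) := by ring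
        _ ≤ _ := mul_le_mul_of_nonneg_left h6 hη.le
    have h8 : a * (δ - 3 * C * η) ≤ 0 := by nlinarith
    have h9 : a ≤ 0 := by
      by_contra hcon
      push Not at hcon
      nlinarith [mul_pos hcon (sub_pos.2 hs)]
    linarith [hT.a0]
  · by_cases hi2 : k = i + 1
    · right
      have hv : Y.f k (Y.p (i + 1)) = 0 := by rw [hi2, Y.f_vertex]
      have hw : δ ≤ Y.f k (Y.p i) := hg.f_far hik hi
      have h2 : h * C ≤ η * (1 - a) * C := mul_le_mul_of_nonneg_right hT.hb hC.le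
      have h3 : (1 - a) * (δ - η * C) ≤ Y.f k x := by rw [hf2, hv]; nlinarith [hT.a1]
      have hpi : Y.p k = Y.p i + Y.e i := by rw [hi2]; simp [Table.e]
      have h4 : b * Y.ℓ k ^ 2 = dt (Y.e k) (x - Y.p k) := by
        rw [hT'.hx, ← hde]
        simp only [dt, sub_re, sub_im, add_re, add_im, mul_re, mul_im, ofReal_re, ofReal_im,
          I_re, I_im]
        ring
      have h5 : dt (Y.e k) (x - Y.p k) = -(1 - a) * dt (Y.e k) (Y.e i) +
          h * cr (Y.e i) (Y.e k) := by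
        rw [hT.hx, hpi]
        simp only [dt, cr, sub_re, sub_im, add_re, add_im, mul_re, mul_im, ofReal_re, ofReal_im,
          I_re, I_im]
        ring
      have h6 : b * Y.ℓ k ^ 2 ≤ 2 * (1 - a) * C := by
        rw [h4, h5]
        have : h ≤ 1 - a := hT.hb.trans (by nlinarith [hT.a1])
        nlinarith [hT.a1, hd.1, hc.2]
      have h7 : Y.f k x ≤ η * (2 * (1 - a) * C) := by
        rw [hf1]
        calc h' * Y.ℓ k ^ 2 ≤ η * b * Y.ℓ k ^ 2 := mul_le_mul_of_nonneg_right hT'.ha hℓ0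
          _ = η * (b * Y.ℓ k ^ 2) := by ring
          _ ≤ _ := mul_le_mul_of_nonneg_left h6 hη.le
      have h8 : (1 - a) * (δ - 3 * C * η) ≤ 0 := by nlinarith
      have h9 : 1 - a ≤ 0 := by
        by_contra hcon
        push Not at hcon
        nlinarith [mul_pos hcon (sub_pos.2 hs)]
      linarith [hT.a1]
    · exfalso
      have hw : δ ≤ Y.f k (Y.p i) := hg.f_far hik hi
      have hw' : δ ≤ Y.f k (Y.p (i + 1)) := by
        apply hg.f_far (Ne.symm hi2)
        intro h; exact hik (add_right_cancel h)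
      have h2 : h * C ≤ η * C := by
        apply mul_le_mul_of_nonneg_right _ hC.le
        exact hT.ha.trans (by nlinarith [hT.a1])
      have h3 : δ - η * C ≤ Y.f k x := by rw [hf2]; nlinarith [hT.a0, hT.a1]
      have h7 : Y.f k x ≤ η * C := by
        rw [hf1]
        have : h' ≤ η := hT'.ha.trans (by nlinarith [hT'.a1])
        nlinarith [hT'.h0]
      nlinarith

lemma rho_pos {k : ZMod n} (hk : k ∈ Y.D) : 0 < Y.ρ k := by
  have := hg.hρ k hk; have := hg.ell_pos k; linarith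

lemma h0_pos {k : ZMod n} (hk : k ∈ Y.D) : 0 < Y.h0 k := by
  have h1 := hg.hbig k hk
  have h2 := hg.ell_pos k
  have h3 := hg.hη
  by_contra hcon
  push Not at hcon
  nlinarith

lemma h0_sq {k : ZMod n} (hk : k ∈ Y.D) : Y.h0 k ^ 2 = Y.ρ k ^ 2 - (Y.ℓ k / 2) ^ 2 := by
  rw [Table.h0, Real.sq_sqrt]
  have := hg.hρ k hk; have := hg.ell_pos k
  nlinarith

omit hg in
/-- Every point has coordinates in the frame of a side. -/
lemma exists_frame {i : ZMod n} (hℓ : 0 < Y.ℓ i) (x : ℂ) :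
    x = Y.p i + ((dt (Y.e i) (x - Y.p i) / Y.ℓ i ^ 2 : ℝ) +
      (Y.f i x / Y.ℓ i ^ 2 : ℝ) * I) * Y.e i := by
  have h1 : Y.ℓ i ^ 2 = (Y.e i).re * (Y.e i).re + (Y.e i).im * (Y.e i).im := by
    rw [Table.ℓ, ← dt_self]; rfl
  have h2 : Y.ℓ i ^ 2 ≠ 0 := by positivity
  apply Complex.ext
  · simp only [add_re, mul_re, add_im, mul_im, ofReal_re, ofReal_im, I_re, I_im, Table.f, dt, cr,
      sub_re, sub_im]
    field_simp
    rw [h1]
    ring
  · simp only [add_re, mul_re, add_im, mul_im, ofReal_re, ofReal_im, I_re, I_im, Table.f, dt, cr,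
      sub_re, sub_im]
    field_simp
    rw [h1]
    ring

lemma norm_sub_c {k : ZMod n} (hk : k ∈ Y.D) (a h : ℝ) :
    ‖Y.p k + (a + h * I) * Y.e k - Y.c k‖ ^ 2 =
      Y.ρ k ^ 2 + Y.ℓ k ^ 2 * (a ^ 2 + h ^ 2 - a) + 2 * Y.h0 k * h * Y.ℓ k := by
  have hℓ := hg.ell_pos k
  have hℓ' : (Y.ℓ k : ℂ) ≠ 0 := by exact_mod_cast hℓ.ne'
  have h1 : Y.p k + (a + h * I) * Y.e k - Y.c k =
      ((a - 1 / 2 : ℝ) + (h + Y.h0 k / Y.ℓ k : ℝ) * I) * Y.e k := by
    have hp : Y.p (k + 1) = Y.p k + Y.e k := by simp [Table.e]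
    rw [Table.c, hp]
    change _ - (_ - I * (Y.e k / Y.ℓ k) * (Y.h0 k : ℝ)) = _
    push_cast
    field_simp
    ring
  rw [h1, norm_mul, mul_pow, ← Table.ℓ]
  have h2 : ‖((a - 1 / 2 : ℝ) + (h + Y.h0 k / Y.ℓ k : ℝ) * I : ℂ)‖ ^ 2 =
      (a - 1 / 2) ^ 2 + (h + Y.h0 k / Y.ℓ k) ^ 2 := by
    rw [← dt_self]
    simp only [dt, add_re, mul_re, add_im, mul_im, ofReal_re, ofReal_im, I_re, I_im]
    ring
  rw [h2]
  have h3 := hg.h0_sq hk
  field_simp
  linear_combination 4 * h3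

/-- The part of the closed disc on the inner side of the chord lies in the thin triangle. -/
lemma inT_of_mem_ball {k : ZMod n} (hk : k ∈ Y.D) {x : ℂ} (hf : 0 ≤ Y.f k x)
    (hx : ‖x - Y.c k‖ ≤ Y.ρ k) :
    InT Y η k x (dt (Y.e k) (x - Y.p k) / Y.ℓ k ^ 2) (Y.f k x / Y.ℓ k ^ 2) := by
  have hℓ := hg.ell_pos k
  have hfr := exists_frame (Y := Y) hℓ x
  set a := dt (Y.e k) (x - Y.p k) / Y.ℓ k ^ 2
  set h := Y.f k x / Y.ℓ k ^ 2
  have hh : 0 ≤ h := by positivity
  have h1 := hg.norm_sub_c hk a h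
  rw [← hfr] at h1
  have h2 : ‖x - Y.c k‖ ^ 2 ≤ Y.ρ k ^ 2 := by
    have := norm_nonneg (x - Y.c k); nlinarith
  have h3 := hg.h0_pos hk
  have h4 : Y.ℓ k * (a ^ 2 + h ^ 2 - a) + 2 * Y.h0 k * h ≤ 0 := by
    by_contra hcon
    push Not at hcon
    have := mul_pos hℓ hcon
    nlinarith
  have h5 : 0 ≤ a * (1 - a) := by
    by_contra hcon
    push Not at hcon
    have h6 : 0 < Y.ℓ k * (-(a * (1 - a))) := mul_pos hℓ (by linarith)
    have h7 : 0 ≤ 2 * Y.h0 k * h := by positivity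
    nlinarith [mul_nonneg hℓ.le (sq_nonneg h)]
  have ha0 : 0 ≤ a := by
    by_contra hcon; push Not at hcon; nlinarith
  have ha1 : a ≤ 1 := by
    by_contra hcon; push Not at hcon; nlinarith
  have h8 : h ≤ η * (a * (1 - a)) := by
    have hb := hg.hbig k hk
    have h9 : 2 * Y.h0 k * h ≤ Y.ℓ k * (a * (1 - a)) := by
      nlinarith [mul_nonneg hℓ.le (sq_nonneg h)]
    have h10 : Y.ℓ k * (a * (1 - a)) ≤ 2 * η * Y.h0 k * (a * (1 - a)) :=
      mul_le_mul_of_nonneg_right hb h5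
    by_contra hcon
    push Not at hcon
    nlinarith [mul_pos h3 (sub_pos.2 hcon)]
  have hη := hg.hη
  exact ⟨ha0, ha1, hh, h8.trans (by nlinarith [mul_nonneg hη.le ha0]),
    h8.trans (by nlinarith [mul_nonneg hη.le (sub_nonneg.2 ha1)]), hfr⟩

end Good

end Pool.Agent.Lib.MP_19d7db_an
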