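import Pool.Agent.Lib.MP_19d7db_an.Hits

/-!
# Local smoothness of the billiard map and its derivative
-/

open Complex Set Filter Topology MeasureTheory

namespace Pool.Agent.Lib.MP_19d7db_an

variable {n : ℕ}

namespace Good

variable {Y : Table n} {δ C η : ℝ} (hg : Good Y δ C η)

include hg

omit hg in
lemma isOpen_phase (i : ZMod n) : IsOpen (Y.Phase i) := isOpen_Ioo.prod isOpen_Ioo

theorem hit_local [NeZero n] {i j : ZMod n} {w w' : ℝ × ℝ} (h : Y.Hit (i, w) (j, w')) :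
    ∃ (F : ℝ × ℝ → ℝ × ℝ) (A : ℝ × ℝ →L[ℝ] ℝ × ℝ) (t : ℝ), 0 < t ∧ F w = w' ∧
      HasFDerivAt F A w ∧ (∀ᶠ u in 𝓝 w, Y.Hit (i, u) (j, F u)) ∧
      ∀ v, Real.sin w'.2 * (A v).1 = -(Real.sin w.2 * v.1) + t * (v.2 - Y.κ i * v.1) ∧
        (A v).2 = -(Y.κ j * (A v).1) - (v.2 - Y.κ i * v.1) := by
  have hne := hg.hit_ne h
  obtain ⟨hw, hw', t, ht, hpos, hdir, hin⟩ := h
  simp only at hw hw' hpos hdir hin
  have hball := hg.hit_ball hw hw' hpos hin
  have hsw := hg.sin_pos_of_phase hw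
  have hsw' := hg.sin_pos_of_phase hw'
  -- the two systems of line coordinates
  obtain ⟨L1, hL1, hL1v⟩ := hg.phi_deriv j w'
  set K : ℝ := Y.angIn j w' - Y.angOut i w with hK
  obtain ⟨L2, hL2, hL2v⟩ := hg.psi_deriv i w K t
  have hexpK : exp (I * (K : ℂ)) = 1 := by
    have h1 : I * (K : ℂ) = I * (Y.angIn j w' : ℂ) - I * (Y.angOut i w : ℂ) := by
      rw [hK]; push_cast; ring
    rw [h1, Complex.exp_sub, ← hg.dirIn_eq, ← hg.dir_eq, hdir, div_self]
    intro h0
    have := hg.norm_dir (i, w)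
    rw [h0, norm_zero] at this
    exact zero_ne_one this
  set Φ : ℝ × ℝ → ℝ × ℝ := fun u : ℝ × ℝ =>
    (Y.angIn j u, cr (Y.dirIn (j, u)) (Y.pos j u.1 - Y.pos j w'.1)) with hΦ
  set Ψ : ℝ × ℝ → ℝ × ℝ := fun u : ℝ × ℝ => (Y.angOut i u + K,
        cr (Y.dir (i, u)) (Y.pos i u.1 - (Y.pos i w.1 + t * Y.dir (i, w)))) with hΨ
  have hbase : Ψ w = Φ w' := by
    simp only [hΨ, hΦ]
    apply Prod.ext
    · simp only [hK]; ring
    · simp only
      have h1 : Y.pos i w.1 - (Y.pos i w.1 + t * Y.dir (i, w)) =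
          ((-t : ℝ) : ℂ) * Y.dir (i, w) := by push_cast; ring
      rw [h1, cr_smul_right, cr_self, sub_self]
      simp [cr]
  have hinj : Function.Injective (L1 : ℝ × ℝ →ₗ[ℝ] ℝ × ℝ) := by
    rw [injective_iff_map_eq_zero]
    intro v hv
    have hv' : L1 v = 0 := hv
    rw [hL1v] at hv'
    have h1 := congrArg Prod.fst hv'
    have h2 := congrArg Prod.snd hv'
    simp only [Prod.fst_zero, Prod.snd_zero] at h1 h2
    have h3 : v.1 = 0 := by
      rcases mul_eq_zero.1 h2 with h | h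
      · exact absurd h hsw'.ne'
      · exact h
    rw [h3] at h1
    apply Prod.ext
    · exact h3
    · simp only [Prod.snd_zero]; linarith
  set Le : (ℝ × ℝ) ≃L[ℝ] (ℝ × ℝ) :=
    (LinearEquiv.ofInjectiveEndo (L1 : ℝ × ℝ →ₗ[ℝ] ℝ × ℝ) hinj).toContinuousLinearEquiv with hLe
  have hLeL : (Le : ℝ × ℝ →L[ℝ] ℝ × ℝ) = L1 := by
    apply ContinuousLinearMap.ext
    intro v
    rfl
  have hS : HasStrictFDerivAt Φ (Le : ℝ × ℝ →L[ℝ] ℝ × ℝ) w' := by rw [hLeL]; exact hL1
  set G := hS.localInverse Φ Le w' with hG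
  have hG1 : HasStrictFDerivAt G (Le.symm : ℝ × ℝ →L[ℝ] ℝ × ℝ) (Φ w') := hS.to_localInverse
  have hG2 : ∀ᶠ y in 𝓝 (Φ w'), Φ (G y) = y := hS.eventually_right_inverse
  have hG3 : G (Φ w') = w' := hS.localInverse_apply_image
  have hFd : HasFDerivAt (G ∘ Ψ) ((Le.symm : ℝ × ℝ →L[ℝ] ℝ × ℝ).comp L2) w := by
    apply HasFDerivAt.comp
    · rw [hbase]; exact hG1.hasFDerivAt
    · exact hL2.hasFDerivAt
  have hFw : (G ∘ Ψ) w = w' := by simp only [Function.comp_apply, hbase, hG3]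
  have hFc : ContinuousAt (G ∘ Ψ) w := hFd.continuousAt
  have hFt : Tendsto (G ∘ Ψ) (𝓝 w) (𝓝 w') := by
    have := hFc.tendsto; rwa [hFw] at this
  refine ⟨G ∘ Ψ, _, t, ht, hFw, hFd, ?_, ?_⟩
  · have hΨt : Tendsto Ψ (𝓝 w) (𝓝 (Φ w')) := by
      rw [← hbase]; exact hL2.hasFDerivAt.continuousAt.tendsto
    have e1 : ∀ᶠ u in 𝓝 w, Φ (G (Ψ u)) = Ψ u := hΨt.eventually hG2
    have e2 : ∀ᶠ u in 𝓝 w, u ∈ Y.Phase i := (isOpen_phase i).mem_nhds hw
    have e3 : ∀ᶠ u in 𝓝 w, (G ∘ Ψ) u ∈ Y.Phase j :=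
      hFt.eventually ((isOpen_phase j).mem_nhds hw')
    -- flight time
    set T : ℝ × ℝ → ℝ := fun u =>
      dt (Y.dir (i, u)) (Y.pos j ((G ∘ Ψ) u).1 - Y.pos i u.1) with hT
    have hcP : Continuous (Y.pos i) := hg.continuous_pos i
    have hcPj : Continuous (Y.pos j) := hg.continuous_pos j
    have hcd : Continuous fun u : ℝ × ℝ => Y.dir (i, u) := continuous_dir i
    have hcPF : ContinuousAt (fun u => Y.pos j ((G ∘ Ψ) u).1) w :=
      (hcPj.comp continuous_fst).continuousAt.comp hFc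
    have hTc : ContinuousAt T w := by
      have h1 : ContinuousAt (fun u : ℝ × ℝ => Y.pos j ((G ∘ Ψ) u).1 - Y.pos i u.1) w :=
        hcPF.sub (hcP.comp continuous_fst).continuousAt
      have h2 := hcd.continuousAt (x := w)
      simp only [hT, dt]
      have r1 := Complex.continuous_re.continuousAt.comp h1
      have r2 := Complex.continuous_im.continuousAt.comp h1
      have r3 := Complex.continuous_re.continuousAt.comp h2
      have r4 := Complex.continuous_im.continuousAt.comp h2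
      exact (r3.mul r1).add (r4.mul r2)
    have hTw : T w = t := by
      simp only [hT]
      rw [hFw, hpos]
      have : Y.pos i w.1 + t * Y.dir (i, w) - Y.pos i w.1 = (t : ℂ) * Y.dir (i, w) := by ring
      rw [this, dt_smul_right, dt_self, hg.norm_dir]; ring
    have e4 : ∀ᶠ u in 𝓝 w, 0 < T u := by
      have : Tendsto T (𝓝 w) (𝓝 t) := by rw [← hTw]; exact hTc.tendsto
      exact this.eventually (lt_mem_nhds ht)
    -- other discs
    have e5 : ∀ᶠ u in 𝓝 w, ∀ k : ZMod n, k ∈ Y.D → k ≠ i → k ≠ j → ∀ r ∈ Icc (0 : ℝ) 1,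
        Y.ρ k < ‖Y.pos i u.1 + r * (Y.pos j ((G ∘ Ψ) u).1 - Y.pos i u.1) - Y.c k‖ := by
      rw [eventually_all]
      intro k
      by_cases hk : k ∈ Y.D
      swap
      · exact Eventually.of_forall fun u hk' => absurd hk' hk
      by_cases hki : k = i
      · exact Eventually.of_forall fun u _ hki' => absurd hki hki'
      by_cases hkj : k = j
      · exact Eventually.of_forall fun u _ _ hkj' => absurd hkj hkj'
      have hcomp : ∀ᶠ u in 𝓝 w, ∀ r ∈ Icc (0 : ℝ) 1,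
          Y.ρ k < ‖Y.pos i u.1 + r * (Y.pos j ((G ∘ Ψ) u).1 - Y.pos i u.1) - Y.c k‖ := by
        apply isCompact_Icc.eventually_forall_of_forall_eventually
        intro r hr
        have hval : Y.ρ k < ‖Y.pos i w.1 + r * (Y.pos j ((G ∘ Ψ) w).1 - Y.pos i w.1) -
            Y.c k‖ := by
          rw [hFw, hpos]
          have : Y.pos i w.1 + r * (Y.pos i w.1 + t * Y.dir (i, w) - Y.pos i w.1) - Y.c k =
              Y.pos i w.1 + ((r * t : ℝ) : ℂ) * Y.dir (i, w) - Y.c k := by push_cast; ring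
          rw [this]
          exact hball k hk hki hkj (r * t) ⟨by nlinarith [hr.1], by nlinarith [hr.2]⟩
        have hc : ContinuousAt (fun z : (ℝ × ℝ) × ℝ =>
            ‖Y.pos i z.1.1 + z.2 * (Y.pos j ((G ∘ Ψ) z.1).1 - Y.pos i z.1.1) - Y.c k‖)
            (w, r) := by
          have c1 : ContinuousAt (fun z : (ℝ × ℝ) × ℝ => Y.pos i z.1.1) (w, r) :=
            (hcP.comp (continuous_fst.comp continuous_fst)).continuousAt
          have c2 : ContinuousAt (fun z : (ℝ × ℝ) × ℝ => Y.pos j ((G ∘ Ψ) z.1).1) (w, r) :=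
            ContinuousAt.comp (x := (w, r)) (f := fun z : (ℝ × ℝ) × ℝ => z.1)
              (g := fun u => Y.pos j ((G ∘ Ψ) u).1) hcPF continuous_fst.continuousAt
          have c3 : ContinuousAt (fun z : (ℝ × ℝ) × ℝ => (z.2 : ℂ)) (w, r) :=
            (Complex.continuous_ofReal.comp continuous_snd).continuousAt
          exact ((c1.add (c3.mul (c2.sub c1))).sub continuousAt_const).norm
        exact hc.tendsto.eventually (lt_mem_nhds hval)
      filter_upwards [hcomp] with u hu _ _ _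
      exact hu
    filter_upwards [e1, e2, e3, e4, e5] with u h1 h2 h3 h4 h5
    have hFu : (G ∘ Ψ) u = G (Ψ u) := rfl
    rw [← hFu] at h1
    set u' := (G ∘ Ψ) u with hu'
    have h6 := congrArg Prod.fst h1
    have h7 := congrArg Prod.snd h1
    simp only [hΦ, hΨ] at h6 h7
    have hd : Y.dirIn (j, u') = Y.dir (i, u) := by
      rw [hg.dirIn_eq, hg.dir_eq, h6]
      have : I * ((Y.angOut i u + K : ℝ) : ℂ) = I * (Y.angOut i u : ℂ) + I * (K : ℂ) := by
        push_cast; ring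
      rw [this, Complex.exp_add, hexpK, mul_one]
    have h8 : cr (Y.dir (i, u)) (Y.pos j u'.1 - Y.pos i u.1) = 0 := by
      rw [hd, ← hpos] at h7
      have : Y.pos j u'.1 - Y.pos i u.1 = (Y.pos j u'.1 - Y.pos j w'.1) -
          (Y.pos i u.1 - Y.pos j w'.1) := by ring
      rw [this, cr_sub_right, h7, sub_self]
    have h9 := eq_dt_smul (hg.norm_dir (i, u)) h8
    have h10 : Y.pos j u'.1 = Y.pos i u.1 + (T u : ℝ) * Y.dir (i, u) := by
      have : Y.pos j u'.1 = Y.pos i u.1 + (Y.pos j u'.1 - Y.pos i u.1) := by ring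
      rw [this, h9]
    refine ⟨h2, h3, T u, h4, h10, hd, ?_⟩
    apply hg.inside_of h2 h3 h4 h10 hd hne
    intro k hk hki hkj r hr
    have h11 := h5 k hk hki hkj (r / T u)
      ⟨div_nonneg hr.1 h4.le, (div_le_one h4).2 hr.2⟩
    have h12 : Y.pos i u.1 + ((r / T u : ℝ) : ℂ) * (Y.pos j u'.1 - Y.pos i u.1) =
        Y.pos i u.1 + r * Y.dir (i, u) := by
      rw [h10]
      have : (T u : ℂ) ≠ 0 := by exact_mod_cast h4.ne'
      push_cast
      field_simp
      ring
    rwa [h12] at h11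
  · intro v
    have h1 : L1 (((Le.symm : ℝ × ℝ →L[ℝ] ℝ × ℝ).comp L2) v) = L2 v := by
      rw [← hLeL]
      simp
    rw [hL1v, hL2v] at h1
    have h2 := congrArg Prod.fst h1
    have h3 := congrArg Prod.snd h1
    simp only at h2 h3
    exact ⟨h3, by linarith⟩

end Good

end Pool.Agent.Lib.MP_19d7db_an
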