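import Pool.Agent.Lib.MP_19d7db_an.Local

/-!
# The billiard map near a regular collision
-/

open Complex Set Filter Topology MeasureTheory

namespace Pool.Agent.Lib.MP_19d7db_an

variable {n : ℕ}

namespace Good

variable {Y : Table n} {δ C η : ℝ} (hg : Good Y δ C η)

include hg

lemma dt_dir_sub_c {k : ZMod n} (hk : k ∈ Y.D) (w : ℝ × ℝ) :
    dt (Y.dir (k, w)) (Y.pos k w.1 - Y.c k) = Y.ρ k * Real.sin w.2 := by
  rw [pos_sub_c hk, dt_smul_right, dt_I_right, hg.cr_tan_dir]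

lemma dt_dirIn_sub_c {k : ZMod n} (hk : k ∈ Y.D) (w : ℝ × ℝ) :
    dt (Y.dirIn (k, w)) (Y.pos k w.1 - Y.c k) = -(Y.ρ k * Real.sin w.2) := by
  rw [pos_sub_c hk, dt_smul_right, dt_I_right, hg.cr_tan_dirIn]; ring

lemma tan_N {i : ZMod n} (hi : i ∉ Y.D) (s : ℝ) : Y.tan i s = Y.e i / Y.ℓ i := by
  rw [Table.tan, Y.β_N hi, Y.κ_N hi]; simp

lemma cr_e_eq {i : ZMod n} (hi : i ∉ Y.D) (s : ℝ) (v : ℂ) :
    cr (Y.e i) v = Y.ℓ i * cr (Y.tan i s) v := by
  have hℓ := hg.ell_pos i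
  have hℓ' : (Y.ℓ i : ℂ) ≠ 0 := by exact_mod_cast hℓ.ne'
  rw [hg.tan_N hi, ← cr_smul_left, mul_div_cancel₀ _ hℓ']

lemma sin_pos_of_phase {i : ZMod n} {w : ℝ × ℝ} (hw : w ∈ Y.Phase i) : 0 < Real.sin w.2 :=
  Real.sin_pos_of_pos_of_lt_pi hw.2.1 hw.2.2

/-- Expansion of the square distance to the centre along a line. -/
lemma sq_expand (q v c : ℂ) (u : ℝ) (hv : ‖v‖ = 1) :
    ‖q + u * v - c‖ ^ 2 = ‖q - c‖ ^ 2 + 2 * u * dt v (q - c) + u ^ 2 := by
  have h : q + u * v - c = (q - c) + u * v := by ring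
  rw [h, norm_add_sq', norm_mul, hv, Complex.norm_real, Real.norm_eq_abs, mul_one, sq_abs,
    dt_smul_right, dt_comm v]
  ring

lemma leave_ball {k : ZMod n} (hk : k ∈ Y.D) {w : ℝ × ℝ} (hw : w ∈ Y.Phase k) {u : ℝ}
    (hu : 0 < u) : Y.ρ k < ‖Y.pos k w.1 + u * Y.dir (k, w) - Y.c k‖ := by
  have h1 := hg.sq_expand (Y.pos k w.1) (Y.dir (k, w)) (Y.c k) u (hg.norm_dir _)
  rw [hg.norm_pos_sub_c hk, hg.dt_dir_sub_c hk] at h1
  have h2 := hg.sin_pos_of_phase hw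
  have h3 := hg.rho_pos hk
  have h4 : 0 < 2 * u * (Y.ρ k * Real.sin w.2) := by positivity
  have h5 : Y.ρ k ^ 2 < ‖Y.pos k w.1 + u * Y.dir (k, w) - Y.c k‖ ^ 2 := by
    rw [h1]; nlinarith
  exact lt_of_pow_lt_pow_left₀ 2 (norm_nonneg _) h5

lemma enter_ball {k : ZMod n} (hk : k ∈ Y.D) {w : ℝ × ℝ} (hw : w ∈ Y.Phase k) {u : ℝ}
    (hu : 0 < u) : Y.ρ k < ‖Y.pos k w.1 + (-u : ℝ) * Y.dirIn (k, w) - Y.c k‖ := by
  have h1 := hg.sq_expand (Y.pos k w.1) (Y.dirIn (k, w)) (Y.c k) (-u) (hg.norm_dirIn _)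
  rw [hg.norm_pos_sub_c hk, hg.dt_dirIn_sub_c hk] at h1
  have h2 := hg.sin_pos_of_phase hw
  have h3 := hg.rho_pos hk
  have h4 : 0 < 2 * u * (Y.ρ k * Real.sin w.2) := by positivity
  have h5 : Y.ρ k ^ 2 < ‖Y.pos k w.1 + (-u : ℝ) * Y.dirIn (k, w) - Y.c k‖ ^ 2 := by
    rw [h1]; nlinarith
  exact lt_of_pow_lt_pow_left₀ 2 (norm_nonneg _) h5

/-- Criterion for an open chord to lie in the interior of the table. -/
lemma inside_of {i j : ZMod n} {w w' : ℝ × ℝ} {t : ℝ} (hw : w ∈ Y.Phase i)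
    (hw' : w' ∈ Y.Phase j) (ht : 0 < t)
    (hpos : Y.pos j w'.1 = Y.pos i w.1 + t * Y.dir (i, w))
    (hdir : Y.dirIn (j, w') = Y.dir (i, w)) (hij : ¬ (i = j ∧ i ∉ Y.D))
    (hball : ∀ k ∈ Y.D, k ≠ i → k ≠ j → ∀ u ∈ Icc 0 t,
      Y.ρ k < ‖Y.pos i w.1 + u * Y.dir (i, w) - Y.c k‖) :
    ∀ u ∈ Ioo 0 t, Y.inside (Y.pos i w.1 + u * Y.dir (i, w)) := by
  intro u hu
  constructor
  · intro m
    change 0 < Y.f m _
    have h1 : Y.f m (Y.pos i w.1 + u * Y.dir (i, w)) =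
        (1 - u / t) * Y.f m (Y.pos i w.1) + u / t * Y.f m (Y.pos j w'.1) := by
      rw [hpos, Y.f_add, Y.f_add]; field_simp; ring
    rw [h1]
    have h2 : 0 < u / t := div_pos hu.1 ht
    have h3 : u / t < 1 := (div_lt_one ht).2 hu.2
    have h4 : 0 ≤ Y.f m (Y.pos i w.1) := hg.f_nonneg hw.1
    have h5 : 0 ≤ Y.f m (Y.pos j w'.1) := hg.f_nonneg hw'.1
    have h6 : 0 < Y.f m (Y.pos i w.1) ∨ 0 < Y.f m (Y.pos j w'.1) := by
      by_cases hm : m = i
      · by_cases hi : i ∈ Y.D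
        · left; rw [hm]; exact hg.f_pos_D hw.1 hi
        · right
          apply hg.f_pos_other hw'.1
          intro hmj
          exact hij ⟨hm ▸ hmj, hi⟩
      · left; exact hg.f_pos_other hw.1 hm
    rcases h6 with h6 | h6
    · have := mul_pos (sub_pos.2 h3) h6
      have := mul_nonneg h2.le h5
      linarith
    · have := mul_pos h2 h6
      have := mul_nonneg (sub_pos.2 h3).le h4
      linarith
  · intro k hk
    by_cases hki : k = i
    · subst hki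
      exact hg.leave_ball hk hw hu.1
    · by_cases hkj : k = j
      · subst hkj
        have h1 := hg.enter_ball hk hw' (u := t - u) (by linarith [hu.2])
        rw [hdir, hpos] at h1
        have h2 : Y.pos i w.1 + t * Y.dir (i, w) + (-(t - u) : ℝ) * Y.dir (i, w) =
            Y.pos i w.1 + u * Y.dir (i, w) := by push_cast; ring
        rwa [h2] at h1
      · exact hball k hk hki hkj u ⟨hu.1.le, hu.2.le⟩

lemma hit_ne {i j : ZMod n} {w w' : ℝ × ℝ} (h : Y.Hit (i, w) (j, w')) :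
    ¬ (i = j ∧ i ∉ Y.D) := by
  rintro ⟨hij, hi⟩
  obtain ⟨hw, hw', t, ht, hpos, hdir, hin⟩ := h
  simp only at hw hw' hpos hdir hin
  subst hij
  have h1 := (hin (t / 2) ⟨by linarith, by linarith⟩).1 i
  change 0 < Y.f i _ at h1
  rw [Y.f_add, hg.f_pos_N hw.1 hi] at h1
  have h2 := hg.f_pos_N hw'.1 hi
  rw [hpos, Y.f_add, hg.f_pos_N hw.1 hi] at h2
  nlinarith

lemma hit_ball {i j : ZMod n} {w w' : ℝ × ℝ} {t : ℝ} (hw : w ∈ Y.Phase i)
    (hw' : w' ∈ Y.Phase j) (hpos : Y.pos j w'.1 = Y.pos i w.1 + t * Y.dir (i, w))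
    (hin : ∀ u ∈ Ioo 0 t, Y.inside (Y.pos i w.1 + u * Y.dir (i, w))) :
    ∀ k ∈ Y.D, k ≠ i → k ≠ j → ∀ u ∈ Icc 0 t,
      Y.ρ k < ‖Y.pos i w.1 + u * Y.dir (i, w) - Y.c k‖ := by
  intro k hk hki hkj u hu
  rcases hu.1.eq_or_lt with h1 | h1
  · rw [← h1]
    have := hg.ball_other hw.1 hk hki
    simpa using this
  rcases hu.2.eq_or_lt with h2 | h2
  · rw [h2, ← hpos]; exact hg.ball_other hw'.1 hk hkj
  · exact (hin u ⟨h1, h2⟩).2 k hk

/-- Uniqueness of the image on a given boundary component. -/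
lemma hit_unique {i j : ZMod n} {w w' w'' : ℝ × ℝ} (h : Y.Hit (i, w) (j, w'))
    (h2 : Y.Hit (i, w) (j, w'')) : w' = w'' := by
  obtain ⟨hw, hw', t, ht, hpos, hdir, hin⟩ := h
  obtain ⟨-, hw'', t', ht', hpos', hdir', hin'⟩ := h2
  simp only at hw hw' hpos hdir hin hw'' hpos' hdir' hin'
  have htt : t = t' := by
    rcases lt_trichotomy t t' with h | h | h
    · exact absurd (hpos ▸ hin' t ⟨ht, h⟩) (hg.not_inside_pos hw'.1)
    · exact h
    · exact absurd (hpos' ▸ hin t' ⟨ht', h⟩) (hg.not_inside_pos hw''.1)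
  subst htt
  have h1 : Y.pos j w'.1 = Y.pos j w''.1 := by rw [hpos, hpos']
  have h2 : w'.1 = w''.1 := by
    by_cases hj : j ∈ Y.D
    · rw [Y.pos_D hj, Y.pos_D hj] at h1
      have hρ := hg.rho_pos hj
      have hρ' : (Y.ρ j : ℂ) ≠ 0 := by exact_mod_cast hρ.ne'
      have hu : Y.e j / Y.ℓ j ≠ 0 := by
        intro h; have := hg.norm_unit j; rw [h, norm_zero] at this; exact zero_ne_one this
      have h3 := mul_left_cancel₀ (mul_ne_zero hρ' (mul_ne_zero I_ne_zero hu))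
        (add_left_cancel h1)
      have a1 := abs_lt.1 (hg.angle_mem hj hw'.1)
      have a2 := abs_lt.1 (hg.angle_mem hj hw''.1)
      have hβ := hg.beta_lt hj
      have hπ := Real.pi_pos
      rw [mul_comm I, mul_comm I] at h3
      have h4 := congrArg Complex.arg h3
      rw [Complex.arg_exp_mul_I, Complex.arg_exp_mul_I] at h4
      have b1 : toIocMod Real.two_pi_pos (-Real.pi) (Y.β j - w'.1 / Y.ρ j) =
          Y.β j - w'.1 / Y.ρ j := by
        rw [toIocMod_eq_self]; constructor <;> linarith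
      have b2 : toIocMod Real.two_pi_pos (-Real.pi) (Y.β j - w''.1 / Y.ρ j) =
          Y.β j - w''.1 / Y.ρ j := by
        rw [toIocMod_eq_self]; constructor <;> linarith
      rw [b1, b2] at h4
      have h5 : w'.1 / Y.ρ j = w''.1 / Y.ρ j := by linarith
      exact (div_left_inj' hρ.ne').1 h5
    · rw [Y.pos_N hj, Y.pos_N hj] at h1
      have hu : Y.e j / Y.ℓ j ≠ 0 := by
        intro h; have := hg.norm_unit j; rw [h, norm_zero] at this; exact zero_ne_one this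
      have h3 := mul_right_cancel₀ hu (add_left_cancel h1)
      exact_mod_cast h3
  have h3 : Y.dirIn (j, w') = Y.dirIn (j, w'') := by rw [hdir, hdir']
  rw [Table.dirIn, Table.dirIn] at h3
  simp only at h3
  rw [h2] at h3
  have ht0 : Y.tan j w''.1 ≠ 0 := by
    intro h; have := hg.norm_tan j w''.1; rw [h, norm_zero] at this; exact zero_ne_one this
  have h4 := mul_left_cancel₀ ht0 h3
  have h5 : w'.2 = w''.2 := by
    have h6 : exp (((-w'.2 : ℝ) : ℂ) * I) = exp (((-w''.2 : ℝ) : ℂ) * I) := by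
      have e1 : (((-w'.2 : ℝ) : ℂ) * I) = -(I * (w'.2 : ℂ)) := by push_cast; ring
      have e2 : (((-w''.2 : ℝ) : ℂ) * I) = -(I * (w''.2 : ℂ)) := by push_cast; ring
      rw [e1, e2]; exact h4
    have h7 := congrArg Complex.arg h6
    rw [Complex.arg_exp_mul_I, Complex.arg_exp_mul_I] at h7
    have c1 := hw'.2
    have c2 := hw''.2
    have b1 : toIocMod Real.two_pi_pos (-Real.pi) (-w'.2) = -w'.2 := by
      rw [toIocMod_eq_self]; constructor <;> linarith [c1.1, c1.2]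
    have b2 : toIocMod Real.two_pi_pos (-Real.pi) (-w''.2) = -w''.2 := by
      rw [toIocMod_eq_self]; constructor <;> linarith [c2.1, c2.2]
    rw [b1, b2] at h7
    linarith
  exact Prod.ext h2 h5

/-- Time reversal. -/
lemma hit_rev {i j : ZMod n} {w w' : ℝ × ℝ} (h : Y.Hit (i, w) (j, w')) :
    Y.Hit (j, (w'.1, Real.pi - w'.2)) (i, (w.1, Real.pi - w.2)) := by
  obtain ⟨hw, hw', t, ht, hpos, hdir, hin⟩ := h
  simp only at hw hw' hpos hdir hin
  have e1 : ∀ (k : ZMod n) (x : ℝ × ℝ), Y.dir (k, (x.1, Real.pi - x.2)) = -Y.dirIn (k, x) := by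
    intro k x
    rw [hg.dir_eq, hg.dirIn_eq]
    have : I * ((Y.angOut k (x.1, Real.pi - x.2) : ℝ) : ℂ) =
        I * ((Y.angIn k x : ℝ) : ℂ) + Real.pi * I := by
      simp only [Table.angOut, Table.angIn]; push_cast; ring
    rw [this, Complex.exp_add, Complex.exp_pi_mul_I]; ring
  have e2 : ∀ (k : ZMod n) (x : ℝ × ℝ), Y.dirIn (k, (x.1, Real.pi - x.2)) = -Y.dir (k, x) := by
    intro k x
    rw [hg.dir_eq, hg.dirIn_eq]
    have : I * ((Y.angIn k (x.1, Real.pi - x.2) : ℝ) : ℂ) =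
        I * ((Y.angOut k x : ℝ) : ℂ) - Real.pi * I := by
      simp only [Table.angOut, Table.angIn]; push_cast; ring
    rw [this, Complex.exp_sub, Complex.exp_pi_mul_I]; ring
  refine ⟨⟨hw'.1, ?_, ?_⟩, ⟨hw.1, ?_, ?_⟩, t, ht, ?_, ?_, ?_⟩
  · simp only; linarith [hw'.2.2]
  · simp only; linarith [hw'.2.1]
  · simp only; linarith [hw.2.2]
  · simp only; linarith [hw.2.1]
  · rw [e1, hdir]
    simp only
    rw [hpos]; ring
  · rw [e1, e2, hdir]
  · intro u hu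
    rw [e1, hdir]
    simp only
    rw [hpos]
    have : Y.pos i w.1 + t * Y.dir (i, w) + u * -Y.dir (i, w) =
        Y.pos i w.1 + ((t - u : ℝ) : ℂ) * Y.dir (i, w) := by push_cast; ring
    rw [this]
    exact hin (t - u) ⟨by linarith [hu.2], by linarith [hu.1]⟩

end Good

end Pool.Agent.Lib.MP_19d7db_an
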