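import Pool.Agent.Lib.MP_19d7db_an.Null

/-!
# Hyperbolicity of semi-dispersive convex polygons without adjacent neutral sides
-/

open Complex Set Filter Topology MeasureTheory

namespace Pool.Agent.Lib.MP_19d7db_an

variable {n : ℕ}

/-- The constant cone `{ds dθ ≤ 0}`. -/
lemma mem_cone_iff (v : ℝ × ℝ) : v ∈ cone ((1 : ℝ), (0 : ℝ)) ((0 : ℝ), (-1 : ℝ)) ↔
    v.1 * v.2 ≤ 0 := by
  constructor
  · rintro ⟨a, b, hab, rfl⟩
    simp
    linarith
  · intro h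
    refine ⟨v.1, -v.2, by linarith, ?_⟩
    ext <;> simp

lemma mem_interior_cone {v : ℝ × ℝ} (h : v.1 * v.2 < 0) :
    v ∈ interior (cone ((1 : ℝ), (0 : ℝ)) ((0 : ℝ), (-1 : ℝ))) := by
  rw [mem_interior]
  refine ⟨{v : ℝ × ℝ | v.1 * v.2 < 0}, ?_, ?_, h⟩
  · intro u hu
    rw [mem_cone_iff]
    exact le_of_lt hu
  · exact isOpen_lt (continuous_fst.mul continuous_snd) continuous_const

/-- The linear relations satisfied by the derivative at a collision. -/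
structure Rel (S S' κ κ' t : ℝ) (A : ℝ × ℝ →L[ℝ] ℝ × ℝ) : Prop where
  hS : 0 < S
  hS' : 0 < S'
  hκ : 0 ≤ κ
  hκ' : 0 ≤ κ'
  ht : 0 < t
  h1 : ∀ v, S' * (A v).1 = -(S * v.1) + t * (v.2 - κ * v.1)
  h2 : ∀ v, (A v).2 = -(κ' * (A v).1) - (v.2 - κ * v.1)

namespace Rel

variable {S S' κ κ' t : ℝ} {A : ℝ × ℝ →L[ℝ] ℝ × ℝ} (h : Rel S S' κ κ' t A)

include h

/-- Sign analysis in the sector `v.1 ≥ 0 ≥ v.2`. -/
lemma sector {v : ℝ × ℝ} (h1 : 0 ≤ v.1) (h2 : v.2 ≤ 0) :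
    (A v).1 ≤ 0 ∧ 0 ≤ (A v).2 ∧ (v ≠ 0 → (A v).1 < 0) ∧
      (v ≠ 0 → (0 < κ ∨ 0 < κ' ∨ v.2 < 0) → 0 < (A v).2) := by
  have e1 := h.h1 v
  have e2 := h.h2 v
  have hS := h.hS
  have hS' := h.hS'
  have hκ := h.hκ
  have hκ' := h.hκ'
  have ht := h.ht
  set a := (A v).1
  set b := (A v).2
  have hα : v.2 - κ * v.1 ≤ 0 := by nlinarith [mul_nonneg hκ h1]
  have hStv : 0 ≤ S * v.1 := mul_nonneg hS.le h1
  have htα : t * (v.2 - κ * v.1) ≤ 0 := by nlinarith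
  have ha : a ≤ 0 := by
    by_contra hcon
    push Not at hcon
    have := mul_pos hS' hcon
    linarith
  have hb : 0 ≤ b := by
    have := mul_nonneg hκ' (neg_nonneg.2 ha)
    linarith
  have hane : v ≠ 0 → a < 0 := by
    intro hv
    by_contra hcon
    have ha0 : a = 0 := by linarith
    rw [ha0, mul_zero] at e1
    have h3 : S * v.1 = 0 := by linarith
    have h4 : v.1 = 0 := (mul_eq_zero.1 h3).resolve_left hS.ne'
    have h5 : t * (v.2 - κ * v.1) = 0 := by linarith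
    have h6 : v.2 - κ * v.1 = 0 := (mul_eq_zero.1 h5).resolve_left ht.ne'
    rw [h4, mul_zero, sub_zero] at h6
    exact hv (Prod.ext h4 h6)
  refine ⟨ha, hb, hane, ?_⟩
  intro hv hk
  have ha0 := hane hv
  rcases hk with hk | hk | hk
  · have h3 : v.2 - κ * v.1 < 0 := by
      rcases h1.eq_or_lt with h4 | h4
      · have h5 : v.2 < 0 := by
          apply lt_of_le_of_ne h2
          intro h6
          exact hv (Prod.ext h4.symm h6)
        rw [← h4]; linarith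
      · have := mul_pos hk h4; linarith
    have := mul_nonneg hκ' (neg_nonneg.2 ha)
    linarith
  · have := mul_pos hk (neg_pos.2 ha0)
    linarith
  · have h3 : v.2 - κ * v.1 < 0 := by nlinarith [mul_nonneg hκ h1]
    have := mul_nonneg hκ' (neg_nonneg.2 ha)
    linarith

lemma cone_map {v : ℝ × ℝ} (hv : v.1 * v.2 ≤ 0) : (A v).1 * (A v).2 ≤ 0 := by
  rcases mul_nonpos_iff.1 hv with ⟨h1, h2⟩ | ⟨h1, h2⟩
  · obtain ⟨a1, a2, -, -⟩ := h.sector h1 h2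
    exact mul_nonpos_of_nonpos_of_nonneg a1 a2
  · obtain ⟨a1, a2, -, -⟩ := h.sector (v := -v) (by simpa using h1) (by simpa using h2)
    rw [map_neg] at a1 a2
    simp only [Prod.fst_neg, Prod.snd_neg] at a1 a2
    nlinarith

lemma map_ne {v : ℝ × ℝ} (hv : v.1 * v.2 ≤ 0) (hv0 : v ≠ 0) : A v ≠ 0 := by
  intro hA
  rcases mul_nonpos_iff.1 hv with ⟨h1, h2⟩ | ⟨h1, h2⟩
  · obtain ⟨-, -, a3, -⟩ := h.sector h1 h2
    have := a3 hv0
    rw [hA] at this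
    exact lt_irrefl _ this
  · obtain ⟨-, -, a3, -⟩ := h.sector (v := -v) (by simpa using h1) (by simpa using h2)
    have := a3 (neg_ne_zero.2 hv0)
    rw [map_neg, hA, neg_zero] at this
    exact lt_irrefl _ this

lemma strict_of_kappa (hk : 0 < κ ∨ 0 < κ') {v : ℝ × ℝ} (hv : v.1 * v.2 ≤ 0) (hv0 : v ≠ 0) :
    (A v).1 * (A v).2 < 0 := by
  have hk' : ∀ u : ℝ × ℝ, 0 < κ ∨ 0 < κ' ∨ u.2 < 0 := by
    intro u
    rcases hk with hk | hk
    · exact Or.inl hk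
    · exact Or.inr (Or.inl hk)
  rcases mul_nonpos_iff.1 hv with ⟨h1, h2⟩ | ⟨h1, h2⟩
  · obtain ⟨-, -, a3, a4⟩ := h.sector h1 h2
    exact mul_neg_of_neg_of_pos (a3 hv0) (a4 hv0 (hk' _))
  · obtain ⟨-, -, a3, a4⟩ := h.sector (v := -v) (by simpa using h1) (by simpa using h2)
    have b3 := a3 (neg_ne_zero.2 hv0)
    have b4 := a4 (neg_ne_zero.2 hv0) (hk' _)
    rw [map_neg] at b3 b4
    simp only [Prod.fst_neg, Prod.snd_neg] at b3 b4
    nlinarith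

end Rel

namespace Good

variable {Y : Table n} {δ C η : ℝ} (hg : Good Y δ C η)

include hg

/-- The derivative relations hold for every derivative of the billiard map. -/
lemma rel_of_isDeriv [NeZero n] {z z' : ZMod n × ℝ × ℝ} {A : ℝ × ℝ →L[ℝ] ℝ × ℝ}
    (h : Y.IsDeriv z z' A) :
    ∃ t, Rel (Real.sin z.2.2) (Real.sin z'.2.2) (Y.κ z.1) (Y.κ z'.1) t A := by
  obtain ⟨i, w⟩ := z
  obtain ⟨j, w'⟩ := z'
  obtain ⟨F, hF0, hFd, hF⟩ := h
  simp only at hF0 hFd hF ⊢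
  have hh : Y.Hit (i, w) (j, w') := by
    have := hF.self_of_nhds
    rwa [hF0] at this
  obtain ⟨G, B, t, ht, hGw, hGd, hG, hB⟩ := hg.hit_local hh
  have hFG : F =ᶠ[𝓝 w] G := by
    filter_upwards [hF, hG] with u h1 h2
    exact hg.hit_unique h1 h2
  have hAB : A = B := hFd.unique (hFG.hasFDerivAt_iff.2 hGd)
  refine ⟨t, hg.sin_pos_of_phase hh.1, hg.sin_pos_of_phase hh.2.1, hg.kappa_nonneg _,
    hg.kappa_nonneg _, ht, ?_, ?_⟩
  · intro v; rw [hAB]; exact (hB v).1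
  · intro v; rw [hAB]; exact (hB v).2

lemma exists_isDeriv [NeZero n] {z z' : ZMod n × ℝ × ℝ} (h : Y.Hit z z') :
    ∃ A, Y.IsDeriv z z' A := by
  obtain ⟨i, w⟩ := z
  obtain ⟨j, w'⟩ := z'
  obtain ⟨G, B, t, ht, hGw, hGd, hG, hB⟩ := hg.hit_local h
  exact ⟨B, G, hGw, hGd, hG⟩

/-- An orbit which does not stay on neutral sides has an iterate with strictly invariant cone. -/
lemma exists_strict [NeZero n] : ∀ (N : ℕ) (z : ZMod n × ℝ × ℝ), Reach Y (N + 1) z →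
    ¬ NC Y N z → ∃ k z' A, Y.Iter k z z' A ∧
      ∀ v : ℝ × ℝ, v.1 * v.2 ≤ 0 → v ≠ 0 → (A v).1 * (A v).2 < 0 := by
  have one : ∀ z z' : ZMod n × ℝ × ℝ, z.1 ∈ Y.D → Y.Hit z z' → ∃ k z' A, Y.Iter k z z' A ∧
      ∀ v : ℝ × ℝ, v.1 * v.2 ≤ 0 → v ≠ 0 → (A v).1 * (A v).2 < 0 := by
    intro z z' hz hh
    obtain ⟨A, hA⟩ := hg.exists_isDeriv hh
    obtain ⟨t, hR⟩ := hg.rel_of_isDeriv hA
    refine ⟨1, z', A, ⟨z', A, ContinuousLinearMap.id ℝ (ℝ × ℝ), hA, ⟨rfl, rfl⟩, ?_⟩, ?_⟩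
    · rw [ContinuousLinearMap.id_comp]
    · intro v hv hv0
      exact hR.strict_of_kappa (Or.inl (hg.kappa_pos hz)) hv hv0
  intro N
  induction N with
  | zero =>
    intro z hr hn
    obtain ⟨z', hh, -⟩ := hr
    have hz : z.1 ∈ Y.D := by
      by_contra hcon
      exact hn ⟨[], rfl, hcon⟩
    exact one z z' hz hh
  | succ N ih =>
    intro z hr hn
    obtain ⟨z', hh, hr'⟩ := hr
    by_cases hz : z.1 ∈ Y.D
    · exact one z z' hz hh
    have hn' : ¬ NC Y N z' := by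
      rintro ⟨L, hL, hp⟩
      exact hn ⟨z'.1 :: L, by simp [hL], hz, z'.2, hh, hp⟩
    obtain ⟨k, z'', A', hA', hs⟩ := ih z' hr' hn'
    obtain ⟨A, hA⟩ := hg.exists_isDeriv hh
    obtain ⟨t, hR⟩ := hg.rel_of_isDeriv hA
    refine ⟨k + 1, z'', A'.comp A, ⟨z', A, A', hA, hA', rfl⟩, ?_⟩
    intro v hv hv0
    exact hs (A v) (hR.cone_map hv) (hR.map_ne hv hv0)

/-- Criterion: if for every base point on a neutral side almost no direction gives an orbit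
which only hits neutral sides, then the table is hyperbolic. -/
theorem hyperbolic_of_null [NeZero n]
    (hnull : ∀ i s, volume {θ : ℝ | (s, θ) ∈ Y.Phase i ∧ ∀ N, NC Y N (i, (s, θ))} = 0) :
    Y.Hyperbolic := by
  refine ⟨fun _ => (1, 0), fun _ => (0, -1), fun _ => measurable_const, fun _ => measurable_const,
    fun _ => by norm_num, ?_⟩
  intro i
  have h1 := ae_all_iff.2 fun k => hg.ae_reach k i
  have h2 : ∀ᵐ w : ℝ × ℝ, ¬ (w ∈ Y.Phase i ∧ ∀ N, NC Y N (i, w)) := by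
    rw [ae_iff]
    simpa only [not_not] using hg.null_survivors i (hnull i)
  filter_upwards [h1, h2] with w h1 h2 hw
  have h3 : ∃ N, ¬ NC Y N (i, w) := by
    by_contra hcon
    push Not at hcon
    exact h2 ⟨hw, hcon⟩
  obtain ⟨N, hN⟩ := h3
  refine ⟨?_, ?_, ?_⟩
  · obtain ⟨z', hh, -⟩ := h1 1 hw
    obtain ⟨A, hA⟩ := hg.exists_isDeriv hh
    exact ⟨z', A, hA⟩
  · intro z' A hA v hv
    obtain ⟨t, hR⟩ := hg.rel_of_isDeriv hA
    rw [mem_cone_iff] at hv ⊢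
    exact hR.cone_map hv
  · obtain ⟨k, z', A, hA, hs⟩ := hg.exists_strict N (i, w) (h1 (N + 1) hw) hN
    refine ⟨k, z', A, hA, fun v hv hv0 => ?_⟩
    rw [mem_cone_iff] at hv
    exact mem_interior_cone (hs v hv hv0)

theorem hyperbolic [NeZero n] (hadj : ∀ i, i ∈ Y.D ∨ i + 1 ∈ Y.D) : Y.Hyperbolic := by
  obtain ⟨c, d, d0, hK⟩ := hg.exists_consts hadj
  exact hg.hyperbolic_of_null fun i s => hg.null_directions hK i s

end Good

/-- Convex polygons with large radii satisfy the quantitative hypotheses. -/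
theorem exists_good (hn : 3 ≤ n) (p : ZMod n → ℂ)
    (hconv : ∀ i j, j ≠ i → j ≠ i + 1 → 0 < cr (p (i + 1) - p i) (p j - p i))
    (D : Set (ZMod n)) : ∃ R : ℝ, ∀ ρ : ZMod n → ℝ, (∀ k ∈ D, R ≤ ρ k) →
      ∃ δ C η, Good (Table.mk p D ρ) δ C η := by
  have : NeZero n := ⟨by omega⟩
  -- lower bound for the areas
  have hδ : ∃ δ, 0 < δ ∧ ∀ i j, j ≠ i → j ≠ i + 1 → δ ≤ cr (p (i + 1) - p i) (p j - p i) := by
    have key : ∀ x : ZMod n × ZMod n, ∃ δ, 0 < δ ∧ (x.2 ≠ x.1 → x.2 ≠ x.1 + 1 →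
        δ ≤ cr (p (x.1 + 1) - p x.1) (p x.2 - p x.1)) := by
      intro x
      by_cases h : x.2 ≠ x.1 ∧ x.2 ≠ x.1 + 1
      · exact ⟨_, hconv x.1 x.2 h.1 h.2, fun _ _ => le_rfl⟩
      · exact ⟨1, one_pos, fun h1 h2 => absurd ⟨h1, h2⟩ h⟩
    choose δ hδ0 hδ using key
    refine ⟨Finset.univ.inf' Finset.univ_nonempty δ, ?_, ?_⟩
    · rw [Finset.lt_inf'_iff]; exact fun k _ => hδ0 k
    · intro i j h1 h2
      exact (Finset.inf'_le δ (Finset.mem_univ (i, j))).trans (hδ (i, j) h1 h2)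
  obtain ⟨δ, hδ0, hδ⟩ := hδ
  -- upper bound for the lengths
  have hL : ∃ L, 0 < L ∧ ∀ i, ‖p (i + 1) - p i‖ ≤ L := by
    refine ⟨∑ i, ‖p (i + 1) - p i‖ + 1, ?_, ?_⟩
    · have : 0 ≤ ∑ i, ‖p (i + 1) - p i‖ := Finset.sum_nonneg fun _ _ => norm_nonneg _
      linarith
    · intro i
      have := Finset.single_le_sum (f := fun i => ‖p (i + 1) - p i‖)
        (fun i _ => norm_nonneg _) (Finset.mem_univ i)
      linarith
  obtain ⟨L, hL0, hL⟩ := hL
  set C := L ^ 2 with hC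
  have hC0 : 0 < C := by positivity
  set η := min 1 (δ / (4 * C)) with hη
  have hη0 : 0 < η := lt_min one_pos (by positivity)
  have hη1 : η ≤ 1 := min_le_left _ _
  have hη2 : η ≤ δ / (4 * C) := min_le_right _ _
  refine ⟨L / (2 * η) + L, fun ρ hρ => ⟨δ, C, η, ?_⟩⟩
  have hR : ∀ k ∈ D, L / (2 * η) + L ≤ ρ k := hρ
  have hq : 0 < L / (2 * η) := by positivity
  refine ⟨hn, hδ0, hδ, ?_, hη0, hη1, ?_, ?_, ?_⟩
  · intro i j
    change ‖p (i + 1) - p i‖ * ‖p (j + 1) - p j‖ ≤ C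
    have h1 := hL i
    have h2 := hL j
    rw [hC, pow_two]
    exact mul_le_mul h1 h2 (norm_nonneg _) hL0.le
  · rw [le_div_iff₀ (by positivity)] at hη2
    linarith
  · intro k hk
    change ‖p (k + 1) - p k‖ < 2 * ρ k
    have h1 := hL k
    have h2 := hR k hk
    linarith
  · intro k hk
    change ‖p (k + 1) - p k‖ ≤ 2 * η * √(ρ k ^ 2 - (‖p (k + 1) - p k‖ / 2) ^ 2)
    have h1 := hL k
    have h2 := hR k hk
    have h3 := norm_nonneg (p (k + 1) - p k)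
    set l := ‖p (k + 1) - p k‖
    have h4 : L / (2 * η) ≤ √(ρ k ^ 2 - (l / 2) ^ 2) := by
      apply Real.le_sqrt_of_sq_le
      have h5 : (L / (2 * η) + L) ^ 2 ≤ ρ k ^ 2 := pow_le_pow_left₀ (by positivity) h2 2
      nlinarith [mul_pos hq hL0]
    have h5 : 2 * η * (L / (2 * η)) = L := by field_simp
    calc l ≤ L := h1
      _ = 2 * η * (L / (2 * η)) := h5.symm
      _ ≤ _ := mul_le_mul_of_nonneg_left h4 (by positivity)

end Pool.Agent.Lib.MP_19d7db_an
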