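import Pool.Agent.Lib.MP_19d7db_an.Main

/-!
# Neutral sides whose inner half-planes contain a common open sector

If the inner half-planes of the neutral sides contain a common direction `u` in their interiors,
the component of the velocity in the direction `u` grows at every neutral collision, so that
neutral chains have bounded length.
-/

open Complex Set Filter Topology MeasureTheory

namespace Pool.Agent.Lib.MP_19d7db_an

variable {n : ℕ}

lemma abs_cr_le_of_unit {v a b : ℂ} (hv : ‖v‖ = 1) :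
    |cr a b| ≤ |cr v b| * ‖a‖ + |cr v a| * ‖b‖ := by
  have h1 : dt v v = 1 := by rw [dt_self, hv]; norm_num
  have h2 : cr a b = cr v b * dt v a - cr v a * dt v b := by
    have : cr a b * dt v v = cr v b * dt v a - cr v a * dt v b := by
      simp only [cr, dt]; ring
    rwa [h1, mul_one] at this
  have h3 := abs_dt_le v a
  have h4 := abs_dt_le v b
  rw [hv, one_mul] at h3 h4
  calc |cr a b| = |cr v b * dt v a - cr v a * dt v b| := by rw [← h2]
    _ ≤ |cr v b * dt v a| + |cr v a * dt v b| := abs_sub _ _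
    _ = |cr v b| * |dt v a| + |cr v a| * |dt v b| := by rw [abs_mul, abs_mul]
    _ ≤ |cr v b| * ‖a‖ + |cr v a| * ‖b‖ :=
        add_le_add (mul_le_mul_of_nonneg_left h3 (abs_nonneg _))
          (mul_le_mul_of_nonneg_left h4 (abs_nonneg _))

namespace Good

variable {Y : Table n} {δ C η : ℝ} (hg : Good Y δ C η)

include hg

/-- The change of the velocity component in the direction `u` at a neutral collision. -/
lemma momentum {i j : ZMod n} (hj : j ∉ Y.D) {w w' : ℝ × ℝ} (h : Y.Hit (i, w) (j, w')) (u : ℂ) :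
    dt (Y.dir (j, w')) u = dt (Y.dir (i, w)) u +
      2 * Real.sin w'.2 * (cr (Y.e j) u / Y.ℓ j) := by
  obtain ⟨-, -, t, -, -, hdir, -⟩ := h
  rw [← hdir]
  have hℓ := hg.ell_pos j
  have h1 : cr (Y.e j) u / Y.ℓ j = cr (Y.e j / Y.ℓ j) u := by
    rw [hg.cr_e_eq hj 0, hg.tan_N hj, mul_div_cancel_left₀ _ hℓ.ne']
  rw [h1, Table.dir, Table.dirIn, hg.tan_N hj]
  have e1 : exp (I * (w'.2 : ℂ)) = (Real.cos w'.2 : ℂ) + (Real.sin w'.2 : ℂ) * I := by
    rw [mul_comm, Complex.exp_mul_I]; push_cast; ring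
  have e2 : exp (-(I * (w'.2 : ℂ))) = (Real.cos w'.2 : ℂ) - (Real.sin w'.2 : ℂ) * I := by
    have : -(I * (w'.2 : ℂ)) = (-(w'.2 : ℂ)) * I := by ring
    rw [this, Complex.exp_mul_I, Complex.cos_neg, Complex.sin_neg]; push_cast; ring
  simp only
  rw [e1, e2]
  set T := Y.e j / Y.ℓ j
  simp only [dt, cr, mul_re, mul_im, add_re, add_im, sub_re, sub_im, ofReal_re, ofReal_im, I_re,
    I_im]
  ring

/-- A flight between two neutral sides is not almost parallel to both of them. -/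
lemma sines {i j : ZMod n} (hi : i ∉ Y.D) (hj : j ∉ Y.D) {w w' : ℝ × ℝ}
    (h : Y.Hit (i, w) (j, w')) :
    |cr (Y.e i) (Y.e j)| ≤ Y.ℓ i * Y.ℓ j * (Real.sin w.2 + Real.sin w'.2) := by
  obtain ⟨hw, hw', t, -, -, hdir, -⟩ := h
  simp only at hw hw' hdir
  have h1 := hg.sin_pos_of_phase hw
  have h2 := hg.sin_pos_of_phase hw'
  have hℓi := hg.ell_pos i
  have hℓj := hg.ell_pos j
  have h3 := abs_cr_le_of_unit (a := Y.e i) (b := Y.e j) (hg.norm_dir (i, w))
  have h4 : |cr (Y.dir (i, w)) (Y.e i)| = Y.ℓ i * Real.sin w.2 := by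
    rw [cr_comm, abs_neg, hg.cr_e_eq hi w.1, hg.cr_tan_dir, abs_of_pos (mul_pos hℓi h1)]
  have h5 : |cr (Y.dir (i, w)) (Y.e j)| = Y.ℓ j * Real.sin w'.2 := by
    rw [← hdir, cr_comm, abs_neg, hg.cr_e_eq hj w'.1, hg.cr_tan_dirIn, mul_neg, abs_neg,
      abs_of_pos (mul_pos hℓj h2)]
  rw [h4, h5] at h3
  calc _ ≤ _ := h3
    _ = _ := by change Y.ℓ j * _ * Y.ℓ i + Y.ℓ i * _ * Y.ℓ j = _; ring

/-- Two different sides of a strictly convex polygon with a common inner direction are not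
parallel. -/
lemma cr_e_ne {i j : ZMod n} (hij : i ≠ j) {u : ℂ} (hi : 0 < cr (Y.e i) u)
    (hj : 0 < cr (Y.e j) u) : cr (Y.e i) (Y.e j) ≠ 0 := by
  intro h0
  -- `e j` is a positive multiple of `e i`
  have hne := hg.e_ne i
  have hu2 : 0 < ‖Y.e i‖ ^ 2 := by have := norm_pos_iff.2 hne; positivity
  have key : ∀ x : ℂ, dt (Y.e i) (Y.e i) * cr (Y.e j) x = dt (Y.e i) (Y.e j) * cr (Y.e i) x := by
    intro x
    have h1 : dt (Y.e i) (Y.e i) * cr (Y.e j) x - dt (Y.e i) (Y.e j) * cr (Y.e i) x =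
        -(cr (Y.e i) (Y.e j)) * dt (Y.e i) x := by
      simp only [dt, cr]; ring
    rw [h0] at h1
    linarith
  rw [dt_self] at key
  have ht : 0 < dt (Y.e i) (Y.e j) := by
    have h1 := key u
    by_contra hcon
    push Not at hcon
    nlinarith [mul_pos hu2 hj]
  have a1 : 0 ≤ Y.f i (Y.p j) := hg.f_vertex_nonneg i j
  have a2 : 0 ≤ Y.f j (Y.p i) := hg.f_vertex_nonneg j i
  have a3 : 0 ≤ Y.f i (Y.p (j + 1)) := hg.f_vertex_nonneg i (j + 1)
  have e1 : ‖Y.e i‖ ^ 2 * Y.f j (Y.p i) = -(dt (Y.e i) (Y.e j) * Y.f i (Y.p j)) := by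
    rw [Table.f, Table.f, key, show Y.p i - Y.p j = (-1 : ℝ) * (Y.p j - Y.p i) by push_cast; ring,
      cr_smul_right]
    ring
  have e2 : Y.f i (Y.p (j + 1)) = Y.f i (Y.p j) := by
    have : Y.p (j + 1) = Y.p j + (1 : ℝ) * Y.e j := by simp [Table.e]
    rw [this, Y.f_add, h0]; ring
  have hz : Y.f i (Y.p j) = 0 := by
    have b1 : 0 ≤ ‖Y.e i‖ ^ 2 * Y.f j (Y.p i) := mul_nonneg hu2.le a2
    have b2 : 0 ≤ dt (Y.e i) (Y.e j) * Y.f i (Y.p j) := mul_nonneg ht.le a1
    have b3 : dt (Y.e i) (Y.e j) * Y.f i (Y.p j) = 0 := by linarith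
    rcases mul_eq_zero.1 b3 with h | h
    · exact absurd h ht.ne'
    · exact h
  have c1 : j = i + 1 := by
    by_contra hcon
    have := hg.f_far (m := i) (j := j) hij.symm hcon
    have := hg.hδ
    linarith
  have c2 : j + 1 ≠ i := by rw [c1]; exact succ_succ_ne hg.hn i
  have c3 : j + 1 ≠ i + 1 := by
    intro h; exact hij (add_right_cancel h).symm
  have := hg.f_far (m := i) (j := j + 1) c2 c3
  have := hg.hδ
  linarith

/-- Neutral chains are bounded if the inner half-planes of the neutral sides have a common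
interior direction. -/
theorem bounded_chains [NeZero n] {u : ℂ} (hu : ∀ i, i ∉ Y.D → 0 < cr (Y.e i) u) :
    ∃ N : ℕ, ∀ z : ZMod n × ℝ × ℝ, ¬ NC Y N z := by
  -- constants
  have hc : ∃ c, 0 < c ∧ ∀ i j, i ∉ Y.D → j ∉ Y.D → i ≠ j →
      c * (Y.ℓ i * Y.ℓ j) ≤ |cr (Y.e i) (Y.e j)| := by
    have key : ∀ x : ZMod n × ZMod n, ∃ c, 0 < c ∧ (x.1 ∉ Y.D → x.2 ∉ Y.D → x.1 ≠ x.2 →
        c * (Y.ℓ x.1 * Y.ℓ x.2) ≤ |cr (Y.e x.1) (Y.e x.2)|) := by
      intro x
      by_cases h : x.1 ∉ Y.D ∧ x.2 ∉ Y.D ∧ x.1 ≠ x.2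
      · have h1 := hg.cr_e_ne h.2.2 (hu _ h.1) (hu _ h.2.1)
        have h2 := hg.ell_pos x.1
        have h3 := hg.ell_pos x.2
        have h4 := abs_pos.2 h1
        refine ⟨|cr (Y.e x.1) (Y.e x.2)| / (Y.ℓ x.1 * Y.ℓ x.2), by positivity, fun _ _ _ => ?_⟩
        rw [div_mul_cancel₀ _ (by positivity)]
      · exact ⟨1, one_pos, fun a b c => absurd ⟨a, b, c⟩ h⟩
    choose c hc0 hc using key
    refine ⟨Finset.univ.inf' Finset.univ_nonempty c, ?_, ?_⟩
    · rw [Finset.lt_inf'_iff]; exact fun k _ => hc0 k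
    · intro i j h1 h2 h3
      have h4 := hc (i, j) h1 h2 h3
      have h5 := Finset.inf'_le c (Finset.mem_univ (i, j))
      have h6 := hg.ell_pos i
      have h7 := hg.ell_pos j
      exact (mul_le_mul_of_nonneg_right h5 (by positivity)).trans h4
  have ha : ∃ a, 0 < a ∧ ∀ i, i ∉ Y.D → a ≤ cr (Y.e i) u / Y.ℓ i := by
    have key : ∀ i : ZMod n, ∃ a, 0 < a ∧ (i ∉ Y.D → a ≤ cr (Y.e i) u / Y.ℓ i) := by
      intro i
      by_cases h : i ∉ Y.D
      · exact ⟨cr (Y.e i) u / Y.ℓ i, div_pos (hu i h) (hg.ell_pos i), fun _ => le_rfl⟩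
      · exact ⟨1, one_pos, fun h' => absurd h' h⟩
    choose a ha0 ha using key
    refine ⟨Finset.univ.inf' Finset.univ_nonempty a, ?_, ?_⟩
    · rw [Finset.lt_inf'_iff]; exact fun k _ => ha0 k
    · intro i h
      exact (Finset.inf'_le a (Finset.mem_univ i)).trans (ha i h)
  obtain ⟨c, hc0, hc⟩ := hc
  obtain ⟨a, ha0, ha⟩ := ha
  have step : ∀ (N : ℕ) (L : List (ZMod n)) (z : ZMod n × ℝ × ℝ), L.length = 2 * N →
      Path Y L z → dt (Y.dir z) u + 2 * a * c * N ≤ ‖u‖ := by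
    intro N
    induction N with
    | zero =>
      intro L z _ _
      have := (le_abs_self _).trans (abs_dt_le (Y.dir z) u)
      rw [hg.norm_dir, one_mul] at this
      simpa using this
    | succ N ih =>
      intro L z hL hp
      match L, hL, hp with
      | j :: k :: L, hL, hp =>
        obtain ⟨i, w⟩ := z
        obtain ⟨hi, w1, hh, hj, w2, hh', hp2⟩ := hp
        simp only at hi hj
        have hk : k ∉ Y.D := hp2.neutral
        have h1 := hg.momentum hj hh u
        have h2 := hg.momentum hk hh' u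
        have h3 := ih L (k, w2) (by simp at hL; omega) hp2
        have hjk : j ≠ k := fun h => hg.hit_ne hh' ⟨h, hj⟩
        have h4 := (hc j k hj hk hjk).trans (hg.sines hj hk hh')
        have h5 := hg.ell_pos j
        have h6 := hg.ell_pos k
        have h7 : c ≤ Real.sin w1.2 + Real.sin w2.2 := by
          have h8 : 0 < Y.ℓ j * Y.ℓ k := by positivity
          have h9 : c * (Y.ℓ j * Y.ℓ k) ≤ (Real.sin w1.2 + Real.sin w2.2) * (Y.ℓ j * Y.ℓ k) := by
            rw [mul_comm (Real.sin w1.2 + Real.sin w2.2)]; exact h4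
          exact le_of_mul_le_mul_right h9 h8
        have s1 := hg.sin_pos_of_phase hh.2.1
        have s2 := hg.sin_pos_of_phase hh'.2.1
        simp only at s1 s2
        have b1 := mul_le_mul_of_nonneg_left (ha j hj) s1.le
        have b2 := mul_le_mul_of_nonneg_left (ha k hk) s2.le
        have b3 := mul_le_mul_of_nonneg_left h7 ha0.le
        push_cast
        nlinarith
  obtain ⟨N, hN⟩ := exists_nat_gt (‖u‖ / (a * c))
  rw [div_lt_iff₀ (by positivity)] at hN
  refine ⟨2 * N, ?_⟩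
  rintro z ⟨L, hL, hp⟩
  have h1 := step N L z hL hp
  have h2 := (neg_abs_le _).trans' (neg_le_neg (abs_dt_le (Y.dir z) u))
  rw [hg.norm_dir, one_mul] at h2
  nlinarith

theorem hyperbolic_of_direction [NeZero n] {u : ℂ} (hu : ∀ i, i ∉ Y.D → 0 < cr (Y.e i) u) :
    Y.Hyperbolic := by
  obtain ⟨N, hN⟩ := hg.bounded_chains hu
  apply hg.hyperbolic_of_null
  intro i s
  convert measure_empty (μ := (volume : Measure ℝ))
  ext θ
  simp only [Set.mem_setOf_eq, Set.mem_empty_iff_false, iff_false, not_and]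
  intro _ hall
  exact hN _ (hall N)

end Good

end Pool.Agent.Lib.MP_19d7db_an
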