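import Pool.Agent.Lib.MP_19d7db_an.Survive

/-!
# Null sets for the billiard map
-/

open Complex Set Filter Topology MeasureTheory

namespace Pool.Agent.Lib.MP_19d7db_an

variable {n : ℕ}

/-- The orbit of `z` makes at least `N` neutral hits. -/
def NC (Y : Table n) (N : ℕ) (z : ZMod n × ℝ × ℝ) : Prop := ∃ L, L.length = N ∧ Path Y L z

/-- The orbit of `z` makes at least `N` hits. -/
def Reach (Y : Table n) : ℕ → ZMod n × ℝ × ℝ → Prop
  | 0, _ => True
  | k + 1, z => ∃ z', Y.Hit z z' ∧ Reach Y k z'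

namespace Good

variable {Y : Table n} {δ C η : ℝ} (hg : Good Y δ C η)

include hg

lemma cr_dir_dir (i : ZMod n) (s θ θ' : ℝ) :
    cr (Y.dir (i, (s, θ))) (Y.dir (i, (s, θ'))) = Real.sin (θ' - θ) := by
  have h1 : dt (Y.tan i s) (Y.tan i s) = 1 := by rw [dt_self, hg.norm_tan]; norm_num
  rw [Table.dir, Table.dir]
  simp only
  have h2 : ∀ T x y : ℂ, cr (T * x) (T * y) = dt T T * cr x y := by
    intro T x y; simp only [cr, dt, mul_re, mul_im]; ring
  rw [h2, h1, one_mul, mul_comm I, mul_comm I, Real.sin_sub]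
  simp only [cr, Complex.exp_ofReal_mul_I_re, Complex.exp_ofReal_mul_I_im]
  ring

lemma dt_dir_dir (i : ZMod n) (s θ θ' : ℝ) :
    dt (Y.dir (i, (s, θ))) (Y.dir (i, (s, θ'))) = Real.cos (θ' - θ) := by
  have h1 : dt (Y.tan i s) (Y.tan i s) = 1 := by rw [dt_self, hg.norm_tan]; norm_num
  rw [Table.dir, Table.dir]
  simp only
  have h2 : ∀ T x y : ℂ, dt (T * x) (T * y) = dt T T * dt x y := by
    intro T x y; simp only [dt, mul_re, mul_im]; ring
  rw [h2, h1, one_mul, mul_comm I, mul_comm I, Real.cos_sub]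
  simp only [dt, Complex.exp_ofReal_mul_I_re, Complex.exp_ofReal_mul_I_im]
  ring

/-- For every base point the set of surviving directions is a null set. -/
theorem null_directions [NeZero n] {c d d0 : ℝ} (hK : Consts Y c d d0) (i : ZMod n) (s : ℝ) :
    volume {θ : ℝ | (s, θ) ∈ Y.Phase i ∧ ∀ N, NC Y N (i, (s, θ))} = 0 := by
  set A : Set ℝ := {θ : ℝ | (s, θ) ∈ Y.Phase i ∧ ∀ N, NC Y N (i, (s, θ))} with hA
  by_contra hvol
  have hc := hK.hc
  have hd := hK.hd
  have hd0 := hK.hd0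
  have hdens := Besicovitch.ae_tendsto_measure_inter_div (volume : Measure ℝ) A
  have hne : (ae ((volume : Measure ℝ).restrict A)).NeBot := ae_restrict_neBot.2 hvol
  obtain ⟨x, hx⟩ := hdens.exists
  obtain ⟨M, hM⟩ := exists_nat_ge (max 4 ((8 * d ^ 2 / d0 + 4 * d) / c))
  have hM4 : (4 : ℝ) ≤ M := (le_max_left _ _).trans hM
  have hMc : (8 * d ^ 2 / d0 + 4 * d) / c ≤ M := (le_max_right _ _).trans hM
  have hM0 : (0 : ℝ) < M := by linarith
  have h1 : ∀ᶠ r in 𝓝[>] (0 : ℝ), ENNReal.ofReal (1 - 1 / M) <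
      volume (A ∩ Metric.closedBall x r) / volume (Metric.closedBall x r) := by
    apply hx.eventually (lt_mem_nhds _)
    rw [← ENNReal.ofReal_one]
    apply (ENNReal.ofReal_lt_ofReal_iff one_pos).2
    have : 0 < 1 / (M : ℝ) := by positivity
    linarith
  have h2 : ∀ᶠ r in 𝓝[>] (0 : ℝ), r ∈ Ioo (0 : ℝ) (1 / 2) := Ioo_mem_nhdsGT (by norm_num)
  obtain ⟨r, hr1, hr0, hr2⟩ := (h1.and h2).exists
  have hpM : 0 < 2 * r / M := by positivity
  -- no gaps
  have hgap : ∀ m : ℕ, m < M → ∃ θ ∈ A, x - r + 2 * r / M * m ≤ θ ∧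
      θ ≤ x - r + 2 * r / M * (m + 1) := by
    intro m hm
    by_contra hcon
    push Not at hcon
    set a := x - r + 2 * r / M * m with ha
    set b := x - r + 2 * r / M * (m + 1) with hb
    have hm1 : (m : ℝ) + 1 ≤ M := by exact_mod_cast hm
    have hab : b - a = 2 * r / M := by rw [ha, hb]; ring
    have hdisj : Disjoint (A ∩ Metric.closedBall x r) (Icc a b) := by
      rw [Set.disjoint_left]
      intro θ hθ hθ'
      have := hcon θ hθ.1 hθ'.1
      linarith [hθ'.2]
    have hsub : A ∩ Metric.closedBall x r ∪ Icc a b ⊆ Metric.closedBall x r := by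
      apply Set.union_subset Set.inter_subset_right
      rw [Real.closedBall_eq_Icc]
      apply Icc_subset_Icc
      · have : 0 ≤ 2 * r / M * m := by positivity
        linarith
      · have : 2 * r / M * (m + 1) ≤ 2 * r / M * M := mul_le_mul_of_nonneg_left hm1 hpM.le
        have h3 : 2 * r / M * M = 2 * r := by field_simp
        linarith
    have h4 := measure_mono (μ := volume) hsub
    rw [measure_union hdisj measurableSet_Icc, Real.volume_Icc, Real.volume_closedBall, hab] at h4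
    rw [Real.volume_closedBall] at hr1
    have h5 : ENNReal.ofReal (1 - 1 / M) * ENNReal.ofReal (2 * r) <
        volume (A ∩ Metric.closedBall x r) := by
      rwa [ENNReal.lt_div_iff_mul_lt] at hr1
      · left; simp only [ne_eq, ENNReal.ofReal_eq_zero, not_le]; linarith
      · left; exact ENNReal.ofReal_ne_top
    have h6 : (0 : ℝ) ≤ 1 - 1 / M := by
      rw [sub_nonneg, div_le_one hM0]; linarith
    rw [← ENNReal.ofReal_mul h6] at h5
    have h7 : ENNReal.ofReal ((1 - 1 / M) * (2 * r)) + ENNReal.ofReal (2 * r / M) <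
        volume (A ∩ Metric.closedBall x r) + ENNReal.ofReal (2 * r / M) :=
      ENNReal.add_lt_add_right ENNReal.ofReal_ne_top h5
    have h8 := h7.trans_le h4
    rw [← ENNReal.ofReal_add (by positivity) hpM.le] at h8
    have h9 : (1 - 1 / (M : ℝ)) * (2 * r) + 2 * r / M = 2 * r := by ring
    rw [h9] at h8
    exact lt_irrefl _ h8
  choose! θ hθA hθ1 hθ2 using hgap
  -- number of steps
  set N : ℕ := ⌊2 * d / (d0 * r)⌋₊ + 1 with hN
  have hN1 : 2 * d / (d0 * r) < N := by
    rw [hN]; push_cast; exact Nat.lt_floor_add_one _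
  have hN2 : (N : ℝ) ≤ 2 * d / (d0 * r) + 1 := by
    rw [hN]; push_cast
    have := Nat.floor_le (a := 2 * d / (d0 * r)) (by positivity)
    linarith
  have hcode : ∀ ϑ ∈ A, ∃ L : List (ZMod n), L.length = N ∧ Path Y L (i, (s, ϑ)) :=
    fun ϑ hϑ => hϑ.2 N
  choose! cd hcd1 hcd2 using hcode
  have hNd : (N : ℝ) * d * (4 * r / M) ≤ c := by
    have h3 : (N : ℝ) * d * (4 * r / M) ≤ (2 * d / (d0 * r) + 1) * d * (4 * r / M) := by
      apply mul_le_mul_of_nonneg_right _ (by positivity)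
      exact mul_le_mul_of_nonneg_right hN2 hd.le
    refine h3.trans ?_
    have h4 : (2 * d / (d0 * r) + 1) * d * (4 * r / M) = (8 * d ^ 2 / d0 + 4 * d * r) / M := by
      field_simp
      ring
    rw [h4, div_le_iff₀ hM0]
    rw [div_le_iff₀ hc] at hMc
    nlinarith
  have hstep : ∀ m : ℕ, m + 1 < M → cd (θ m) = cd (θ (m + 1)) := by
    intro m hm
    have hmM : m < M := by omega
    have ha := hθA m hmM
    have hb := hθA (m + 1) hm
    have b1 := hθ1 m hmM
    have b2 := hθ2 m hmM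
    have b3 := hθ1 (m + 1) hm
    have b4 := hθ2 (m + 1) hm
    push_cast at b3 b4
    have hdist0 : 0 ≤ θ (m + 1) - θ m := by linarith
    have hdist : θ (m + 1) - θ m ≤ 4 * r / M := by
      have : (x - r + 2 * r / M * ((m : ℝ) + 1 + 1)) - (x - r + 2 * r / M * m) = 4 * r / M := by
        ring
      linarith
    by_cases heq : θ (m + 1) = θ m
    · rw [heq]
    have hpos : 0 < θ (m + 1) - θ m := lt_of_le_of_ne hdist0 (fun h => heq (by linarith))
    have hsmall : 4 * r / M ≤ 1 := by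
      rw [div_le_one hM0]; linarith
    have hπ := Real.pi_gt_three
    have hsin : 0 < Real.sin (θ (m + 1) - θ m) :=
      Real.sin_pos_of_pos_of_lt_pi hpos (by linarith)
    have hcos : 0 < Real.cos (θ (m + 1) - θ m) :=
      Real.cos_pos_of_mem_Ioo ⟨by linarith, by linarith⟩
    apply hg.code_eq hK (cd (θ m)) (cd (θ (m + 1))) i (s, θ m) (s, θ (m + 1)) 0 0 0
    · rw [hcd1 _ ha, hcd1 _ hb]
    · exact ha.1
    · exact hb.1
    · exact hcd2 _ ha
    · exact hcd2 _ hb
    · exact le_rfl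
    · exact le_rfl
    · exact le_rfl
    · exact le_rfl
    · simp
    · rw [hg.cr_dir_dir]; exact hsin.ne'
    · rw [hg.dt_dir_dir]; exact hcos
    · rw [hg.cr_dir_dir, hcd1 _ ha, zero_add, abs_of_pos hsin]
      refine le_trans ?_ hNd
      apply mul_le_mul_of_nonneg_left _ (by positivity)
      exact (Real.sin_le hpos.le).trans hdist
  have hall : ∀ m : ℕ, m < M → cd (θ 0) = cd (θ m) := by
    intro m
    induction m with
    | zero => intro _; rfl
    | succ m ih => intro hm; rw [ih (by omega), hstep m hm]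
  have hMn : 4 ≤ M := by exact_mod_cast hM4
  have hl := hall (M - 1) (by omega)
  have ha := hθA 0 (by omega)
  have hb := hθA (M - 1) (by omega)
  have b2 := hθ2 0 (by omega)
  have b1 := hθ1 0 (by omega)
  have b3 := hθ1 (M - 1) (by omega)
  have b4 := hθ2 (M - 1) (by omega)
  have hcast : ((M - 1 : ℕ) : ℝ) = M - 1 := by rw [Nat.cast_sub (by omega)]; simp
  rw [hcast] at b3 b4
  push_cast at b1 b2
  have hlow : r ≤ θ (M - 1) - θ 0 := by
    have h3 : (x - r + 2 * r / M * (M - 1)) - (x - r + 2 * r / M * (0 + 1)) =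
        2 * r * ((M - 2) / M) := by field_simp; ring
    have h4 : (1 : ℝ) / 2 ≤ (M - 2) / M := by
      rw [div_le_div_iff₀ (by norm_num) hM0]; linarith
    nlinarith
  have hup : θ (M - 1) - θ 0 ≤ 1 := by
    have h3 : (x - r + 2 * r / M * (M - 1 + 1)) - (x - r + 2 * r / M * 0) = 2 * r := by
      field_simp; ring
    linarith
  have hsep := hg.sep hK.toConsts0 (cd (θ 0)) i (s, θ 0) (s, θ (M - 1)) 0 0 ha.1 hb.1 (hcd2 _ ha)
    (by rw [hl]; exact hcd2 _ hb) le_rfl (by simp)
  rw [hcd1 _ ha, hg.cr_dir_dir, zero_add] at hsep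
  have hπ := Real.pi_gt_three
  have hπ4 := Real.pi_le_four
  have hsin : (θ (M - 1) - θ 0) / 2 ≤ Real.sin (θ (M - 1) - θ 0) := by
    have h3 := Real.mul_le_sin (x := θ (M - 1) - θ 0) (by linarith) (by linarith)
    have h4 : (1 : ℝ) / 2 ≤ 2 / Real.pi := by
      rw [div_le_div_iff₀ (by norm_num) Real.pi_pos]; linarith
    have h5 : 0 ≤ θ (M - 1) - θ 0 := by linarith
    nlinarith
  have h3 : r / 2 ≤ |Real.sin (θ (M - 1) - θ 0)| := by
    have := le_abs_self (Real.sin (θ (M - 1) - θ 0))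
    linarith
  have h4 : (N : ℝ) * d0 * (r / 2) ≤ d :=
    le_trans (mul_le_mul_of_nonneg_left h3 (by positivity)) hsep
  rw [div_lt_iff₀ (by positivity)] at hN1
  nlinarith

lemma isOpen_path [NeZero n] : ∀ (L : List (ZMod n)) (i : ZMod n),
    IsOpen {w : ℝ × ℝ | w ∈ Y.Phase i ∧ Path Y L (i, w)} := by
  intro L
  induction L with
  | nil =>
    intro i
    by_cases hi : i ∈ Y.D
    · convert isOpen_empty
      ext w
      simp only [Set.mem_setOf_eq, Set.mem_empty_iff_false, iff_false, not_and]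
      intro _ h
      exact h hi
    · convert isOpen_phase (Y := Y) i using 1
      ext w
      simp only [Set.mem_setOf_eq, and_iff_left_iff_imp]
      intro _
      exact hi
  | cons j L ih =>
    intro i
    rw [isOpen_iff_mem_nhds]
    rintro w ⟨hw, hi, w1, hh, hp⟩
    obtain ⟨F, A, t, ht, hFw, hFd, hF, -⟩ := hg.hit_local hh
    have hw1 : w1 ∈ Y.Phase j := hh.2.1
    have h1 : Tendsto F (𝓝 w) (𝓝 w1) := by
      have := hFd.continuousAt.tendsto; rwa [hFw] at this
    have h2 : ∀ᶠ u in 𝓝 w, F u ∈ {w : ℝ × ℝ | w ∈ Y.Phase j ∧ Path Y L (j, w)} :=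
      h1.eventually ((ih j).mem_nhds ⟨hw1, hp⟩)
    filter_upwards [hF, h2] with u h3 h4
    exact ⟨h3.1, hi, F u, h3, h4.2⟩

theorem null_survivors [NeZero n] (i : ZMod n)
    (hnull : ∀ s, volume {θ : ℝ | (s, θ) ∈ Y.Phase i ∧ ∀ N, NC Y N (i, (s, θ))} = 0) :
    volume {w : ℝ × ℝ | w ∈ Y.Phase i ∧ ∀ N, NC Y N (i, w)} = 0 := by
  have hm : MeasurableSet {w : ℝ × ℝ | w ∈ Y.Phase i ∧ ∀ N, NC Y N (i, w)} := by
    have : {w : ℝ × ℝ | w ∈ Y.Phase i ∧ ∀ N, NC Y N (i, w)} =
        ⋂ N : ℕ, ⋃ L : {L : List (ZMod n) // L.length = N},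
          {w : ℝ × ℝ | w ∈ Y.Phase i ∧ Path Y L.1 (i, w)} := by
      ext w
      simp only [Set.mem_setOf_eq, Set.mem_iInter, Set.mem_iUnion, NC, Subtype.exists]
      constructor
      · rintro ⟨h1, h2⟩ N
        obtain ⟨L, hL, hp⟩ := h2 N
        exact ⟨L, hL, h1, hp⟩
      · intro h
        obtain ⟨L, hL, h1, hp⟩ := h 0
        refine ⟨h1, fun N => ?_⟩
        obtain ⟨L, hL, h1, hp⟩ := h N
        exact ⟨L, hL, hp⟩
    rw [this]
    apply MeasurableSet.iInter
    intro N
    exact (isOpen_iUnion fun L : {L : List (ZMod n) // L.length = N} =>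
      hg.isOpen_path L.1 i).measurableSet
  rw [Measure.volume_eq_prod, Measure.measure_prod_null hm]
  apply Eventually.of_forall
  intro s
  exact hnull s

omit hg in
/-- The reversal of the angle. -/
lemma null_rev {N : Set (ℝ × ℝ)} (hN : volume N = 0) :
    volume ((fun u : ℝ × ℝ => (u.1, Real.pi - u.2)) '' N) = 0 := by
  apply addHaar_image_eq_zero_of_differentiableOn_of_addHaar_eq_zero volume _ hN
  apply Differentiable.differentiableOn
  fun_prop

/-- Preimages of null sets are null sets. -/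
theorem null_preimage [NeZero n] (i j : ZMod n) {N : Set (ℝ × ℝ)} (hN : volume N = 0) :
    volume {w : ℝ × ℝ | ∃ w' ∈ N, Y.Hit (i, w) (j, w')} = 0 := by
  classical
  set rev : ℝ × ℝ → ℝ × ℝ := fun u : ℝ × ℝ => (u.1, Real.pi - u.2) with hrev
  set Ψ : ℝ × ℝ → ℝ × ℝ := fun u =>
    if h : ∃ x, Y.Hit (j, u) (i, x) then h.choose else 0 with hΨ
  have hΨs : ∀ u x, Y.Hit (j, u) (i, x) → Ψ u = x := by
    intro u x hx
    have hex : ∃ x, Y.Hit (j, u) (i, x) := ⟨x, hx⟩
    simp only [hΨ, hex, dif_pos]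
    exact hg.hit_unique hex.choose_spec hx
  set R : Set (ℝ × ℝ) := {u | ∃ x, Y.Hit (j, u) (i, x)} with hR
  have hdiff : DifferentiableOn ℝ Ψ (rev '' N ∩ R) := by
    rintro u ⟨-, x, hx⟩
    obtain ⟨F, A, t, ht, hFw, hFd, hF, -⟩ := hg.hit_local hx
    have h1 : Ψ =ᶠ[𝓝 u] F := by
      filter_upwards [hF] with y hy
      exact hΨs y _ hy
    exact (h1.differentiableAt_iff.2 hFd.differentiableAt).differentiableWithinAt
  have h1 : volume (rev '' N ∩ R) = 0 := measure_mono_null Set.inter_subset_left (null_rev hN)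
  have h2 := addHaar_image_eq_zero_of_differentiableOn_of_addHaar_eq_zero volume hdiff h1
  have h3 := null_rev h2
  apply measure_mono_null _ h3
  rintro w ⟨w', hw', hh⟩
  have h4 := hg.hit_rev hh
  refine ⟨rev w, ⟨rev w', ⟨⟨w', hw', rfl⟩, rev w, h4⟩, hΨs _ _ h4⟩, ?_⟩
  simp [hrev]

theorem ae_reach [NeZero n] : ∀ (k : ℕ) (i : ZMod n),
    ∀ᵐ w : ℝ × ℝ, w ∈ Y.Phase i → Reach Y k (i, w) := by
  intro k
  induction k with
  | zero => intro i; exact Eventually.of_forall fun w _ => trivial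
  | succ k ih =>
    intro i
    have h1 := hg.ae_exists_hit i
    have h2 : ∀ j, ∀ᵐ w : ℝ × ℝ, ¬ ∃ w' ∈ {w' | ¬ (w' ∈ Y.Phase j → Reach Y k (j, w'))},
        Y.Hit (i, w) (j, w') := by
      intro j
      have h3 := hg.null_preimage i j (ae_iff.1 (ih j))
      rw [ae_iff]
      simpa only [not_not] using h3
    rw [← ae_all_iff] at h2
    filter_upwards [h1, h2] with w h1 h2 hw
    obtain ⟨j, w', hh⟩ := h1 hw
    refine ⟨(j, w'), hh, ?_⟩
    by_contra hcon
    apply h2 j
    exact ⟨w', fun h => hcon (h hh.2.1), hh⟩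

end Good

end Pool.Agent.Lib.MP_19d7db_an
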