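import Pool.Agent.Lib.MP_19d7db_an.Geom

/-!
# The boundary components of a semi-dispersive convex polygon
-/

open Complex Set Filter Topology MeasureTheory

namespace Pool.Agent.Lib.MP_19d7db_an

namespace Table

variable {n : ℕ} (Y : Table n)

lemma β_D {k : ZMod n} (hk : k ∈ Y.D) : Y.β k = Real.arcsin (Y.ℓ k / (2 * Y.ρ k)) := by
  simp [β, hk]

lemma β_N {k : ZMod n} (hk : k ∉ Y.D) : Y.β k = 0 := by simp [β, hk]

lemma κ_D {k : ZMod n} (hk : k ∈ Y.D) : Y.κ k = 1 / Y.ρ k := by simp [κ, hk]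

lemma κ_N {k : ZMod n} (hk : k ∉ Y.D) : Y.κ k = 0 := by simp [κ, hk]

lemma len_D {k : ZMod n} (hk : k ∈ Y.D) : Y.len k = 2 * Y.ρ k * Y.β k := by simp [len, hk]

lemma len_N {k : ZMod n} (hk : k ∉ Y.D) : Y.len k = Y.ℓ k := by simp [len, hk]

lemma pos_D {k : ZMod n} (hk : k ∈ Y.D) (s : ℝ) : Y.pos k s =
    Y.c k + Y.ρ k * (I * (Y.e k / Y.ℓ k)) * exp (I * (Y.β k - s / Y.ρ k : ℝ)) := by
  simp [pos, hk]

lemma pos_N {k : ZMod n} (hk : k ∉ Y.D) (s : ℝ) :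
    Y.pos k s = Y.p k + s * (Y.e k / Y.ℓ k) := by simp [pos, hk]

end Table

variable {n : ℕ}

namespace Good

variable {Y : Table n} {δ C η : ℝ} (hg : Good Y δ C η)

include hg

lemma kappa_nonneg (k : ZMod n) : 0 ≤ Y.κ k := by
  by_cases hk : k ∈ Y.D
  · rw [Y.κ_D hk]; have := hg.rho_pos hk; positivity
  · rw [Y.κ_N hk]

lemma kappa_pos {k : ZMod n} (hk : k ∈ Y.D) : 0 < Y.κ k := by
  rw [Y.κ_D hk]; have := hg.rho_pos hk; positivity

lemma beta_pos {k : ZMod n} (hk : k ∈ Y.D) : 0 < Y.β k := by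
  rw [Y.β_D hk, Real.arcsin_pos]
  have := hg.rho_pos hk; have := hg.ell_pos k; positivity

lemma ratio_lt {k : ZMod n} (hk : k ∈ Y.D) : Y.ℓ k / (2 * Y.ρ k) < 1 := by
  have := hg.rho_pos hk
  rw [div_lt_one (by positivity)]
  exact hg.hρ k hk

lemma ratio_pos {k : ZMod n} (hk : k ∈ Y.D) : 0 < Y.ℓ k / (2 * Y.ρ k) := by
  have := hg.rho_pos hk; have := hg.ell_pos k; positivity

lemma beta_lt {k : ZMod n} (hk : k ∈ Y.D) : Y.β k < Real.pi / 2 := by
  rw [Y.β_D hk, Real.arcsin_lt_pi_div_two]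
  exact hg.ratio_lt hk

lemma sin_beta {k : ZMod n} (hk : k ∈ Y.D) : Y.ρ k * Real.sin (Y.β k) = Y.ℓ k / 2 := by
  rw [Y.β_D hk, Real.sin_arcsin (by linarith [hg.ratio_pos hk]) (hg.ratio_lt hk).le]
  have := hg.rho_pos hk
  field_simp

lemma cos_beta {k : ZMod n} (hk : k ∈ Y.D) : Y.ρ k * Real.cos (Y.β k) = Y.h0 k := by
  have h1 : 0 ≤ Real.cos (Y.β k) := Real.cos_nonneg_of_mem_Icc
    ⟨by linarith [hg.beta_pos hk, Real.pi_pos], (hg.beta_lt hk).le⟩
  have h2 := hg.rho_pos hk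
  have h3 := hg.h0_sq hk
  have h4 := hg.sin_beta hk
  have h5 := Real.sin_sq_add_cos_sq (Y.β k)
  have h6 : (Y.ρ k * Real.cos (Y.β k)) ^ 2 = Y.h0 k ^ 2 := by
    rw [h3, ← h4]; linear_combination Y.ρ k ^ 2 * h5
  have h7 := hg.h0_pos hk
  exact (pow_left_inj₀ (by positivity) h7.le two_ne_zero).1 h6

lemma norm_unit (k : ZMod n) : ‖Y.e k / Y.ℓ k‖ = 1 := by
  have := hg.ell_pos k
  rw [norm_div, Complex.norm_real, Real.norm_eq_abs, abs_of_pos this, ← Table.ℓ, div_self this.ne']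

lemma norm_tan (k : ZMod n) (s : ℝ) : ‖Y.tan k s‖ = 1 := by
  rw [Table.tan, norm_mul, hg.norm_unit, one_mul, mul_comm, Complex.norm_exp_ofReal_mul_I]

omit hg in
lemma pos_sub_c {k : ZMod n} (hk : k ∈ Y.D) (s : ℝ) :
    Y.pos k s - Y.c k = Y.ρ k * (I * Y.tan k s) := by
  rw [Y.pos_D hk, Table.tan, Y.κ_D hk]
  have : Y.β k - s / Y.ρ k = Y.β k - 1 / Y.ρ k * s := by ring
  rw [this]; ring

lemma norm_pos_sub_c {k : ZMod n} (hk : k ∈ Y.D) (s : ℝ) :
    ‖Y.pos k s - Y.c k‖ = Y.ρ k := by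
  rw [pos_sub_c hk, norm_mul, norm_mul, hg.norm_tan, Complex.norm_I, Complex.norm_real,
    Real.norm_eq_abs, abs_of_pos (hg.rho_pos hk)]
  ring

lemma f_arc {k : ZMod n} (hk : k ∈ Y.D) (w : ℂ) :
    Y.f k (Y.c k + Y.ρ k * (I * (Y.e k / Y.ℓ k)) * w) =
      Y.ℓ k * (Y.ρ k * w.re - Y.h0 k) := by
  have hℓ := hg.ell_pos k
  have hp : Y.p (k + 1) = Y.p k + Y.e k := by simp [Table.e]
  have h1 : Y.ℓ k ^ 2 = (Y.e k).re * (Y.e k).re + (Y.e k).im * (Y.e k).im := by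
    rw [Table.ℓ, ← dt_self]; rfl
  have h2 : Y.c k + Y.ρ k * (I * (Y.e k / Y.ℓ k)) * w - Y.p k =
      ((1 / 2 : ℝ) : ℂ) * Y.e k + (((Y.ρ k / Y.ℓ k : ℝ) : ℂ) * (I * (Y.e k * w))
        - ((Y.h0 k / Y.ℓ k : ℝ) : ℂ) * (I * Y.e k)) := by
    rw [Table.c, hp]
    change (_ - I * (Y.e k / Y.ℓ k) * (Y.h0 k : ℝ)) + _ - _ = _
    push_cast
    ring
  rw [Table.f, h2, cr_add_right, cr_sub_right, cr_smul_right, cr_smul_right, cr_smul_right,
    cr_self, cr_I_right, cr_I_right, dt_self, ← Table.ℓ]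
  have h3 : dt (Y.e k) (Y.e k * w) = Y.ℓ k ^ 2 * w.re := by
    rw [h1]; simp only [dt, mul_re, mul_im]; ring
  rw [h3]
  field_simp
  ring

lemma f_pos_self {k : ZMod n} (hk : k ∈ Y.D) (s : ℝ) :
    Y.f k (Y.pos k s) =
      Y.ℓ k * (Y.ρ k * (Real.cos (Y.β k - s / Y.ρ k) - Real.cos (Y.β k))) := by
  rw [Y.pos_D hk, hg.f_arc hk, mul_comm I (((Y.β k - s / Y.ρ k : ℝ) : ℂ)),
    Complex.exp_ofReal_mul_I_re, ← hg.cos_beta hk]
  ring

lemma angle_mem {k : ZMod n} (hk : k ∈ Y.D) {s : ℝ} (hs : s ∈ Ioo 0 (Y.len k)) :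
    |Y.β k - s / Y.ρ k| < Y.β k := by
  rw [Y.len_D hk] at hs
  have hρ := hg.rho_pos hk
  rw [abs_lt]
  have h1 : 0 < s / Y.ρ k := div_pos hs.1 hρ
  have h2 : s / Y.ρ k < 2 * Y.β k := by
    rw [div_lt_iff₀ hρ]; linarith [hs.2]
  constructor <;> linarith

lemma len_pos (k : ZMod n) : 0 < Y.len k := by
  by_cases hk : k ∈ Y.D
  · rw [Y.len_D hk]; have := hg.rho_pos hk; have := hg.beta_pos hk; positivity
  · rw [Y.len_N hk]; exact hg.ell_pos k

/-- Points of the open boundary component `i` in the thin triangle. -/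
lemma side_frame {i : ZMod n} {s : ℝ} (hs : s ∈ Ioo 0 (Y.len i)) :
    ∃ a h, InT Y η i (Y.pos i s) a h ∧ 0 < a ∧ a < 1 ∧
      (i ∈ Y.D → 0 < Y.f i (Y.pos i s)) ∧ (i ∉ Y.D → Y.f i (Y.pos i s) = 0) := by
  by_cases hi : i ∈ Y.D
  · have hf : 0 < Y.f i (Y.pos i s) := by
      rw [hg.f_pos_self hi]
      have h1 := hg.angle_mem hi hs
      have h2 : Real.cos (Y.β i) < Real.cos (Y.β i - s / Y.ρ i) := by
        rw [← Real.cos_abs (Y.β i - s / Y.ρ i)]
        apply Real.cos_lt_cos_of_nonneg_of_le_pi (abs_nonneg _) _ h1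
        linarith [hg.beta_lt hi, Real.pi_pos]
      have := hg.rho_pos hi
      have := hg.ell_pos i
      have := sub_pos.2 h2
      positivity
    have hT := hg.inT_of_mem_ball hi hf.le (hg.norm_pos_sub_c hi s).le
    have hℓ := hg.ell_pos i
    have hh : 0 < Y.f i (Y.pos i s) / Y.ℓ i ^ 2 := by positivity
    have hη := hg.hη
    refine ⟨_, _, hT, ?_, ?_, fun _ => hf, fun h => absurd hi h⟩
    · have := hT.ha
      by_contra hcon
      push Not at hcon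
      nlinarith
    · have := hT.hb
      by_contra hcon
      push Not at hcon
      nlinarith
  · have hℓ := hg.ell_pos i
    rw [Y.len_N hi] at hs
    have h1 : Y.pos i s = Y.p i + ((s / Y.ℓ i : ℝ) + ((0 : ℝ) : ℂ) * I) * Y.e i := by
      rw [Y.pos_N hi]; push_cast; ring
    have ha0 : 0 < s / Y.ℓ i := div_pos hs.1 hℓ
    have ha1 : s / Y.ℓ i < 1 := by rw [div_lt_one hℓ]; exact hs.2
    have hη := hg.hη
    refine ⟨s / Y.ℓ i, 0, ⟨ha0.le, ha1.le, le_rfl, by positivity, ?_, h1⟩, ha0, ha1,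
      fun h => absurd h hi, fun _ => ?_⟩
    · have := sub_pos.2 ha1; positivity
    · rw [h1, Y.f_self_frame]; ring

lemma f_pos_other {i m : ZMod n} {s : ℝ} (hs : s ∈ Ioo 0 (Y.len i)) (hm : m ≠ i) :
    0 < Y.f m (Y.pos i s) := by
  obtain ⟨a, h, hT, h0, h1, -, -⟩ := hg.side_frame hs
  exact hg.f_pos_of_inT hT hm h0 h1

lemma f_pos_D {i : ZMod n} {s : ℝ} (hs : s ∈ Ioo 0 (Y.len i)) (hi : i ∈ Y.D) :
    0 < Y.f i (Y.pos i s) := by
  obtain ⟨a, h, hT, h0, h1, h2, -⟩ := hg.side_frame hs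
  exact h2 hi

lemma f_pos_N {i : ZMod n} {s : ℝ} (hs : s ∈ Ioo 0 (Y.len i)) (hi : i ∉ Y.D) :
    Y.f i (Y.pos i s) = 0 := by
  obtain ⟨a, h, hT, h0, h1, -, h2⟩ := hg.side_frame hs
  exact h2 hi

lemma f_nonneg {i m : ZMod n} {s : ℝ} (hs : s ∈ Ioo 0 (Y.len i)) :
    0 ≤ Y.f m (Y.pos i s) := by
  by_cases hm : m = i
  · subst hm
    by_cases hi : m ∈ Y.D
    · exact (hg.f_pos_D hs hi).le
    · exact (hg.f_pos_N hs hi).ge
  · exact (hg.f_pos_other hs hm).le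

lemma ball_other {i k : ZMod n} {s : ℝ} (hs : s ∈ Ioo 0 (Y.len i)) (hk : k ∈ Y.D)
    (hki : k ≠ i) : Y.ρ k < ‖Y.pos i s - Y.c k‖ := by
  by_contra hcon
  push Not at hcon
  obtain ⟨a, h, hT, h0, h1, -, -⟩ := hg.side_frame hs
  have hf := hg.f_pos_other hs hki
  have hT' := hg.inT_of_mem_ball hk hf.le hcon
  rcases hg.inT_inter hT hT' hki.symm with h2 | h2 <;> linarith

lemma pos_ne_vertex {i j : ZMod n} {s : ℝ} (hs : s ∈ Ioo 0 (Y.len i)) :
    Y.pos i s ≠ Y.p j := by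
  intro h
  obtain ⟨a, h', hT, h0, h1, -, -⟩ := hg.side_frame hs
  -- the vertex `p j` lies on the sides `j` and `j - 1`
  by_cases hj : j = i
  · have h2 : Y.f (i - 1) (Y.pos i s) = 0 := by
      rw [h, hj]
      have := Y.f_vertex' (i - 1)
      rwa [sub_add_cancel] at this
    have h3 := hg.f_pos_other (m := i - 1) hs (by
      intro h4
      have := succ_ne hg.hn (i - 1)
      rw [sub_add_cancel] at this
      exact this h4.symm)
    linarith
  · have h2 : Y.f j (Y.pos i s) = 0 := by rw [h, Y.f_vertex]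
    have h3 := hg.f_pos_other (m := j) hs hj
    linarith

lemma pos_ne_pos {i j : ZMod n} {s s' : ℝ} (hs : s ∈ Ioo 0 (Y.len i))
    (hs' : s' ∈ Ioo 0 (Y.len j)) (hij : i ≠ j) : Y.pos i s ≠ Y.pos j s' := by
  intro h
  obtain ⟨a, h', hT, h0, h1, -, -⟩ := hg.side_frame hs
  obtain ⟨b, k', hT', k0, k1, -, -⟩ := hg.side_frame hs'
  rw [← h] at hT'
  rcases hg.inT_inter hT hT' hij with h2 | h2 <;> linarith

/-- An open boundary component does not meet the interior of the table. -/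
lemma not_inside_pos {i : ZMod n} {s : ℝ} (hs : s ∈ Ioo 0 (Y.len i)) :
    ¬ Y.inside (Y.pos i s) := by
  intro h
  by_cases hi : i ∈ Y.D
  · have := h.2 i hi
    rw [hg.norm_pos_sub_c hi] at this
    exact lt_irrefl _ this
  · have := h.1 i
    have h2 := hg.f_pos_N hs hi
    rw [Table.f] at h2
    linarith

/-- Classification of the boundary points of the table. -/
lemma classify {x : ℂ} (hf : ∀ m, 0 ≤ Y.f m x) (hG : ∀ k ∈ Y.D, Y.ρ k ≤ ‖x - Y.c k‖)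
    (hb : (∃ m, Y.f m x = 0) ∨ ∃ k ∈ Y.D, ‖x - Y.c k‖ = Y.ρ k) :
    (∃ j, x = Y.p j) ∨ ∃ j, ∃ s ∈ Ioo 0 (Y.len j), x = Y.pos j s := by
  have key : ∀ m, Y.f m x = 0 →
      (∃ j, x = Y.p j) ∨ ∃ j, ∃ s ∈ Ioo 0 (Y.len j), x = Y.pos j s := by
    intro m hm
    have hℓ := hg.ell_pos m
    have hfr := exists_frame (Y := Y) hℓ x
    set a := dt (Y.e m) (x - Y.p m) / Y.ℓ m ^ 2 with ha
    rw [hm, zero_div] at hfr
    have hδ := hg.hδ
    have h1 := hf (m + 1)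
    have h2 := hf (m - 1)
    rw [hfr, Y.f_frame] at h1 h2
    rw [Y.f_vertex] at h1
    have h3 : Y.f (m - 1) (Y.p m) = 0 := by
      have := Y.f_vertex' (m - 1)
      rwa [sub_add_cancel] at this
    rw [h3] at h2
    have h4 : δ ≤ Y.f (m + 1) (Y.p m) :=
      hg.f_far (succ_ne hg.hn m).symm (succ_succ_ne hg.hn m).symm
    have h5 : δ ≤ Y.f (m - 1) (Y.p (m + 1)) := by
      apply hg.f_far
      · have := succ_succ_ne hg.hn (m - 1)
        rwa [sub_add_cancel] at this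
      · rw [sub_add_cancel]; exact succ_ne hg.hn m
    have ha1 : a ≤ 1 := by
      by_contra hcon; push Not at hcon; nlinarith
    have ha0 : 0 ≤ a := by
      by_contra hcon; push Not at hcon; nlinarith
    rcases ha0.eq_or_lt with h6 | h6
    · left; refine ⟨m, ?_⟩; rw [hfr, ← h6]; push_cast; ring
    rcases ha1.eq_or_lt with h7 | h7
    · left; refine ⟨m + 1, ?_⟩; rw [hfr, h7]
      have hp : Y.p (m + 1) = Y.p m + Y.e m := by simp [Table.e]
      rw [hp]; push_cast; ring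
    by_cases hmD : m ∈ Y.D
    · exfalso
      have h8 := hG m hmD
      have h9 := hg.norm_sub_c hmD a 0
      rw [← hfr] at h9
      have h10 := hg.rho_pos hmD
      have h11 : Y.ρ m ^ 2 ≤ ‖x - Y.c m‖ ^ 2 := by nlinarith [norm_nonneg (x - Y.c m)]
      have h12 : 0 < Y.ℓ m ^ 2 * (a * (1 - a)) := by
        have := sub_pos.2 h7; positivity
      nlinarith
    · right
      refine ⟨m, a * Y.ℓ m, ⟨by positivity, ?_⟩, ?_⟩
      · rw [Y.len_N hmD]; nlinarith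
      · rw [Y.pos_N hmD]
        have hℓ' : (Y.ℓ m : ℂ) ≠ 0 := by exact_mod_cast hℓ.ne'
        conv_lhs => rw [hfr]
        push_cast
        field_simp
        ring
  rcases hb with ⟨m, hm⟩ | ⟨k, hk, hkx⟩
  · exact key m hm
  rcases (hf k).eq_or_lt with h1 | h1
  · exact key k h1.symm
  right
  have hℓ := hg.ell_pos k
  have hρ := hg.rho_pos hk
  have hρ' : (Y.ρ k : ℂ) ≠ 0 := by exact_mod_cast hρ.ne'
  have hu : Y.e k / Y.ℓ k ≠ 0 := by
    intro h; have := hg.norm_unit k; rw [h, norm_zero] at this; exact zero_ne_one this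
  have hIu : (Y.ρ k : ℂ) * (I * (Y.e k / Y.ℓ k)) ≠ 0 :=
    mul_ne_zero hρ' (mul_ne_zero I_ne_zero hu)
  set w : ℂ := (x - Y.c k) / (Y.ρ k * (I * (Y.e k / Y.ℓ k))) with hw
  have hw1 : ‖w‖ = 1 := by
    rw [hw, norm_div, hkx, norm_mul, norm_mul, hg.norm_unit, Complex.norm_I, Complex.norm_real,
      Real.norm_eq_abs, abs_of_pos hρ]
    field_simp
  have hxw : x = Y.c k + Y.ρ k * (I * (Y.e k / Y.ℓ k)) * w := by
    rw [hw, mul_div_cancel₀ _ hIu]; ring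
  have hwφ : w = exp (Complex.arg w * I) := by
    have := Complex.norm_mul_exp_arg_mul_I w
    rw [hw1, ofReal_one, one_mul] at this
    exact this.symm
  set φ := Complex.arg w with hφ
  have h2 : Y.f k x = Y.ℓ k * (Y.ρ k * Real.cos φ - Y.h0 k) := by
    conv_lhs => rw [hxw]
    rw [hg.f_arc hk, hwφ, Complex.exp_ofReal_mul_I_re]
  have h3 : Real.cos (Y.β k) < Real.cos φ := by
    rw [h2, ← hg.cos_beta hk] at h1
    by_contra hcon
    push Not at hcon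
    have : Y.ρ k * Real.cos φ - Y.ρ k * Real.cos (Y.β k) ≤ 0 := by nlinarith
    nlinarith
  have h4 : |φ| < Y.β k := by
    by_contra hcon
    push Not at hcon
    have h5 : |φ| ≤ Real.pi := Complex.abs_arg_le_pi w
    have h6 := Real.cos_le_cos_of_nonneg_of_le_pi (hg.beta_pos hk).le h5 hcon
    rw [Real.cos_abs] at h6
    linarith
  rw [abs_lt] at h4
  refine ⟨k, Y.ρ k * (Y.β k - φ), ⟨?_, ?_⟩, ?_⟩
  · have : 0 < Y.β k - φ := by linarith
    positivity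
  · rw [Y.len_D hk]; nlinarith
  · rw [Y.pos_D hk]
    have : Y.β k - Y.ρ k * (Y.β k - φ) / Y.ρ k = φ := by field_simp; ring
    rw [this]
    conv_lhs => rw [hxw, hwφ]
    rw [mul_comm (φ : ℂ) I]

end Good

end Pool.Agent.Lib.MP_19d7db_an

namespace Pool.Agent.Lib.MP_19d7db_an

variable {n : ℕ}

namespace Good

variable {Y : Table n} {δ C η : ℝ} (hg : Good Y δ C η)

include hg

/-- The polygon is bounded. -/
lemma exists_diam : ∃ d, 0 < d ∧ ∀ x y, (∀ m, 0 ≤ Y.f m x) → (∀ m, 0 ≤ Y.f m y) →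
    ‖x - y‖ ≤ d := by
  haveI : NeZero n := ⟨by have := hg.hn; omega⟩
  have hsum : ∑ m, Y.e m = 0 := by
    simp only [Table.e, Finset.sum_sub_distrib]
    rw [sub_eq_zero]
    exact Equiv.sum_comp (Equiv.addRight (1 : ZMod n)) Y.p
  have hcr : ∀ x : ℂ, ∑ m, cr (Y.e m) x = 0 := by
    intro x
    simp only [cr, Finset.sum_sub_distrib, ← Finset.sum_mul]
    rw [← Complex.re_sum, ← Complex.im_sum, hsum]
    simp
  set S := ∑ m, Y.f m 0 with hS
  have hsumf : ∀ x, ∑ m, Y.f m x = S := by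
    intro x
    have : ∀ m, Y.f m x = Y.f m 0 + cr (Y.e m) x := by
      intro m; simp only [Table.f, cr, sub_re, sub_im, zero_re, zero_im]; ring
    simp_rw [this, Finset.sum_add_distrib, hcr x, add_zero]
    rfl
  have hle : ∀ x, (∀ m, 0 ≤ Y.f m x) → ∀ m, Y.f m x ≤ S := by
    intro x hx m
    rw [← hsumf x]
    exact Finset.single_le_sum (f := fun m => Y.f m x) (fun i _ => hx i) (Finset.mem_univ m)
  have hδ := hg.hδ
  have hK : δ ≤ cr (Y.e 0) (Y.e (0 + 1)) := by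
    have h1 := hg.conv 0 (0 + 1 + 1) (succ_succ_ne hg.hn 0) (succ_ne hg.hn (0 + 1))
    have h2 : Y.p (0 + 1 + 1) - Y.p 0 = Y.e 0 + Y.e (0 + 1) := by simp [Table.e]
    rwa [h2, cr_add_right, cr_self, zero_add] at h1
  have hS0 : 0 ≤ S := by
    rw [← hsumf (Y.p 0)]
    exact Finset.sum_nonneg fun i _ => hg.f_vertex_nonneg i 0
  refine ⟨S * (Y.ℓ 0 + Y.ℓ (0 + 1)) / δ + 1, ?_, ?_⟩
  · have := hg.ell_pos 0; have := hg.ell_pos (0 + 1); positivity
  intro x y hx hy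
  have h1 : |cr (Y.e 0) (x - y)| ≤ S := by
    have : cr (Y.e 0) (x - y) = Y.f 0 x - Y.f 0 y := by
      simp only [Table.f, cr, sub_re, sub_im]; ring
    rw [this, abs_le]
    have := hle x hx 0; have := hle y hy 0; have := hx 0; have := hy 0
    constructor <;> linarith
  have h2 : |cr (Y.e (0 + 1)) (x - y)| ≤ S := by
    have : cr (Y.e (0 + 1)) (x - y) = Y.f (0 + 1) x - Y.f (0 + 1) y := by
      simp only [Table.f, cr, sub_re, sub_im]; ring
    rw [this, abs_le]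
    have := hle x hx (0 + 1); have := hle y hy (0 + 1); have := hx (0 + 1); have := hy (0 + 1)
    constructor <;> linarith
  have h3 : ((cr (Y.e 0) (Y.e (0 + 1)) : ℝ) : ℂ) * (x - y) =
      ((-cr (Y.e (0 + 1)) (x - y) : ℝ) : ℂ) * Y.e 0 +
        ((cr (Y.e 0) (x - y) : ℝ) : ℂ) * Y.e (0 + 1) := by
    apply Complex.ext
    · simp only [cr, mul_re, add_re, ofReal_re, ofReal_im, sub_re, sub_im]; ring
    · simp only [cr, mul_im, add_im, ofReal_re, ofReal_im, sub_re, sub_im]; ring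
  have h4 : cr (Y.e 0) (Y.e (0 + 1)) * ‖x - y‖ ≤ S * (Y.ℓ 0 + Y.ℓ (0 + 1)) := by
    have h5 := congrArg norm h3
    rw [norm_mul, Complex.norm_real, Real.norm_eq_abs, abs_of_pos (hδ.trans_le hK)] at h5
    rw [h5]
    refine (norm_add_le _ _).trans ?_
    rw [norm_mul, norm_mul, Complex.norm_real, Complex.norm_real, Real.norm_eq_abs,
      Real.norm_eq_abs, abs_neg, ← Table.ℓ, ← Table.ℓ]
    have := hg.ell_pos 0; have := hg.ell_pos (0 + 1)
    nlinarith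
  have h6 : δ * ‖x - y‖ ≤ S * (Y.ℓ 0 + Y.ℓ (0 + 1)) :=
    (mul_le_mul_of_nonneg_right hK (norm_nonneg _)).trans h4
  have h7 : ‖x - y‖ ≤ S * (Y.ℓ 0 + Y.ℓ (0 + 1)) / δ := by
    rw [le_div_iff₀ hδ]; linarith
  linarith

/-- Two neutral sides which are not adjacent have a positive distance. -/
lemma f_lower {i j : ZMod n} {s : ℝ} (hs : s ∈ Ioo 0 (Y.len i)) (hi : i ∉ Y.D) (h1 : i ≠ j)
    (h2 : i ≠ j + 1) (h3 : i + 1 ≠ j) : δ ≤ Y.f j (Y.pos i s) := by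
  have hℓ := hg.ell_pos i
  rw [Y.len_N hi] at hs
  have h4 : Y.pos i s = Y.p i + ((s / Y.ℓ i : ℝ) + ((0 : ℝ) : ℂ) * I) * Y.e i := by
    rw [Y.pos_N hi]; push_cast; ring
  rw [h4, Y.f_frame]
  have ha0 : 0 < s / Y.ℓ i := div_pos hs.1 hℓ
  have ha1 : s / Y.ℓ i < 1 := by rw [div_lt_one hℓ]; exact hs.2
  have h5 := hg.f_far h1 h2
  have h6 : δ ≤ Y.f j (Y.p (i + 1)) := hg.f_far h3 (fun h => h1 (add_right_cancel h))
  nlinarith

end Good

end Pool.Agent.Lib.MP_19d7db_an
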