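import Pool.Agent.Lib.MP_19d7db_an.Fan

/-!
# Orbits which stay on neutral sides forever have measure zero
-/

open Complex Set Filter Topology MeasureTheory

namespace Pool.Agent.Lib.MP_19d7db_an

variable {n : ℕ}

/-- Constants of a table without adjacent neutral sides: diameter and smallest length of a
flight between neutral sides. -/
structure Consts0 (Y : Table n) (d d0 : ℝ) : Prop where
  hd : 0 < d
  hd0 : 0 < d0
  diam : ∀ x y, (∀ m, 0 ≤ Y.f m x) → (∀ m, 0 ≤ Y.f m y) → ‖x - y‖ ≤ d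
  flight : ∀ i j s s' τ v, i ∉ Y.D → j ∉ Y.D → i ≠ j → s ∈ Ioo 0 (Y.len i) →
    s' ∈ Ioo 0 (Y.len j) → Y.pos j s' = Y.pos i s + (τ : ℝ) * v → ‖v‖ = 1 → 0 < τ → d0 ≤ τ

/-- The constants, together with the width of the lenses. -/
structure Consts (Y : Table n) (c d d0 : ℝ) : Prop extends Consts0 Y d d0 where
  hadj : ∀ i, i ∈ Y.D ∨ i + 1 ∈ Y.D
  hc : 0 < c
  width : ∀ k ∈ Y.D, ∃ M : ℂ, (∀ m, 0 ≤ Y.f m M) ∧
      ‖M - Y.c k‖ ≤ Y.ρ k ∧ ∀ v : ℂ, ‖v‖ = 1 →
        c ≤ |cr v (Y.p (k + 1) - Y.p k)| ∨ c ≤ |cr v (M - Y.p k)|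

namespace Good

variable {Y : Table n} {δ C η : ℝ} (hg : Good Y δ C η)

include hg

lemma exists_consts0 [NeZero n] (hadj : ∀ i, i ∈ Y.D ∨ i + 1 ∈ Y.D) :
    ∃ d d0, Consts0 Y d d0 := by
  obtain ⟨d, hd, hdd⟩ := hg.exists_diam
  have hC := hg.C_pos
  have hδ := hg.hδ
  refine ⟨d, δ / √C, hd, by positivity, hdd, ?_⟩
  intro i j s s' τ v hi hj hij hs hs' hpos hv hτ
  have h1 : i ≠ j + 1 := by
    intro h
    rcases hadj j with h2 | h2
    · exact hj h2
    · exact hi (h ▸ h2)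
  have h2 : i + 1 ≠ j := by
    intro h
    rcases hadj i with h2 | h2
    · exact hi h2
    · exact hj (h ▸ h2)
  have h3 := hg.f_lower hs hi hij h1 h2
  have h4 := hg.f_pos_N hs' hj
  rw [hpos, Y.f_add] at h4
  have h5 := abs_cr_le (Y.e j) v
  rw [hv, mul_one] at h5
  have h6 : Y.ℓ j ≤ √C := by
    apply Real.le_sqrt_of_sq_le
    have := hg.hC j j; nlinarith
  have h7 : |cr (Y.e j) v| ≤ √C := h5.trans h6
  have h8 : 0 < √C := Real.sqrt_pos.2 hC
  rw [div_le_iff₀ h8]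
  have h9 := (abs_le.1 h7).1
  nlinarith

lemma exists_consts [NeZero n] (hadj : ∀ i, i ∈ Y.D ∨ i + 1 ∈ Y.D) :
    ∃ c d d0, Consts Y c d d0 := by
  obtain ⟨c, hc, hw⟩ := hg.exists_width
  obtain ⟨d, d0, h0⟩ := hg.exists_consts0 hadj
  exact ⟨c, d, d0, h0, hadj, hc, hw⟩

/-- Separation: two orbits of a fan with the same code stay within the diameter. -/
lemma sep {d d0 : ℝ} (hK : Consts0 Y d d0) : ∀ (L : List (ZMod n)) (i : ZMod n)
    (w w' : ℝ × ℝ) (t t' : ℝ), w ∈ Y.Phase i → w' ∈ Y.Phase i → Path Y L (i, w) →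
    Path Y L (i, w') → 0 ≤ t' →
    Y.pos i w.1 - t * Y.dir (i, w) = Y.pos i w'.1 - t' * Y.dir (i, w') →
    (t' + L.length * d0) * |cr (Y.dir (i, w)) (Y.dir (i, w'))| ≤ d := by
  intro L
  induction L with
  | nil =>
    intro i w w' t t' hw hw' _ _ ht' hap
    have h1 : Y.pos i w'.1 - Y.pos i w.1 = (t' : ℂ) * Y.dir (i, w') - t * Y.dir (i, w) := by
      linear_combination -hap
    have h2 : cr (Y.dir (i, w)) (Y.pos i w'.1 - Y.pos i w.1) =
        t' * cr (Y.dir (i, w)) (Y.dir (i, w')) := by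
      rw [h1, cr_sub_right, cr_smul_right, cr_smul_right, cr_self]; ring
    have h3 := abs_cr_le (Y.dir (i, w)) (Y.pos i w'.1 - Y.pos i w.1)
    rw [h2, abs_mul, abs_of_nonneg ht', hg.norm_dir, one_mul] at h3
    have h4 := hK.diam (Y.pos i w'.1) (Y.pos i w.1) (fun m => hg.f_nonneg hw'.1)
      (fun m => hg.f_nonneg hw.1)
    simp only [List.length_nil, Nat.cast_zero, zero_mul, add_zero]
    exact h3.trans h4
  | cons j L ih =>
    intro i w w' t t' hw hw' hp hp' ht' hap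
    obtain ⟨hi, w1, hh, hp1⟩ := hp
    obtain ⟨-, w1', hh', hp1'⟩ := hp'
    simp only at hi
    have hj : j ∉ Y.D := hp1.neutral
    have hne := hg.hit_ne hh
    have hij : i ≠ j := fun h => hne ⟨h, hi⟩
    obtain ⟨-, hw1, τ, hτ, hpos, hdir, hin⟩ := hh
    obtain ⟨-, hw1', τ', hτ', hpos', hdir', hin'⟩ := hh'
    simp only at hw1 hpos hdir hin hw1' hpos' hdir' hin'
    have hap1 : Y.pos j w1.1 - ((t + τ : ℝ) : ℂ) * Y.dirIn (j, w1) =
        Y.pos j w1'.1 - ((t' + τ' : ℝ) : ℂ) * Y.dirIn (j, w1') := by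
      rw [hdir, hdir', hpos, hpos']; push_cast; linear_combination hap
    have h1 := ih j w1 w1' (t + τ) (t' + τ') hw1 hw1' hp1 hp1' (by linarith)
      (hg.apex_reflect hj hap1)
    rw [hg.cr_reflect hj, hdir, hdir', abs_neg] at h1
    have h2 := hK.flight i j w'.1 w1'.1 τ' (Y.dir (i, w')) hi hj hij hw'.1 hw1'.1 hpos'
      (hg.norm_dir _) hτ'
    refine le_trans ?_ h1
    apply mul_le_mul_of_nonneg_right _ (abs_nonneg _)
    rw [List.length_cons]; push_cast; linarith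

lemma exit_same {c d d0 : ℝ} (hK : Consts Y c d d0)
    {i j j' : ZMod n} {w w' w1 w1' : ℝ × ℝ} {t t' Tm : ℝ} (hi : i ∉ Y.D) (hj : j ∉ Y.D)
    (hj' : j' ∉ Y.D) (h : Y.Hit (i, w) (j, w1)) (h' : Y.Hit (i, w') (j', w1'))
    (hap : Y.pos i w.1 - t * Y.dir (i, w) = Y.pos i w'.1 - t' * Y.dir (i, w'))
    (ht : 0 ≤ t) (htm : t ≤ Tm) (ht' : 0 ≤ t') (htm' : t' ≤ Tm)
    (hσ : cr (Y.dir (i, w)) (Y.dir (i, w')) ≠ 0) (hdt : 0 < dt (Y.dir (i, w)) (Y.dir (i, w')))
    (hsm : (Tm + d) * |cr (Y.dir (i, w)) (Y.dir (i, w'))| ≤ c) : j = j' := by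
  rcases lt_or_gt_of_ne hσ with h1 | h1
  · have h2 : 0 < cr (Y.dir (i, w')) (Y.dir (i, w)) := by rw [cr_comm]; linarith
    rw [cr_comm, abs_neg, abs_of_pos h2] at hsm
    rw [dt_comm] at hdt
    exact (hg.exit_same_aux hK.width hK.diam hK.hadj hi hj' hj h' h hap.symm ht' htm' h2 hdt
      hsm).symm
  · rw [abs_of_pos h1] at hsm
    exact hg.exit_same_aux hK.width hK.diam hK.hadj hi hj hj' h h' hap ht htm h1 hdt hsm

/-- Close orbits of a fan have the same code. -/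
lemma code_eq {c d d0 : ℝ} (hK : Consts Y c d d0) : ∀ (L L' : List (ZMod n)) (i : ZMod n)
    (w w' : ℝ × ℝ) (t t' Tm : ℝ), L.length = L'.length → w ∈ Y.Phase i → w' ∈ Y.Phase i →
    Path Y L (i, w) → Path Y L' (i, w') → 0 ≤ t → t ≤ Tm → 0 ≤ t' → t' ≤ Tm →
    Y.pos i w.1 - t * Y.dir (i, w) = Y.pos i w'.1 - t' * Y.dir (i, w') →
    cr (Y.dir (i, w)) (Y.dir (i, w')) ≠ 0 → 0 < dt (Y.dir (i, w)) (Y.dir (i, w')) →
    (Tm + L.length * d) * |cr (Y.dir (i, w)) (Y.dir (i, w'))| ≤ c → L = L' := by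
  intro L
  induction L with
  | nil =>
    intro L' i w w' t t' Tm hlen _ _ _ _ _ _ _ _ _ _ _ _
    exact (List.length_eq_zero_iff.1 (by simpa using hlen.symm)).symm
  | cons j L ih =>
    intro L' i w w' t t' Tm hlen hw hw' hp hp' ht htm ht' htm' hap hσ hdt hsm
    cases L' with
    | nil => simp at hlen
    | cons j' L' =>
      obtain ⟨hi, w1, hh, hp1⟩ := hp
      obtain ⟨-, w1', hh', hp1'⟩ := hp'
      simp only at hi
      have hj : j ∉ Y.D := hp1.neutral
      have hj' : j' ∉ Y.D := hp1'.neutral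
      have hd := hK.hd
      have hlen' : L.length = L'.length := by simpa using hlen
      rw [List.length_cons] at hsm
      push_cast at hsm
      have habs := abs_nonneg (cr (Y.dir (i, w)) (Y.dir (i, w')))
      have hL0 : (0 : ℝ) ≤ L.length := Nat.cast_nonneg _
      have hjj : j = j' := by
        apply hg.exit_same hK hi hj hj' hh hh' hap ht htm ht' htm' hσ hdt
        refine le_trans ?_ hsm
        apply mul_le_mul_of_nonneg_right _ habs
        nlinarith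
      subst hjj
      congr 1
      obtain ⟨-, hw1, τ, hτ, hpos, hdir, hin⟩ := hh
      obtain ⟨-, hw1', τ', hτ', hpos', hdir', hin'⟩ := hh'
      simp only at hw1 hpos hdir hin hw1' hpos' hdir' hin'
      have hap1 : Y.pos j w1.1 - ((t + τ : ℝ) : ℂ) * Y.dirIn (j, w1) =
          Y.pos j w1'.1 - ((t' + τ' : ℝ) : ℂ) * Y.dirIn (j, w1') := by
        rw [hdir, hdir', hpos, hpos']; push_cast; linear_combination hap
      have hτd : τ ≤ d := by
        have h1 := hK.diam (Y.pos j w1.1) (Y.pos i w.1) (fun m => hg.f_nonneg hw1.1)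
          (fun m => hg.f_nonneg hw.1)
        have h2 : Y.pos j w1.1 - Y.pos i w.1 = τ * Y.dir (i, w) := by rw [hpos]; ring
        rw [h2, norm_mul, hg.norm_dir, Complex.norm_real, Real.norm_eq_abs, abs_of_pos hτ,
          mul_one] at h1
        exact h1
      have hτd' : τ' ≤ d := by
        have h1 := hK.diam (Y.pos j w1'.1) (Y.pos i w'.1) (fun m => hg.f_nonneg hw1'.1)
          (fun m => hg.f_nonneg hw'.1)
        have h2 : Y.pos j w1'.1 - Y.pos i w'.1 = τ' * Y.dir (i, w') := by rw [hpos']; ring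
        rw [h2, norm_mul, hg.norm_dir, Complex.norm_real, Real.norm_eq_abs, abs_of_pos hτ',
          mul_one] at h1
        exact h1
      have e1 := hg.cr_reflect hj w1 w1'
      have e2 := hg.dt_reflect hj w1 w1'
      rw [hdir, hdir'] at e1 e2
      apply ih L' j w1 w1' (t + τ) (t' + τ') (Tm + d) hlen' hw1 hw1' hp1 hp1' (by linarith)
        (by linarith) (by linarith) (by linarith) (hg.apex_reflect hj hap1)
      · rw [e1]; exact neg_ne_zero.2 hσ
      · rw [e2]; exact hdt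
      · rw [e1, abs_neg]
        refine le_trans (le_of_eq ?_) hsm
        ring

end Good

end Pool.Agent.Lib.MP_19d7db_an
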