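import Pool.Agent.Lib.MP_19d7db_an.Main

/-!
# At most two neutral sides
-/

open Complex Set Filter Topology MeasureTheory

namespace Pool.Agent.Lib.MP_19d7db_an

variable {n : ℕ}

lemma eq_zero_of_mul_two_pi {x : ℝ} {k : ℤ} (h : x = k * (2 * Real.pi))
    (h1 : -(2 * Real.pi) < x) (h2 : x < 2 * Real.pi) : x = 0 := by
  have hπ := Real.pi_pos
  have hk1 : (k : ℝ) < 1 := by
    by_contra hcon; push Not at hcon; nlinarith
  have hk2 : (-1 : ℝ) < k := by
    by_contra hcon; push Not at hcon; nlinarith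
  have h3 : k < 1 := by exact_mod_cast hk1
  have h4 : -1 < k := by exact_mod_cast hk2
  have : k = 0 := by omega
  rw [h, this]; simp

namespace Good

variable {Y : Table n} {δ C η : ℝ} (hg : Good Y δ C η)

include hg

/-- The exterior angle at the end point of the side `a`. -/
lemma exists_ext_angle (a : ZMod n) : ∃ ω : ℝ, 0 < ω ∧ ω < Real.pi ∧
    Y.e (a + 1) / Y.ℓ (a + 1) = Y.e a / Y.ℓ a * exp (I * (ω : ℝ)) := by
  have h1 := hg.norm_unit a
  have h2 := hg.norm_unit (a + 1)
  set T := Y.e a / Y.ℓ a with hT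
  set T' := Y.e (a + 1) / Y.ℓ (a + 1) with hT'
  have hT0 : T ≠ 0 := by rw [← norm_pos_iff, h1]; norm_num
  set z := T' / T with hz
  have hz1 : ‖z‖ = 1 := by rw [hz, norm_div, h2, h1, div_one]
  have hzT : T' = T * z := by rw [hz]; field_simp
  have hcr : 0 < cr T T' := by
    have h3 : 0 < cr (Y.e a) (Y.e (a + 1)) := by
      have h4 := hg.f_far (m := a) (j := a + 1 + 1) (succ_succ_ne hg.hn a)
        (succ_ne hg.hn (a + 1))
      have h5 : Y.p (a + 1 + 1) - Y.p a = Y.e a + Y.e (a + 1) := by simp [Table.e]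
      rw [Table.f, h5, cr_add_right, cr_self, zero_add] at h4
      exact hg.hδ.trans_le h4
    have h4 : cr T T' = (1 / Y.ℓ a) * ((1 / Y.ℓ (a + 1)) * cr (Y.e a) (Y.e (a + 1))) := by
      have e1 : T = ((1 / Y.ℓ a : ℝ) : ℂ) * Y.e a := by rw [hT]; push_cast; ring
      have e2 : T' = ((1 / Y.ℓ (a + 1) : ℝ) : ℂ) * Y.e (a + 1) := by rw [hT']; push_cast; ring
      rw [e1, e2, cr_smul_left, cr_smul_right]
    rw [h4]
    have := hg.ell_pos a
    have := hg.ell_pos (a + 1)
    positivity
  have hzim : 0 < z.im := by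
    rw [hzT, cr_mul_left, h1] at hcr
    linarith
  refine ⟨Complex.arg z, ?_, ?_, ?_⟩
  · have h3 : 0 ≤ Complex.arg z := Complex.arg_nonneg_iff.2 hzim.le
    apply lt_of_le_of_ne h3
    intro h4
    have h5 := (Complex.arg_eq_zero_iff.1 h4.symm).2
    rw [h5] at hzim
    exact lt_irrefl _ hzim
  · have h3 := Complex.arg_le_pi z
    apply lt_of_le_of_ne h3
    intro h4
    have h5 := (Complex.arg_eq_pi_iff.1 h4).2
    rw [h5] at hzim
    exact lt_irrefl _ hzim
  · rw [hzT]
    congr 1
    have := Complex.norm_mul_exp_arg_mul_I z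
    rw [hz1, ofReal_one, one_mul] at this
    rw [mul_comm I]
    exact this.symm

/-- Angles of a flight from the side `a` to the neutral side `a+1`. -/
lemma angle_forward {a : ZMod n} {ω : ℝ} (hω0 : 0 < ω) (hωπ : ω < Real.pi)
    (hω : Y.e (a + 1) / Y.ℓ (a + 1) = Y.e a / Y.ℓ a * exp (I * (ω : ℝ)))
    (ha : a ∉ Y.D) (hb : a + 1 ∉ Y.D) {w w' : ℝ × ℝ} (h : Y.Hit (a, w) (a + 1, w')) :
    w.2 + w'.2 = ω := by
  obtain ⟨hw, hw', t, ht, hpos, hdir, hin⟩ := h
  simp only at hw hw' hpos hdir hin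
  rw [Table.dir, Table.dirIn, hg.tan_N ha, hg.tan_N hb, hω, mul_assoc] at hdir
  have hT0 : Y.e a / Y.ℓ a ≠ 0 := by rw [← norm_pos_iff, hg.norm_unit]; norm_num
  have h1 := mul_left_cancel₀ hT0 hdir
  rw [← Complex.exp_add, Complex.exp_eq_exp_iff_exists_int] at h1
  obtain ⟨k, hk⟩ := h1
  have h2 : ((ω - w'.2 - w.2 : ℝ) : ℂ) = ((k * (2 * Real.pi) : ℝ) : ℂ) := by
    push_cast
    have h3 : I * ((ω : ℂ) - w'.2 - w.2) = I * (k * (2 * Real.pi)) := by
      simp only at hk
      linear_combination hk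
    exact mul_left_cancel₀ I_ne_zero h3
  have h3 : ω - w'.2 - w.2 = k * (2 * Real.pi) := by exact_mod_cast h2
  have b1 := hw.2
  have b2 := hw'.2
  have h4 := eq_zero_of_mul_two_pi h3 (by linarith [b1.2, b2.2]) (by linarith [b1.1, b2.1])
  linarith

/-- Angles of a flight from the side `a+1` to the neutral side `a`. -/
lemma angle_backward {a : ZMod n} {ω : ℝ} (hω0 : 0 < ω) (hωπ : ω < Real.pi)
    (hω : Y.e (a + 1) / Y.ℓ (a + 1) = Y.e a / Y.ℓ a * exp (I * (ω : ℝ)))
    (ha : a ∉ Y.D) (hb : a + 1 ∉ Y.D) {w w' : ℝ × ℝ} (h : Y.Hit (a + 1, w) (a, w')) :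
    w.2 + w'.2 = 2 * Real.pi - ω := by
  obtain ⟨hw, hw', t, ht, hpos, hdir, hin⟩ := h
  simp only at hw hw' hpos hdir hin
  rw [Table.dir, Table.dirIn, hg.tan_N ha, hg.tan_N hb, hω, mul_assoc] at hdir
  have hT0 : Y.e a / Y.ℓ a ≠ 0 := by rw [← norm_pos_iff, hg.norm_unit]; norm_num
  have h1 := mul_left_cancel₀ hT0 hdir
  rw [← Complex.exp_add, Complex.exp_eq_exp_iff_exists_int] at h1
  obtain ⟨k, hk⟩ := h1
  have h2 : ((2 * Real.pi - ω - w.2 - w'.2 : ℝ) : ℂ) = (((k + 1 : ℤ) * (2 * Real.pi) : ℝ) : ℂ) := by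
    push_cast
    have h3 : I * (2 * Real.pi - (ω : ℂ) - w.2 - w'.2) = I * ((k + 1) * (2 * Real.pi)) := by
      simp only at hk
      linear_combination hk
    exact mul_left_cancel₀ I_ne_zero h3
  have h3 : 2 * Real.pi - ω - w.2 - w'.2 = (k + 1 : ℤ) * (2 * Real.pi) := by exact_mod_cast h2
  have b1 := hw.2
  have b2 := hw'.2
  have h4 := eq_zero_of_mul_two_pi h3 (by linarith [b1.2, b2.2]) (by linarith [b1.1, b2.1])
  linarith

/-- A chain which alternates between the adjacent neutral sides `a` and `a+1` is short. -/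
lemma wedge_bound {a : ZMod n} {ω : ℝ} (hω0 : 0 < ω) (hωπ : ω < Real.pi)
    (hω : Y.e (a + 1) / Y.ℓ (a + 1) = Y.e a / Y.ℓ a * exp (I * (ω : ℝ)))
    (ha : a ∉ Y.D) (hb : a + 1 ∉ Y.D) (hN : ∀ i, i ∉ Y.D → i = a ∨ i = a + 1) :
    ∀ (N : ℕ) (L : List (ZMod n)) (w : ℝ × ℝ), L.length = 2 * N → w ∈ Y.Phase a →
      Path Y L (a, w) → w.2 + 2 * N * (Real.pi - ω) < Real.pi := by
  intro N
  induction N with
  | zero =>
    intro L w _ hw _
    have := hw.2.2
    simpa using this
  | succ N ih =>
    intro L w hL hw hp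
    match L, hL, hp with
    | j :: j' :: L, hL, hp =>
      obtain ⟨-, w1, hh, hj1, w2, hh', hp2⟩ := hp
      have hj := hp2.neutral
      simp only at hj1 hj
      have e1 : j = a + 1 := by
        rcases hN j hj1 with h | h
        · exact absurd ⟨h.symm, ha⟩ (hg.hit_ne hh)
        · exact h
      subst e1
      have e2 : j' = a := by
        rcases hN j' hj with h | h
        · exact h
        · exact absurd ⟨h.symm, hb⟩ (hg.hit_ne hh')
      subst e2
      have a1 := hg.angle_forward hω0 hωπ hω ha hb hh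
      have a2 := hg.angle_backward hω0 hωπ hω ha hb hh'
      have hL' : L.length = 2 * N := by simp at hL; omega
      have h3 := ih L w2 hL' hh'.2.1 hp2
      push_cast
      linarith

/-- At most two neutral sides: the survivors are a null set. -/
theorem null_two [NeZero n] {a b : ZMod n} (hN : ∀ i, i ∉ Y.D → i = a ∨ i = b) (i : ZMod n)
    (s : ℝ) : volume {θ : ℝ | (s, θ) ∈ Y.Phase i ∧ ∀ N, NC Y N (i, (s, θ))} = 0 := by
  -- adjacent neutral sides
  have wedge : ∀ a : ZMod n, a ∉ Y.D → a + 1 ∉ Y.D → (∀ i, i ∉ Y.D → i = a ∨ i = a + 1) →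
      volume {θ : ℝ | (s, θ) ∈ Y.Phase i ∧ ∀ N, NC Y N (i, (s, θ))} = 0 := by
    intro a ha hb hN
    obtain ⟨ω, hω0, hωπ, hω⟩ := hg.exists_ext_angle a
    obtain ⟨N, hNb⟩ := exists_nat_gt (Real.pi / (Real.pi - ω))
    have hNb' : Real.pi < N * (Real.pi - ω) := by
      rwa [div_lt_iff₀ (by linarith)] at hNb
    have hπ := Real.pi_pos
    have key : ∀ w : ℝ × ℝ, w ∈ Y.Phase a → ∀ L : List (ZMod n), L.length = 2 * N →
        ¬ Path Y L (a, w) := by
      intro w hw L hL hp
      have h1 := hg.wedge_bound hω0 hωπ hω ha hb hN N L w hL hw hp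
      have := hw.2.1
      nlinarith
    convert measure_empty (μ := (volume : Measure ℝ))
    ext θ
    simp only [Set.mem_setOf_eq, Set.mem_empty_iff_false, iff_false, not_and]
    intro hθ hall
    obtain ⟨L, hL, hp⟩ := hall (2 * N + 1)
    match L, hL, hp with
    | j :: L, hL, hp =>
      obtain ⟨hi, w1, hh, hp1⟩ := hp
      simp only at hi
      rcases hN i hi with h | h
      · subst h
        obtain ⟨L', hL', hp'⟩ := hall (2 * N)
        exact key _ hθ L' hL' hp'
      · have hj : j = a := by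
          rcases hN j hp1.neutral with h' | h'
          · exact h'
          · exact absurd ⟨h.trans h'.symm, hi⟩ (hg.hit_ne hh)
        subst hj
        exact key w1 hh.2.1 L (by simpa using hL) hp1
  by_cases hadj : ∀ i, i ∈ Y.D ∨ i + 1 ∈ Y.D
  · -- no adjacent neutral sides: at most one surviving direction
    obtain ⟨d, d0, hK⟩ := hg.exists_consts0 hadj
    apply Set.Subsingleton.measure_zero
    intro θ hθ θ' hθ'
    have hcode : ∀ (N : ℕ) (L L' : List (ZMod n)) (i : ZMod n) (w w' : ℝ × ℝ), L.length = N →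
        L'.length = N → Path Y L (i, w) → Path Y L' (i, w') → L = L' := by
      intro N
      induction N with
      | zero =>
        intro L L' _ _ _ h1 h2 _ _
        rw [List.length_eq_zero_iff.1 h1, List.length_eq_zero_iff.1 h2]
      | succ N ih =>
        intro L L' i w w' h1 h2 hp hp'
        match L, L', h1, h2, hp, hp' with
        | j :: L, j' :: L', h1, h2, hp, hp' =>
          obtain ⟨hi, w1, hh, hp1⟩ := hp
          obtain ⟨-, w1', hh', hp1'⟩ := hp'
          simp only at hi
          have hij : i ≠ j := fun h => hg.hit_ne hh ⟨h, hi⟩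
          have hij' : i ≠ j' := fun h => hg.hit_ne hh' ⟨h, hi⟩
          have hjj : j = j' := by
            rcases hN i hi with h | h <;> rcases hN j hp1.neutral with h1 | h1 <;>
              rcases hN j' hp1'.neutral with h2 | h2
            · exact absurd (h.trans h1.symm) hij
            · exact absurd (h.trans h1.symm) hij
            · exact absurd (h.trans h2.symm) hij'
            · exact h1.trans h2.symm
            · exact h1.trans h2.symm
            · exact absurd (h.trans h2.symm) hij'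
            · exact absurd (h.trans h1.symm) hij
            · exact absurd (h.trans h1.symm) hij
          subst hjj
          congr 1
          exact ih L L' j w1 w1' (by simpa using h1) (by simpa using h2) hp1 hp1'
    have hsin : ∀ N : ℕ, (N * d0) * |Real.sin (θ' - θ)| ≤ d := by
      intro N
      obtain ⟨L, hL, hp⟩ := hθ.2 N
      obtain ⟨L', hL', hp'⟩ := hθ'.2 N
      have hLL := hcode N L L' i _ _ hL hL' hp hp'
      subst hLL
      have := hg.sep hK L i (s, θ) (s, θ') 0 0 hθ.1 hθ'.1 hp hp' le_rfl (by simp)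
      rwa [hg.cr_dir_dir, zero_add, hL] at this
    have hz : Real.sin (θ' - θ) = 0 := by
      by_contra hne
      have h1 : 0 < |Real.sin (θ' - θ)| := abs_pos.2 hne
      obtain ⟨N, hNb⟩ := exists_nat_gt (d / (d0 * |Real.sin (θ' - θ)|))
      have hd0 := hK.hd0
      rw [div_lt_iff₀ (by positivity)] at hNb
      have := hsin N
      nlinarith
    have b1 := hθ.1.2
    have b2 := hθ'.1.2
    simp only at b1 b2
    have h2 : θ' - θ = 0 := by
      rw [← Real.sin_eq_zero_iff_of_lt_of_lt (x := θ' - θ) (by linarith [b1.2, b2.1])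
        (by linarith [b1.1, b2.2])]
      exact hz
    linarith
  · push Not at hadj
    obtain ⟨c, hc1, hc2⟩ := hadj
    apply wedge c hc1 hc2
    intro j hj
    have hne : c ≠ c + 1 := (succ_ne hg.hn c).symm
    rcases hN c hc1 with h | h <;> rcases hN (c + 1) hc2 with h1 | h1 <;>
      rcases hN j hj with h2 | h2
    · exact absurd (h.trans h1.symm) hne
    · exact absurd (h.trans h1.symm) hne
    · left; exact h2.trans h.symm
    · right; exact h2.trans h1.symm
    · right; exact h2.trans h1.symm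
    · left; exact h2.trans h.symm
    · exact absurd (h.trans h1.symm) hne
    · exact absurd (h.trans h1.symm) hne

end Good

end Pool.Agent.Lib.MP_19d7db_an
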